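import Pool.Agent.W182.KO.Spec
import Pool.Agent.H306R2.Asy

set_option autoImplicit false

/-! The asymptotics of the diagonal sum. -/

namespace Pool.Agent.W182.KO

open Complex Filter Topology MeasureTheory Set

noncomputable section

/-- number of ordered factorisations of `n` into `k` factors -/
def dk (k n : ℕ) : ℕ := (Nat.finMulAntidiag k n).card

lemma tau_dk (k n : ℕ) : tau (fun _ : Fin k => (0:ℂ)) n = dk k n := by
  simp [tau, dk]

lemma dk_succ (k n : ℕ) : (dk (k + 1) n : ℝ) = ∑ p ∈ n.divisorsAntidiagonal, (dk k p.2 : ℝ) := by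
  have h := antidiag_succ (k := k) (fun _ _ => (1:ℂ)) n
  simp only [Finset.prod_const_one, Finset.sum_const, nsmul_eq_mul, mul_one, one_mul] at h
  unfold dk
  exact_mod_cast h

lemma dk_eq (k : ℕ) : ∀ n : ℕ, (dk k n : ℝ) = H306R2.dv k n := by
  have h1 : ∀ n, H306R2.dv (k:ℝ) n = (H306R2.zR ^ k) n := by
    intro n
    rw [← H306R2.dA_apply, H306R2.dA_nat]
  simp only [h1]
  clear h1
  induction k with
  | zero =>
      intro n
      rw [pow_zero, ArithmeticFunction.one_apply]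
      unfold dk
      split_ifs with h
      · subst h; rw [Nat.finMulAntidiag_one]; simp
      · rw [Nat.finMulAntidiag_zero_left h]; simp
  | succ k ih =>
      intro n
      rw [dk_succ, pow_succ', ArithmeticFunction.mul_apply]
      refine Finset.sum_congr rfl fun p hp => ?_
      rw [ih]
      have h0 : p.1 ≠ 0 := by
        have := Nat.mem_divisorsAntidiagonal.1 hp
        intro h
        rw [h, zero_mul] at this
        exact this.2 this.1.symm
      unfold H306R2.zR
      simp [h0]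

lemma diag_real {k : ℕ} (hk : 1 ≤ k) (φ : ℝ → ℝ) (hφ : Continuous φ) (M : ℝ) (hM : 0 ≤ M)
    (h0 : ∀ u, M ≤ u → φ u = 0) :
    Tendsto (fun L : ℝ => (∑' n : ℕ, (dk k n : ℝ) * dk k n / n * φ (Real.log n / L)) / L ^ (((k:ℕ):ℝ) ^ 2))
      atTop (𝓝 (H306R2.aF k * ∫ u : ℝ, H306R2.gd ((k:ℝ) * k) u * φ u)) := by
  have hk0 : (0:ℝ) < k := by exact_mod_cast hk
  have he : ∀ i : Fin 1, (0:ℝ) < (fun _ : Fin 1 => (k:ℝ)) i := fun _ => hk0
  have H := H306R2.wt_KH (fun _ : Fin 1 => (k:ℝ)) he one_pos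
  have hs : (∑ i : Fin 1, (fun _ : Fin 1 => (k:ℝ)) i) = k := by simp
  rw [hs] at H
  have hl := H306R2.wt_tendsto (fun _ : Fin 1 => (k:ℝ)) he one_pos
  rw [hs] at hl
  have hm : ∀ i : Fin 1, (0:ℝ) < (fun _ : Fin 1 => (k:ℝ) * k) i := fun _ => by positivity
  have := H306R2.karamata H (((k:ℕ):ℝ) ^ 2) (H306R2.aF k) (H306R2.aF_pos hk0).le
    (fun _ : Fin 1 => (k:ℝ) * k) hm hl (fun u => φ (u 0)) (hφ.comp (continuous_apply 0)) M
    (fun u _ h => by
      obtain ⟨i, hi⟩ := h
      have : i = 0 := Subsingleton.elim _ _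
      subst this
      exact h0 _ hi) hM
  convert this using 2
  · congr 1
    rw [← (Equiv.funUnique (Fin 1) ℕ).tsum_eq]
    refine tsum_congr fun b => ?_
    simp only [Equiv.funUnique_apply, Fin.default_eq_zero]
    unfold H306R2.wt H306R2.pos
    simp only [Finset.univ_unique, Fin.default_eq_zero, Finset.prod_singleton]
    rw [dk_eq]
    ring
  · congr 1
    rw [← (volume_preserving_funUnique (Fin 1) ℝ).integral_comp']
    congr 1
    funext u
    unfold H306R2.Gd
    simp [MeasurableEquiv.funUnique]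

lemma gd_int {k : ℕ} (hk : 1 ≤ k) (φ : ℝ → ℝ) :
    ∫ u : ℝ, H306R2.gd ((k:ℝ) * k) u * φ u =
      ∫ u in Ioi (0:ℝ), u ^ (k ^ 2 - 1) / (k ^ 2 - 1).factorial * φ u := by
  rw [H306R2.gd_eq_indicator, integral_indicator measurableSet_Ioi]
  refine setIntegral_congr_fun measurableSet_Ioi fun u hu => ?_
  have h1 : 1 ≤ k ^ 2 := Nat.one_le_pow _ _ hk
  have h2 : (k:ℝ) * k = ((k ^ 2 - 1 : ℕ) : ℝ) + 1 := by
    rw [Nat.cast_sub h1]; push_cast; ring
  rw [h2, Real.Gamma_nat_eq_factorial, add_sub_cancel_right, Real.rpow_natCast]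

lemma diag_summable {k : ℕ} {ψ : ℝ → ℂ} {M : ℝ} (h0 : ∀ u, M ≤ u → ψ u = 0) {L : ℝ} (hL : 0 < L) :
    Summable (fun n : ℕ => (dk k n : ℂ) * dk k n / n * ψ (2 * Real.log n / L)) := by
  refine summable_of_hasFiniteSupport ?_
  refine (Set.finite_Iic ⌈Real.exp (M * L / 2)⌉₊).subset fun n hn => ?_
  rw [Function.mem_support] at hn
  rw [Set.mem_Iic]
  by_contra h
  push Not at h
  refine hn ?_
  rw [h0, mul_zero]
  have h2 : Real.exp (M * L / 2) ≤ n := (Nat.le_ceil _).trans (by exact_mod_cast h.le)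
  have h3 := Real.log_le_log (Real.exp_pos _) h2
  rw [Real.log_exp] at h3
  rw [le_div_iff₀ hL]
  linarith

theorem diag_limit {k : ℕ} (hk : 1 ≤ k) (ψ : ℝ → ℂ) (hφ : Continuous ψ) (M : ℝ) (hM : 0 ≤ M)
    (h0 : ∀ u, M ≤ u → ψ u = 0) :
    Tendsto (fun L : ℝ => (∑' n : ℕ, (dk k n : ℂ) * dk k n / n * ψ (2 * Real.log n / L)) /
        (L : ℂ) ^ (k ^ 2))
      atTop (𝓝 ((H306R2.aF k : ℂ) * ∫ u in Ioi (0:ℝ),
        (u : ℂ) ^ (k ^ 2 - 1) / (k ^ 2 - 1).factorial * ψ (2 * u))) := by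
  have h1 := diag_real hk (fun u => (ψ (2 * u)).re) (by fun_prop) M hM (fun u hu => by
    rw [h0 (2 * u) (by linarith)]; simp)
  have h2 := diag_real hk (fun u => (ψ (2 * u)).im) (by fun_prop) M hM (fun u hu => by
    rw [h0 (2 * u) (by linarith)]; simp)
  rw [gd_int hk] at h1 h2
  have h3 := ((Complex.continuous_ofReal.tendsto _).comp h1).add
    (((Complex.continuous_ofReal.tendsto _).comp h2).mul_const I)
  refine (h3.congr' ?_).trans (le_of_eq ?_)
  · filter_upwards [eventually_gt_atTop 0] with L hL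
    have hs := diag_summable (k := k) h0 hL
    have e1 : ∀ n : ℕ, ((dk k n : ℂ) * dk k n / n * ψ (2 * Real.log n / L)).re =
        (dk k n : ℝ) * dk k n / n * (ψ (2 * (Real.log n / L))).re := by
      intro n
      have : ((dk k n : ℂ) * dk k n / n) = (((dk k n : ℝ) * dk k n / n : ℝ) : ℂ) := by push_cast; rfl
      rw [this, Complex.re_ofReal_mul, mul_div_assoc 2]
    have e2 : ∀ n : ℕ, ((dk k n : ℂ) * dk k n / n * ψ (2 * Real.log n / L)).im =
        (dk k n : ℝ) * dk k n / n * (ψ (2 * (Real.log n / L))).im := by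
      intro n
      have : ((dk k n : ℂ) * dk k n / n) = (((dk k n : ℝ) * dk k n / n : ℝ) : ℂ) := by push_cast; rfl
      rw [this, Complex.im_ofReal_mul, mul_div_assoc 2]
    have e3 := Complex.re_tsum hs
    have e4 := Complex.im_tsum hs
    simp only [e1] at e3
    simp only [e2] at e4
    simp only [Function.comp]
    rw [← e3, ← e4]
    have e5 : L ^ ((k:ℝ) ^ 2) = L ^ (k ^ 2) := by
      rw [← Real.rpow_natCast L (k ^ 2)]; push_cast; rfl
    rw [e5]
    push_cast
    rw [div_mul_eq_mul_div, ← add_div, Complex.re_add_im]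
  · have hi : Integrable (fun u : ℝ => (u : ℂ) ^ (k ^ 2 - 1) / (k ^ 2 - 1).factorial * ψ (2 * u))
        (volume.restrict (Ioi 0)) := by
      have : IntegrableOn (fun u : ℝ => (u : ℂ) ^ (k ^ 2 - 1) / (k ^ 2 - 1).factorial * ψ (2 * u))
          (Ioc 0 M) := by
        refine (Continuous.integrableOn_Icc ?_).mono_set Ioc_subset_Icc_self
        fun_prop
      refine IntegrableOn.of_forall_diff_eq_zero this measurableSet_Ioi ?_
      intro u hu
      simp only [mem_diff, mem_Ioi, mem_Ioc, not_and, not_le] at hu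
      rw [h0 (2 * u) (by linarith [hu.2 hu.1, hu.1]), mul_zero]
    have e1 : ∫ u in Ioi (0:ℝ), u ^ (k ^ 2 - 1) / (k ^ 2 - 1).factorial * (ψ (2 * u)).re =
        (∫ u in Ioi (0:ℝ), (u : ℂ) ^ (k ^ 2 - 1) / (k ^ 2 - 1).factorial * ψ (2 * u)).re := by
      have := integral_re hi
      simp only [RCLike.re_eq_complex_re] at this
      rw [← this]
      refine integral_congr_ae (Eventually.of_forall fun u => ?_)
      simp only
      have e6 : (u : ℂ) ^ (k ^ 2 - 1) / (k ^ 2 - 1).factorial =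
          ((u ^ (k ^ 2 - 1) / (k ^ 2 - 1).factorial : ℝ) : ℂ) := by push_cast; rfl
      rw [e6, Complex.re_ofReal_mul]
    have e2 : ∫ u in Ioi (0:ℝ), u ^ (k ^ 2 - 1) / (k ^ 2 - 1).factorial * (ψ (2 * u)).im =
        (∫ u in Ioi (0:ℝ), (u : ℂ) ^ (k ^ 2 - 1) / (k ^ 2 - 1).factorial * ψ (2 * u)).im := by
      have := integral_im hi
      simp only [RCLike.im_eq_complex_im] at this
      rw [← this]
      refine integral_congr_ae (Eventually.of_forall fun u => ?_)
      simp only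
      have e6 : (u : ℂ) ^ (k ^ 2 - 1) / (k ^ 2 - 1).factorial =
          ((u ^ (k ^ 2 - 1) / (k ^ 2 - 1).factorial : ℝ) : ℂ) := by push_cast; rfl
      rw [e6, Complex.im_ofReal_mul]
    rw [e1, e2]
    congr 1
    push_cast
    rw [mul_assoc, ← mul_add, Complex.re_add_im]

end

end Pool.Agent.W182.KO
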