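import Pool.Agent.W182.KO.Diag
import Pool.Agent.W182.KO.Up4

set_option autoImplicit false

/-! The asymptotics of the diagonal sum at the upper edge. -/

namespace Pool.Agent.W182.KO

open Complex Filter Topology MeasureTheory Set
open scoped ContDiff

noncomputable section

/-- cut-off -/
def ph (η u : ℝ) : ℝ := max 0 (min 1 (η / 2 + 1 - u))

lemma ph_cont (η : ℝ) : Continuous (ph η) := by unfold ph; fun_prop

lemma ph_nonneg (η u : ℝ) : 0 ≤ ph η u := le_max_left _ _

lemma ph_one {η u : ℝ} (h : 2 * u ≤ η) : ph η u = 1 := by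
  unfold ph
  rw [min_eq_left (by linarith), max_eq_right zero_le_one]

lemma ph_zero {η u : ℝ} (h : η / 2 + 1 ≤ u) : ph η u = 0 := by
  unfold ph
  rw [max_eq_left]
  exact (min_le_right _ _).trans (by linarith)

lemma fin_supp {f : ℕ → ℂ} {M L : ℝ} (hL : 0 < L) (h0 : ∀ n : ℕ, M < 2 * Real.log n / L → f n = 0) :
    Summable f := by
  refine summable_of_hasFiniteSupport ?_
  refine (Set.finite_Iic ⌈Real.exp (M * L / 2)⌉₊).subset fun n hn => ?_
  rw [Function.mem_support] at hn
  rw [Set.mem_Iic]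
  by_contra h
  push Not at h
  refine hn (h0 n ?_)
  have h2 : Real.exp (M * L / 2) < n := (Nat.le_ceil _).trans_lt (by exact_mod_cast h)
  have h3 := Real.log_lt_log (Real.exp_pos _) h2
  rw [Real.log_exp] at h3
  rw [lt_div_iff₀ hL]
  linarith

lemma ph_summable {k : ℕ} {η L : ℝ} (hL : 0 < L) :
    Summable (fun n : ℕ => (dk k n : ℝ) * dk k n / n * ph η (Real.log n / L)) := by
  have := fin_supp (f := fun n : ℕ => (((dk k n : ℝ) * dk k n / n * ph η (Real.log n / L) : ℝ) : ℂ))
    (M := η + 2) hL (fun n hn => by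
      have h1 : η / 2 + 1 ≤ Real.log n / L := by
        have : 2 * Real.log n / L = 2 * (Real.log n / L) := by ring
        rw [this] at hn
        linarith
      rw [ph_zero h1]; simp)
  exact_mod_cast this

lemma lip {ξ1 : ℝ} {ψ : ℝ → ℂ} (h : TF ξ1 ψ) : ∃ C : ℝ, 0 ≤ C ∧ ∀ x y, ‖ψ x - ψ y‖ ≤ C * |x - y| := by
  obtain ⟨C, hC, hb⟩ := h.deriv.bdd
  refine ⟨C, hC, fun x y => ?_⟩
  have := Convex.norm_image_sub_le_of_norm_deriv_le (f := ψ) (s := univ) (x := y) (y := x) (C := C)
    (fun z _ => h.diff z) (fun z _ => hb z) convex_univ (mem_univ _) (mem_univ _)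
  rwa [Real.norm_eq_abs] at this

lemma one_term {ψ : ℝ → ℂ} {ξ0 : ℝ} (hcd : ContDiff ℝ ∞ ψ) (hcs : HasCompactSupport ψ)
    (h0 : ∀ ξ, ξ < ξ0 → ψ ξ = 0) (k : ℕ) :
    ∃ C : ℝ, 0 ≤ C ∧ ∀ T m : ℝ, Real.exp 1 ≤ T →
      ‖(T : ℂ)⁻¹ * (∫ t in (1:ℝ)..T, ψ (2 * k * Real.log (t / (2 * Real.pi)) / Real.log T - m)) -
        ψ (2 * k - m)‖ ≤ C / Real.log T * (if m ≤ 2 * k - ξ0 then 1 else 0) := by
  obtain ⟨X, hX0, hX⟩ := exists_TF hcd hcs
  obtain ⟨C0, hC0, hb⟩ := hX.bdd
  obtain ⟨C1, hC1, hl⟩ := lip hX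
  refine ⟨C1 * (2 * k) * 3 + C0, by positivity, fun T m hT => ?_⟩
  have hT0 : 0 < T := (Real.exp_pos 1).trans_le hT
  have hT1 : 1 ≤ T := by have := Real.add_one_le_exp 1; linarith
  have hL : 1 ≤ Real.log T := by rwa [Real.le_log_iff_exp_le hT0]
  have hTc : (T : ℂ) ≠ 0 := by exact_mod_cast hT0.ne'
  set L := Real.log T with hLd
  have hL0 : 0 < L := by linarith
  split_ifs with hm
  · have hLT : L ≤ T := by
      have := Real.log_le_sub_one_of_pos hT0
      linarith
    have hlogc : ContinuousOn (fun t : ℝ => Real.log (t / (2 * Real.pi))) (Icc 1 T) := by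
      refine ContinuousOn.log (by fun_prop) fun t ht => ?_
      have := ht.1
      positivity
    have hci : ContinuousOn (fun t : ℝ => ψ (2 * k * Real.log (t / (2 * Real.pi)) / L - m))
        (Icc 1 T) := by
      refine hX.cont.comp_continuousOn ?_
      fun_prop
    have e1 : (T : ℂ)⁻¹ * (∫ t in (1:ℝ)..T, ψ (2 * k * Real.log (t / (2 * Real.pi)) / L - m)) -
        ψ (2 * k - m) = (T : ℂ)⁻¹ * ((∫ t in (1:ℝ)..T,
          (ψ (2 * k * Real.log (t / (2 * Real.pi)) / L - m) - ψ (2 * k - m))) - ψ (2 * k - m)) := by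
      rw [intervalIntegral.integral_sub]
      · rw [intervalIntegral.integral_const, Complex.real_smul]
        push_cast
        field_simp
        ring
      · exact ContinuousOn.intervalIntegrable (by rw [uIcc_of_le hT1]; exact hci)
      · exact intervalIntegrable_const
    rw [e1, norm_mul, norm_inv, Complex.norm_real, Real.norm_of_nonneg hT0.le]
    have hint : IntervalIntegrable (fun t : ℝ => C1 * (2 * k / L * (Real.log T - Real.log t + 2)))
        volume 1 T := by
      refine ContinuousOn.intervalIntegrable ?_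
      rw [uIcc_of_le hT1]
      have : ContinuousOn Real.log (Icc 1 T) := Real.continuousOn_log.mono fun t ht => by
        simp only [mem_compl_iff, mem_singleton_iff]
        linarith [ht.1]
      fun_prop
    have h2 : ‖∫ t in (1:ℝ)..T, (ψ (2 * k * Real.log (t / (2 * Real.pi)) / L - m) - ψ (2 * k - m))‖ ≤
        C1 * (2 * k / L * (3 * T)) := by
      refine (intervalIntegral.norm_integral_le_of_norm_le hT1 (Eventually.of_forall fun t ht => ?_)
        hint).trans ?_
      · have ht1 : 1 ≤ t := ht.1.le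
        have ht0 : 0 < t := by linarith
        refine (hl _ _).trans ?_
        refine mul_le_mul_of_nonneg_left ?_ hC1
        have e2 : 2 * k * Real.log (t / (2 * Real.pi)) / L - m - (2 * k - m) =
            -(2 * k / L * (L - Real.log (t / (2 * Real.pi)))) := by
          field_simp
          ring
        have h3 : Real.log (t / (2 * Real.pi)) ≤ L := log_t_le ht1 ht.2
        rw [e2, abs_neg, abs_of_nonneg (mul_nonneg (by positivity) (by linarith))]
        refine mul_le_mul_of_nonneg_left ?_ (by positivity)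
        rw [Real.log_div ht0.ne' (by positivity), hLd]
        have h4 : Real.log (2 * Real.pi) ≤ 2 := by
          rw [Real.log_le_iff_le_exp (by positivity)]
          have h5 : (2.7:ℝ) ≤ Real.exp 1 := by have := Real.exp_one_gt_d9; linarith
          have h6 : Real.exp 2 = Real.exp 1 * Real.exp 1 := by rw [← Real.exp_add]; norm_num
          have := Real.pi_lt_d2
          rw [h6]
          nlinarith
        linarith
      · rw [intervalIntegral.integral_const_mul, intervalIntegral.integral_const_mul]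
        refine mul_le_mul_of_nonneg_left (mul_le_mul_of_nonneg_left ?_ (by positivity)) hC1
        have e3 : ∫ t in (1:ℝ)..T, (Real.log T - Real.log t + 2) =
            (T - 1) * (Real.log T + 2) - (T * Real.log T - T + 1) := by
          have e4 : ∀ t : ℝ, Real.log T - Real.log t + 2 = (Real.log T + 2) - Real.log t := fun t => by
            ring
          simp only [e4]
          rw [intervalIntegral.integral_sub intervalIntegrable_const
            (by exact intervalIntegral.intervalIntegrable_log (by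
              rw [uIcc_of_le hT1]
              intro h
              linarith [h.1])), intervalIntegral.integral_const, integral_log, smul_eq_mul]
          simp
        rw [e3, ← hLd]
        nlinarith
    have h3 : ‖ψ (2 * k - m)‖ ≤ C0 * (T / L) := by
      refine (hb _).trans (le_mul_of_one_le_right hC0 ?_)
      rwa [one_le_div hL0]
    calc T⁻¹ * ‖(∫ t in (1:ℝ)..T,
          (ψ (2 * k * Real.log (t / (2 * Real.pi)) / L - m) - ψ (2 * k - m))) - ψ (2 * k - m)‖ ≤
          T⁻¹ * (C1 * (2 * k / L * (3 * T)) + C0 * (T / L)) := by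
          gcongr
          exact (norm_sub_le _ _).trans (add_le_add h2 h3)
      _ = _ := by field_simp
  · push Not at hm
    have e1 : ψ (2 * k - m) = 0 := h0 _ (by linarith)
    have e2 : ∫ t in (1:ℝ)..T, ψ (2 * k * Real.log (t / (2 * Real.pi)) / L - m) =
        ∫ t in (1:ℝ)..T, 0 := by
      refine intervalIntegral.integral_congr fun t ht => ?_
      rw [uIcc_of_le hT1] at ht
      refine h0 _ ?_
      have h3 : Real.log (t / (2 * Real.pi)) ≤ L := log_t_le ht.1 ht.2
      have h4 : 2 * (k:ℝ) * Real.log (t / (2 * Real.pi)) / L ≤ 2 * k := by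
        rw [div_le_iff₀ hL0]
        gcongr
      linarith
    rw [e1, e2]
    simp

theorem diag2_limit {ψ : ℝ → ℂ} {ξ0 : ℝ} (hcd : ContDiff ℝ ∞ ψ) (hcs : HasCompactSupport ψ)
    (h0 : ∀ ξ, ξ < ξ0 → ψ ξ = 0) {k : ℕ} (hk : 1 ≤ k) (hξ : ξ0 ≤ 2 * k) :
    Tendsto (fun T : ℝ => (∑' n : ℕ, (dk k n : ℂ) * dk k n / n * ((T : ℂ)⁻¹ *
        ∫ t in (1:ℝ)..T, ψ (2 * k * Real.log (t / (2 * Real.pi)) / Real.log T -
          2 * Real.log n / Real.log T))) / (Real.log T : ℂ) ^ (k ^ 2))
      atTop (𝓝 ((H306R2.aF k : ℂ) * ∫ u in Ioi (0:ℝ),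
        (u : ℂ) ^ (k ^ 2 - 1) / (k ^ 2 - 1).factorial * ψ (2 * k - 2 * u))) := by
  obtain ⟨C, hC, hone⟩ := one_term hcd hcs h0 k
  set η : ℝ := 2 * k - ξ0 with hη
  have hη0 : 0 ≤ η := by rw [hη]; linarith
  have hcont : Continuous ψ := hcd.continuous
  have h1 := (diag_limit hk (fun x => ψ (2 * k - x)) (by fun_prop) (η + 1) (by linarith)
    (fun u hu => h0 _ (by linarith))).comp Real.tendsto_log_atTop
  have h2 := (diag_real hk (ph η) (ph_cont η) (η / 2 + 1) (by linarith) (fun u hu => ph_zero hu)).comp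
    Real.tendsto_log_atTop
  have h3 : Tendsto (fun T : ℝ => C / Real.log T) atTop (𝓝 0) :=
    tendsto_const_nhds.div_atTop Real.tendsto_log_atTop
  have h4 := h3.mul h2
  rw [zero_mul] at h4
  have h5 : Tendsto (fun T : ℝ => (∑' n : ℕ, (dk k n : ℂ) * dk k n / n * ((T : ℂ)⁻¹ *
        ∫ t in (1:ℝ)..T, ψ (2 * k * Real.log (t / (2 * Real.pi)) / Real.log T -
          2 * Real.log n / Real.log T))) / (Real.log T : ℂ) ^ (k ^ 2) -
      (∑' n : ℕ, (dk k n : ℂ) * dk k n / n * ψ (2 * k - 2 * Real.log n / Real.log T)) /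
        (Real.log T : ℂ) ^ (k ^ 2)) atTop (𝓝 0) := by
    rw [tendsto_zero_iff_norm_tendsto_zero]
    refine squeeze_zero' (Eventually.of_forall fun _ => norm_nonneg _) ?_ h4
    filter_upwards [eventually_ge_atTop (Real.exp 1)] with T hT
    have hT0 : 0 < T := (Real.exp_pos 1).trans_le hT
    have hL : 1 ≤ Real.log T := by rwa [Real.le_log_iff_exp_le hT0]
    set L := Real.log T with hLd
    have hL0 : 0 < L := by linarith
    have hterm : ∀ n : ℕ, ‖(dk k n : ℂ) * dk k n / n * ((T : ℂ)⁻¹ *
        ∫ t in (1:ℝ)..T, ψ (2 * k * Real.log (t / (2 * Real.pi)) / L - 2 * Real.log n / L)) -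
        (dk k n : ℂ) * dk k n / n * ψ (2 * k - 2 * Real.log n / L)‖ ≤
        C / L * ((dk k n : ℝ) * dk k n / n * ph η (Real.log n / L)) := by
      intro n
      rw [← mul_sub, norm_mul]
      have e1 : ‖((dk k n : ℂ) * dk k n / n)‖ = (dk k n : ℝ) * dk k n / n := by
        have : ((dk k n : ℂ) * dk k n / n) = (((dk k n : ℝ) * dk k n / n : ℝ) : ℂ) := by push_cast; rfl
        rw [this, Complex.norm_real, Real.norm_of_nonneg (by positivity)]
      rw [e1]
      have h6 := hone T (2 * Real.log n / L) hT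
      rw [← hLd] at h6
      have h7 : (if 2 * Real.log n / L ≤ 2 * k - ξ0 then (1:ℝ) else 0) ≤ ph η (Real.log n / L) := by
        split_ifs with hc
        · rw [ph_one]
          rw [← mul_div_assoc]; exact hc
        · exact ph_nonneg _ _
      have h8 : C / L * (if 2 * Real.log n / L ≤ 2 * k - ξ0 then (1:ℝ) else 0) ≤
          C / L * ph η (Real.log n / L) := mul_le_mul_of_nonneg_left h7 (by positivity)
      calc _ ≤ (dk k n : ℝ) * dk k n / n * (C / L * ph η (Real.log n / L)) :=
            mul_le_mul_of_nonneg_left (h6.trans h8) (by positivity)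
        _ = _ := by ring
    have s1 : Summable (fun n : ℕ => (dk k n : ℂ) * dk k n / n * ψ (2 * k - 2 * Real.log n / L)) :=
      fin_supp (M := η) hL0 fun n hn => by
        rw [h0 _ (by linarith), mul_zero]
    have s2 : Summable (fun n : ℕ => (dk k n : ℂ) * dk k n / n * ((T : ℂ)⁻¹ *
        ∫ t in (1:ℝ)..T, ψ (2 * k * Real.log (t / (2 * Real.pi)) / L - 2 * Real.log n / L))) := by
      refine fin_supp (M := η) hL0 fun n hn => ?_
      have h6 := hone T (2 * Real.log n / L) hT
      rw [← hLd, if_neg (by push Not; exact hn), mul_zero, h0 (2 * k - 2 * Real.log n / L) (by linarith),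
        sub_zero] at h6
      rw [norm_le_zero_iff.1 h6, mul_zero]
    rw [← sub_div, ← s2.tsum_sub s1, norm_div, norm_pow, Complex.norm_real, Real.norm_of_nonneg hL0.le]
    have h9 := tsum_of_norm_bounded ((ph_summable (k := k) (η := η) hL0).mul_left (C / L)).hasSum hterm
    rw [tsum_mul_left] at h9
    simp only [Function.comp]
    rw [← hLd]
    have e5 : L ^ ((k:ℝ) ^ 2) = L ^ (k ^ 2) := by
      rw [← Real.rpow_natCast L (k ^ 2)]; push_cast; rfl
    rw [e5, ← mul_div_assoc]
    gcongr
  have h6 := h5.add h1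
  rw [zero_add] at h6
  refine h6.congr fun T => ?_
  simp only [Function.comp]
  ring

end

end Pool.Agent.W182.KO
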