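import Pool.Agent.W182.KO.Main
import Pool.Agent.W182.KO.Diag

set_option autoImplicit false

/-! The band-limited form of the shifted moment limit. -/

namespace Pool.Agent.W182.KO

open Complex Filter Topology MeasureTheory Set
open scoped ContDiff

noncomputable section

/-- the normalised shifted moment -/
def Qk (k : ℕ) (α T : ℝ) : ℂ :=
  (T : ℂ)⁻¹ * ((Real.log T : ℂ) ^ (k ^ 2))⁻¹ *
    ∫ t in (0:ℝ)..T, riemannZeta (1 / 2 + I * α / Real.log T + I * t) ^ k *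
      riemannZeta (1 / 2 + I * α / Real.log T - I * t) ^ k

lemma ZP_zero (k : ℕ) (s : ℂ) : ZP (fun _ : Fin k => (0:ℝ)) s = riemannZeta s ^ k := by
  simp [ZP]

lemma tau_neg_zero (k n : ℕ) : tau (fun _ : Fin k => -(((0:ℝ):ℂ) * I)) n = dk k n := by
  rw [← tau_dk]
  simp

lemma Qk_scale (k : ℕ) {T : ℝ} (hT : Real.log T ≠ 0) (y : ℝ) :
    Qk k (Real.log T * y) T = (T : ℂ)⁻¹ * ((Real.log T : ℂ) ^ (k ^ 2))⁻¹ *
    ∫ t in (0:ℝ)..T, ZP (fun _ : Fin k => (0:ℝ)) (1 / 2 + (y + t : ℝ) * I) *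
      ZP (fun _ : Fin k => (0:ℝ)) (1 / 2 + (y - t : ℝ) * I) := by
  unfold Qk
  congr 1
  refine intervalIntegral.integral_congr fun t _ => ?_
  simp only [ZP_zero]
  have hT' : (Real.log T : ℂ) ≠ 0 := by exact_mod_cast hT
  have e1 : (1 / 2 + I * (Real.log T * y : ℝ) / Real.log T + I * t : ℂ) = 1 / 2 + (y + t : ℝ) * I := by
    push_cast
    field_simp
    ring
  have e2 : (1 / 2 + I * (Real.log T * y : ℝ) / Real.log T - I * t : ℂ) = 1 / 2 + (y - t : ℝ) * I := by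
    push_cast
    field_simp
    ring
  rw [e1, e2]

theorem band {ξ1 : ℝ} {ψ : ℝ → ℂ} (h : TF ξ1 ψ) (hξ : 0 ≤ ξ1) {θ : ℝ} (hθ0 : ξ1 / 2 < θ)
    (hθ : 1 / 2 ≤ θ) (hθ1 : θ ≤ 1) {k : ℕ} (hk : 1 ≤ k) :
    ∃ C T1 : ℝ, 0 ≤ C ∧ Real.exp 1 ≤ T1 ∧ ∀ T : ℝ, T1 ≤ T →
      ‖(∫ α : ℝ, P ψ (α * I) * Qk k α T) -
        2 * Real.pi * ((∑' n : ℕ, (dk k n : ℂ) * dk k n / n * ψ (2 * Real.log n / Real.log T)) /
          (Real.log T : ℂ) ^ (k ^ 2))‖ ≤ C * T ^ (θ - 1) := by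
  obtain ⟨C, T1, hC, hT1, hc⟩ := shifted h hξ hθ0 hθ hθ1 (fun _ : Fin k => (0:ℝ)) (fun _ : Fin k => (0:ℝ))
  refine ⟨C, max T1 (Real.exp 1), hC, le_max_right _ _, fun T hT => ?_⟩
  have h3 := hc T ((le_max_left _ _).trans hT)
  have hT0 : 1 ≤ T := hT1.trans ((le_max_left _ _).trans hT)
  have hL : 1 ≤ Real.log T := by
    rw [Real.le_log_iff_exp_le (by linarith)]
    exact (le_max_right _ _).trans hT
  set L := Real.log T with hLd
  have hL0 : 0 < L := by linarith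
  have hLc : (L : ℂ) ≠ 0 := by exact_mod_cast hL0.ne'
  have hTc : (T : ℂ) ≠ 0 := by
    have : T ≠ 0 := by linarith
    exact_mod_cast this
  simp only [tau_neg_zero] at h3
  have e1 : (∫ α : ℝ, P ψ (α * I) * Qk k α T) = (T : ℂ)⁻¹ * ((L : ℂ) ^ (k ^ 2))⁻¹ * L *
      ∫ y : ℝ, P ψ (L * y * I) * (∫ t in (0:ℝ)..T,
        ZP (fun _ : Fin k => (0:ℝ)) (1 / 2 + (y + t : ℝ) * I) *
          ZP (fun _ : Fin k => (0:ℝ)) (1 / 2 + (y - t : ℝ) * I)) := by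
    have h4 := Measure.integral_comp_mul_left (fun α : ℝ => P ψ (α * I) * Qk k α T) L
    rw [← integral_const_mul]
    have h5 : ∫ α : ℝ, P ψ (α * I) * Qk k α T = (L : ℂ) * ∫ y : ℝ, P ψ ((L * y : ℝ) * I) * Qk k (L * y) T := by
      rw [h4, abs_of_pos (by positivity)]
      rw [Complex.real_smul, ← mul_assoc, ← Complex.ofReal_mul, mul_inv_cancel₀ hL0.ne',
        Complex.ofReal_one, one_mul]
    rw [h5, ← integral_const_mul]
    refine integral_congr_ae (Eventually.of_forall fun y => ?_)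
    simp only
    rw [Qk_scale k (by rw [← hLd]; exact hL0.ne') y, ← hLd]
    push_cast
    ring
  rw [e1]
  set J := ∫ y : ℝ, P ψ (L * y * I) * (∫ t in (0:ℝ)..T,
        ZP (fun _ : Fin k => (0:ℝ)) (1 / 2 + (y + t : ℝ) * I) *
          ZP (fun _ : Fin k => (0:ℝ)) (1 / 2 + (y - t : ℝ) * I)) with hJ
  set S := ∑' n : ℕ, (dk k n : ℂ) * dk k n / n * ψ (2 * Real.log n / L) with hS
  have e2 : (T : ℂ)⁻¹ * ((L : ℂ) ^ (k ^ 2))⁻¹ * L * J - 2 * Real.pi * (S / (L : ℂ) ^ (k ^ 2)) =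
      (T : ℂ)⁻¹ * ((L : ℂ) ^ (k ^ 2))⁻¹ * L * (J - (T : ℂ) * (((2 * Real.pi / L : ℝ) : ℂ) * S)) := by
    push_cast
    field_simp
  rw [e2, norm_mul, norm_mul, norm_mul, norm_inv, norm_inv, norm_pow, Complex.norm_real,
    Complex.norm_real, Real.norm_of_nonneg (by linarith : 0 ≤ T), Real.norm_of_nonneg hL0.le]
  have h6 : (L ^ (k ^ 2))⁻¹ * L ≤ 1 := by
    rw [inv_mul_le_iff₀ (by positivity), mul_one]
    exact le_self_pow₀ hL (by positivity)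
  calc _ = T⁻¹ * ((L ^ (k ^ 2))⁻¹ * L) * ‖J - (T : ℂ) * (((2 * Real.pi / L : ℝ) : ℂ) * S)‖ := by ring
    _ ≤ T⁻¹ * 1 * (C * T ^ θ) := by gcongr
    _ = C * T ^ (θ - 1) := by
      rw [Real.rpow_sub (by linarith), Real.rpow_one]
      field_simp

theorem band_limit {ξ1 : ℝ} {ψ : ℝ → ℂ} (h : TF ξ1 ψ) (hξ2 : ξ1 < 2) {k : ℕ} (hk : 1 ≤ k) :
    Tendsto (fun T : ℝ => ∫ α : ℝ, P ψ (α * I) * Qk k α T) atTop
      (𝓝 (2 * Real.pi * ((H306R2.aF k : ℂ) * ∫ u in Ioi (0:ℝ),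
        (u : ℂ) ^ (k ^ 2 - 1) / (k ^ 2 - 1).factorial * ψ (2 * u)))) := by
  have h' : TF (max ξ1 0) ψ := ⟨h.cd, h.cs, fun ξ hξ => h.sp ξ ((le_max_left _ _).trans_lt hξ)⟩
  obtain ⟨θ, hθa, hθb⟩ : ∃ θ : ℝ, max ((max ξ1 0) / 2) (1 / 2) < θ ∧ θ < 1 := by
    apply exists_between
    rcases le_total ξ1 0 with h0 | h0
    · rw [max_eq_right h0]; norm_num
    · rw [max_eq_left h0, max_lt_iff]; constructor <;> linarith
  have h1 := (max_lt_iff.1 hθa).1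
  have h2 := (max_lt_iff.1 hθa).2
  obtain ⟨C, T1, hC, hT1, hc⟩ := band h' (le_max_right _ _) h1 h2.le hθb.le hk
  have h3 := (diag_limit hk ψ h.cont (max ξ1 0 + 1) (by positivity) (fun u hu => h.sp u (by
    have := le_max_left ξ1 0
    linarith))).comp Real.tendsto_log_atTop
  have h4 := h3.const_mul (2 * Real.pi : ℂ)
  have h5 : Tendsto (fun T : ℝ => (∫ α : ℝ, P ψ (α * I) * Qk k α T) -
        2 * Real.pi * ((∑' n : ℕ, (dk k n : ℂ) * dk k n / n * ψ (2 * Real.log n / Real.log T)) /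
          (Real.log T : ℂ) ^ (k ^ 2))) atTop (𝓝 0) := by
    rw [tendsto_zero_iff_norm_tendsto_zero]
    have h6 : Tendsto (fun T : ℝ => C * T ^ (θ - 1)) atTop (𝓝 0) := by
      have := (tendsto_rpow_neg_atTop (by linarith : 0 < 1 - θ)).const_mul C
      rw [mul_zero] at this
      refine this.congr fun T => ?_
      rw [neg_sub]
    refine squeeze_zero' (Eventually.of_forall fun _ => norm_nonneg _) ?_ h6
    filter_upwards [eventually_ge_atTop T1] with T hT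
    exact hc T hT
  have h7 := h5.add h4
  rw [zero_add] at h7
  refine h7.congr fun T => ?_
  simp only [Function.comp]
  ring

theorem Qk_integrable {ξ1 : ℝ} {ψ : ℝ → ℂ} (h : TF ξ1 ψ) (k : ℕ) {T : ℝ} (hT : Real.exp 1 ≤ T) :
    Integrable (fun α : ℝ => P ψ (α * I) * Qk k α T) := by
  have hT0 : 0 < T := (Real.exp_pos 1).trans_le hT
  have hL : 1 ≤ Real.log T := by rwa [Real.le_log_iff_exp_le hT0]
  have hL0 : 0 < Real.log T := by linarith
  obtain ⟨D, hD, h1⟩ := tau_ptw k (κ := 1) one_pos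
  obtain ⟨C1, G1⟩ := ZP_DF (fun _ : Fin k => (0:ℝ)) one_pos hD (h1 _) (le_refl (2 * k)) (le_refl _)
  have h2 := (I0_prodint h G1 G1 hL T).integral_prod_right
  have h3 : (fun α : ℝ => P ψ (α * I) * Qk k α T) = fun α : ℝ =>
      ((T : ℂ)⁻¹ * ((Real.log T : ℂ) ^ (k ^ 2))⁻¹) * ((fun y : ℝ => ∫ t : ℝ, P ψ (Real.log T * y * I) *
      (ZP (fun _ : Fin k => (0:ℝ)) (1 / 2 + (y + t : ℝ) * I) *
        ZP (fun _ : Fin k => (0:ℝ)) (1 / 2 + (y - t : ℝ) * I)) ∂(volume.restrict (Ioc 0 T)))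
        ((Real.log T)⁻¹ * α)) := by
    funext α
    have e0 : Real.log T * ((Real.log T)⁻¹ * α) = α := by
      rw [← mul_assoc, mul_inv_cancel₀ hL0.ne', one_mul]
    have e1 := Qk_scale k hL0.ne' ((Real.log T)⁻¹ * α)
    rw [e0] at e1
    rw [e1, intervalIntegral.integral_of_le hT0.le]
    simp only
    rw [integral_const_mul]
    have e2 : (Real.log T : ℂ) * (((Real.log T)⁻¹ * α : ℝ) : ℂ) = α := by
      rw [← Complex.ofReal_mul, e0]
    rw [e2]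
    ring
  rw [h3]
  exact (h2.comp_mul_left' (inv_ne_zero hL0.ne')).const_mul _

end

end Pool.Agent.W182.KO
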