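import Pool.Agent.W182.KO.Fin1
import Pool.Agent.W182.KO.Diag2

set_option autoImplicit false

/-! The shifted moment limit for Fourier support off `[2, 2k-2]`. -/

namespace Pool.Agent.W182.KO

open Complex Filter Topology MeasureTheory Set
open scoped ContDiff

noncomputable section

theorem band2 {ψ : ℝ → ℂ} {ξ0 : ℝ} (hcd : ContDiff ℝ ∞ ψ) (hcs : HasCompactSupport ψ)
    (h0 : ∀ ξ, ξ < ξ0 → ψ ξ = 0) {k : ℕ} (hk : 1 ≤ k) (hξ : ξ0 ≤ 2 * k) {θ : ℝ}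
    (hθ0 : (2 * k - ξ0) / 2 < θ) :
    ∃ C T1 : ℝ, 0 ≤ C ∧ Real.exp 1 ≤ T1 ∧ ∀ T : ℝ, T1 ≤ T →
      ‖(∫ α : ℝ, P ψ (α * I) * Qk k α T) -
        2 * Real.pi * ((∑' n : ℕ, (dk k n : ℂ) * dk k n / n * ((T : ℂ)⁻¹ *
          ∫ t in (1:ℝ)..T, ψ (2 * k * Real.log (t / (2 * Real.pi)) / Real.log T -
            2 * Real.log n / Real.log T))) / (Real.log T : ℂ) ^ (k ^ 2))‖ ≤ C * T ^ (θ - 1) := by
  obtain ⟨C, T1, hC, hT1, hc⟩ := upper hcd hcs h0 hk hξ hθ0 (fun _ : Fin k => (0:ℝ))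
    (fun _ : Fin k => (0:ℝ))
  refine ⟨C, T1, hC, hT1, fun T hT => ?_⟩
  have h3 := hc T hT
  have hTe : Real.exp 1 ≤ T := hT1.trans hT
  have hT0 : 0 < T := (Real.exp_pos 1).trans_le hTe
  have hL : 1 ≤ Real.log T := by rwa [Real.le_log_iff_exp_le hT0]
  set L := Real.log T with hLd
  have hL0 : 0 < L := by linarith
  have hLc : (L : ℂ) ≠ 0 := by exact_mod_cast hL0.ne'
  have hTc : (T : ℂ) ≠ 0 := by exact_mod_cast hT0.ne'
  have hz : ∀ n : ℕ, tau (fun _ : Fin k => ((0:ℝ) : ℂ) * I) n = dk k n := by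
    intro n
    rw [← tau_dk]; simp
  simp only [hz] at h3
  have hgi : ∀ n : ℕ, ∫ t in (1:ℝ)..T, exp ((-(∑ _j : Fin k, ((0:ℝ) + 0)) *
      Real.log (t / (2 * Real.pi)) : ℝ) * I) *
      ψ ((2 * k * Real.log (t / (2 * Real.pi)) - 2 * Real.log n) / L) =
      ∫ t in (1:ℝ)..T, ψ (2 * k * Real.log (t / (2 * Real.pi)) / L - 2 * Real.log n / L) := by
    intro n
    refine intervalIntegral.integral_congr fun t _ => ?_
    simp [sub_div]
  simp only [hgi] at h3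
  have e1 : (∫ α : ℝ, P ψ (α * I) * Qk k α T) = (T : ℂ)⁻¹ * ((L : ℂ) ^ (k ^ 2))⁻¹ * L *
      ∫ y : ℝ, P ψ (L * y * I) * (∫ t in (0:ℝ)..T,
        ZP (fun _ : Fin k => (0:ℝ)) (1 / 2 + (y + t : ℝ) * I) *
          ZP (fun _ : Fin k => (0:ℝ)) (1 / 2 + (y - t : ℝ) * I)) := by
    have h4 := Measure.integral_comp_mul_left (fun α : ℝ => P ψ (α * I) * Qk k α T) L
    rw [← integral_const_mul]
    have h5 : ∫ α : ℝ, P ψ (α * I) * Qk k α T = (L : ℂ) * ∫ y : ℝ, P ψ ((L * y : ℝ) * I) * Qk k (L * y) T := by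
      rw [h4, abs_of_pos (by positivity)]
      rw [Complex.real_smul, ← mul_assoc, ← Complex.ofReal_mul, mul_inv_cancel₀ hL0.ne',
        Complex.ofReal_one, one_mul]
    rw [h5, ← integral_const_mul]
    refine integral_congr_ae (Eventually.of_forall fun y => ?_)
    simp only
    rw [Qk_scale k (by rw [← hLd]; exact hL0.ne') y, ← hLd]
    push_cast
    ring
  rw [e1]
  set J := ∫ y : ℝ, P ψ (L * y * I) * (∫ t in (0:ℝ)..T,
        ZP (fun _ : Fin k => (0:ℝ)) (1 / 2 + (y + t : ℝ) * I) *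
          ZP (fun _ : Fin k => (0:ℝ)) (1 / 2 + (y - t : ℝ) * I)) with hJ
  set f : ℕ → ℂ := fun n => ∫ t in (1:ℝ)..T,
    ψ (2 * k * Real.log (t / (2 * Real.pi)) / L - 2 * Real.log n / L) with hf
  have e2 : ∑' n : ℕ, (dk k n : ℂ) * dk k n / n * ((T : ℂ)⁻¹ * f n) =
      (T : ℂ)⁻¹ * ∑' n : ℕ, (dk k n : ℂ) * dk k n / n * f n := by
    rw [← tsum_mul_left]
    exact tsum_congr fun n => by ring
  rw [e2]
  set S := ∑' n : ℕ, (dk k n : ℂ) * dk k n / n * f n with hS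
  have e3 : (T : ℂ)⁻¹ * ((L : ℂ) ^ (k ^ 2))⁻¹ * L * J -
      2 * Real.pi * ((T : ℂ)⁻¹ * S / (L : ℂ) ^ (k ^ 2)) =
      (T : ℂ)⁻¹ * ((L : ℂ) ^ (k ^ 2))⁻¹ * L * (J - (((2 * Real.pi / L : ℝ) : ℂ) * S)) := by
    push_cast
    field_simp
  rw [e3, norm_mul, norm_mul, norm_mul, norm_inv, norm_inv, norm_pow, Complex.norm_real,
    Complex.norm_real, Real.norm_of_nonneg hT0.le, Real.norm_of_nonneg hL0.le]
  have h6 : (L ^ (k ^ 2))⁻¹ * L ≤ 1 := by
    rw [inv_mul_le_iff₀ (by positivity), mul_one]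
    exact le_self_pow₀ hL (by positivity)
  calc _ = T⁻¹ * ((L ^ (k ^ 2))⁻¹ * L) * ‖J - (((2 * Real.pi / L : ℝ) : ℂ) * S)‖ := by ring
    _ ≤ T⁻¹ * 1 * (C * T ^ θ) := by gcongr
    _ = C * T ^ (θ - 1) := by
      rw [Real.rpow_sub hT0, Real.rpow_one]
      field_simp

theorem band2_limit {ψ : ℝ → ℂ} {ξ0 : ℝ} (hcd : ContDiff ℝ ∞ ψ) (hcs : HasCompactSupport ψ)
    (h0 : ∀ ξ, ξ < ξ0 → ψ ξ = 0) {k : ℕ} (hk : 1 ≤ k) (hξ : ξ0 ≤ 2 * k) (hξ2 : 2 * (k:ℝ) - 2 < ξ0) :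
    Tendsto (fun T : ℝ => ∫ α : ℝ, P ψ (α * I) * Qk k α T) atTop
      (𝓝 (2 * Real.pi * ((H306R2.aF k : ℂ) * ∫ u in Ioi (0:ℝ),
        (u : ℂ) ^ (k ^ 2 - 1) / (k ^ 2 - 1).factorial * ψ (2 * k - 2 * u)))) := by
  obtain ⟨θ, hθa, hθb⟩ : ∃ θ : ℝ, (2 * k - ξ0) / 2 < θ ∧ θ < 1 := exists_between (by linarith)
  obtain ⟨C, T1, hC, hT1, hc⟩ := band2 hcd hcs h0 hk hξ hθa
  have h3 := diag2_limit hcd hcs h0 hk hξ
  have h4 := h3.const_mul (2 * Real.pi : ℂ)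
  have h5 : Tendsto (fun T : ℝ => (∫ α : ℝ, P ψ (α * I) * Qk k α T) -
        2 * Real.pi * ((∑' n : ℕ, (dk k n : ℂ) * dk k n / n * ((T : ℂ)⁻¹ *
          ∫ t in (1:ℝ)..T, ψ (2 * k * Real.log (t / (2 * Real.pi)) / Real.log T -
            2 * Real.log n / Real.log T))) / (Real.log T : ℂ) ^ (k ^ 2))) atTop (𝓝 0) := by
    rw [tendsto_zero_iff_norm_tendsto_zero]
    have h6 : Tendsto (fun T : ℝ => C * T ^ (θ - 1)) atTop (𝓝 0) := by
      have := (tendsto_rpow_neg_atTop (by linarith : 0 < 1 - θ)).const_mul C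
      rw [mul_zero] at this
      refine this.congr fun T => ?_
      rw [neg_sub]
    refine squeeze_zero' (Eventually.of_forall fun _ => norm_nonneg _) ?_ h6
    filter_upwards [eventually_ge_atTop T1] with T hT
    exact hc T hT
  have h7 := h5.add h4
  rw [zero_add] at h7
  refine h7.congr fun T => ?_
  ring

/-- the two sided splitting of a function vanishing near `2` -/
lemma split_at {ψ : ℝ → ℂ} (hcd : ContDiff ℝ ∞ ψ) (hcs : HasCompactSupport ψ) {δ : ℝ} (hδ : 0 < δ)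
    (h2 : ∀ ξ, |ξ - 2| < δ → ψ ξ = 0) :
    ContDiff ℝ ∞ (fun ξ => if ξ < 2 then ψ ξ else 0) ∧
    HasCompactSupport (fun ξ => if ξ < 2 then ψ ξ else 0) ∧
    ContDiff ℝ ∞ (fun ξ => if ξ < 2 then 0 else ψ ξ) ∧
    HasCompactSupport (fun ξ => if ξ < 2 then 0 else ψ ξ) := by
  refine ⟨?_, ?_, ?_, ?_⟩
  · rw [contDiff_iff_contDiffAt]
    intro x
    rcases lt_or_ge x 2 with hx | hx
    · refine (hcd.contDiffAt (x := x)).congr_of_eventuallyEq ?_
      filter_upwards [gt_mem_nhds hx] with ξ hξ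
      rw [if_pos hξ]
    · refine (contDiffAt_const (c := (0:ℂ))).congr_of_eventuallyEq ?_
      filter_upwards [lt_mem_nhds (show 2 - δ < x by linarith)] with ξ hξ
      split_ifs with h
      · exact h2 ξ (by rw [abs_lt]; constructor <;> linarith)
      · rfl
  · refine hcs.mono fun x hx => ?_
    rw [Function.mem_support] at hx ⊢
    intro h
    apply hx
    rw [h]; simp
  · rw [contDiff_iff_contDiffAt]
    intro x
    rcases lt_or_ge 2 x with hx | hx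
    · refine (hcd.contDiffAt (x := x)).congr_of_eventuallyEq ?_
      filter_upwards [lt_mem_nhds hx] with ξ hξ
      rw [if_neg (by linarith)]
    · refine (contDiffAt_const (c := (0:ℂ))).congr_of_eventuallyEq ?_
      filter_upwards [gt_mem_nhds (show x < 2 + δ by linarith)] with ξ hξ
      split_ifs with h
      · rfl
      · exact h2 ξ (by rw [abs_lt]; constructor <;> linarith)
  · refine hcs.mono fun x hx => ?_
    rw [Function.mem_support] at hx ⊢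
    intro h
    apply hx
    rw [h]; simp

lemma vanish_near {ψ : ℝ → ℂ} {x : ℝ} (hx : x ∉ tsupport ψ) :
    ∃ δ : ℝ, 0 < δ ∧ ∀ ξ, |ξ - x| < δ → ψ ξ = 0 := by
  have h1 : ψ =ᶠ[𝓝 x] 0 := notMem_tsupport_iff_eventuallyEq.1 hx
  obtain ⟨δ, hδ, h⟩ := Metric.eventually_nhds_iff.1 h1
  exact ⟨δ, hδ, fun ξ hξ => h (by rwa [Real.dist_eq])⟩

theorem both_limit {k : ℕ} (hk : 2 ≤ k) {ψ : ℝ → ℂ} (hcd : ContDiff ℝ ∞ ψ)
    (hcs : HasCompactSupport ψ) (hs : ∀ ξ ∈ Icc (2:ℝ) (2 * k - 2), ξ ∉ tsupport ψ) :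
    Tendsto (fun T : ℝ => ∫ α : ℝ, P ψ (α * I) * Qk k α T) atTop
      (𝓝 (2 * Real.pi * H306R2.aF k *
        ((∫ x in (0:ℝ)..1, (x : ℂ) ^ (k ^ 2 - 1) / (k ^ 2 - 1).factorial * ψ (2 * x)) +
        ∫ x in (k - 1 : ℝ)..k, ((k : ℂ) - x) ^ (k ^ 2 - 1) / (k ^ 2 - 1).factorial * ψ (2 * x)))) := by
  have hk2 : (2:ℝ) ≤ k := by exact_mod_cast hk
  have hk1 : 1 ≤ k := by omega
  obtain ⟨δ1, hδ1, hv1⟩ := vanish_near (hs 2 ⟨le_rfl, by linarith⟩)
  obtain ⟨δ2, hδ2, hv2⟩ := vanish_near (hs (2 * k - 2) ⟨by linarith, le_rfl⟩)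
  obtain ⟨c1, s1, c2, s2⟩ := split_at hcd hcs hδ1 hv1
  set ψ1 : ℝ → ℂ := fun ξ => if ξ < 2 then ψ ξ else 0 with hψ1
  set ψ2 : ℝ → ℂ := fun ξ => if ξ < 2 then 0 else ψ ξ with hψ2
  have t1 : TF (2 - δ1) ψ1 := ⟨c1, s1, fun ξ hξ => by
    rw [hψ1]
    simp only
    split_ifs with h
    · exact hv1 ξ (by rw [abs_lt]; constructor <;> linarith)
    · rfl⟩
  set ξ0 : ℝ := min (2 * k - 2 + δ2) (2 * k) with hξ0
  have h02 : ∀ ξ, ξ < ξ0 → ψ2 ξ = 0 := by
    intro ξ hξ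
    have h3 : ξ < 2 * k - 2 + δ2 := hξ.trans_le (min_le_left _ _)
    rw [hψ2]
    simp only
    split_ifs with h
    · rfl
    · push Not at h
      rcases le_or_gt ξ (2 * k - 2) with h4 | h4
      · exact image_eq_zero_of_notMem_tsupport (hs ξ ⟨h, h4⟩)
      · exact hv2 ξ (by rw [abs_lt]; constructor <;> linarith)
  have hξle : ξ0 ≤ 2 * k := min_le_right _ _
  have hξgt : 2 * (k:ℝ) - 2 < ξ0 := lt_min (by linarith) (by linarith)
  have l1 := band_limit t1 (by linarith) hk1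
  have l2 := band2_limit c2 s2 h02 hk1 hξle hξgt
  obtain ⟨X, hX0, hX⟩ := exists_TF c2 s2
  have hsum := l1.add l2
  have hadd : ∀ᶠ T : ℝ in atTop, (∫ α : ℝ, P ψ1 (α * I) * Qk k α T) + (∫ α : ℝ, P ψ2 (α * I) * Qk k α T) =
      ∫ α : ℝ, P ψ (α * I) * Qk k α T := by
    filter_upwards [eventually_ge_atTop (Real.exp 1)] with T hT
    rw [← integral_add (Qk_integrable t1 k hT) (Qk_integrable hX k hT)]
    congr 1; funext α
    rw [← add_mul]
    congr 1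
    unfold P
    rw [← integral_add (t1.int_exp _) (hX.int_exp _)]
    congr 1; funext ξ
    rw [← add_mul]
    congr 1
    rw [hψ1, hψ2]
    simp only
    split_ifs <;> simp
  have hfin := hsum.congr' hadd
  convert hfin using 2
  have i1 : ∫ u in Ioi (0:ℝ), (u : ℂ) ^ (k ^ 2 - 1) / (k ^ 2 - 1).factorial * ψ1 (2 * u) =
      ∫ x in (0:ℝ)..1, (x : ℂ) ^ (k ^ 2 - 1) / (k ^ 2 - 1).factorial * ψ (2 * x) := by
    rw [intervalIntegral.integral_of_le zero_le_one]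
    have : Ioi (0:ℝ) = Ioc 0 1 ∪ Ioi 1 := (Ioc_union_Ioi_eq_Ioi zero_le_one).symm
    have hz : ∀ u : ℝ, 1 < u → (u : ℂ) ^ (k ^ 2 - 1) / (k ^ 2 - 1).factorial * ψ1 (2 * u) = 0 := by
      intro u hu
      rw [hψ1]
      simp only
      rw [if_neg (by linarith), mul_zero]
    rw [← integral_indicator measurableSet_Ioi, ← integral_indicator measurableSet_Ioc]
    congr 1; funext u
    by_cases h1 : u ∈ Ioc (0:ℝ) 1
    · rw [indicator_of_mem (mem_Ioi.2 h1.1), indicator_of_mem h1]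
      rw [hψ1]
      simp only
      rcases lt_or_eq_of_le h1.2 with h2 | h2
      · rw [if_pos (by linarith)]
      · rw [if_neg (by linarith), h2, mul_one, hv1 2 (by simpa using hδ1)]
    · rw [indicator_of_notMem h1]
      by_cases h2 : u ∈ Ioi (0:ℝ)
      · rw [indicator_of_mem h2]
        refine hz u ?_
        by_contra h3
        push Not at h3
        exact h1 ⟨h2, h3⟩
      · rw [indicator_of_notMem h2]
  have i2 : ∫ u in Ioi (0:ℝ), (u : ℂ) ^ (k ^ 2 - 1) / (k ^ 2 - 1).factorial * ψ2 (2 * k - 2 * u) =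
      ∫ x in (k - 1 : ℝ)..k, ((k : ℂ) - x) ^ (k ^ 2 - 1) / (k ^ 2 - 1).factorial * ψ (2 * x) := by
    have e1 := intervalIntegral.integral_comp_sub_left (a := 0) (b := 1)
      (fun x : ℝ => ((k : ℂ) - x) ^ (k ^ 2 - 1) / (k ^ 2 - 1).factorial * ψ (2 * x)) (k:ℝ)
    rw [sub_zero] at e1
    rw [← e1, intervalIntegral.integral_of_le zero_le_one, ← integral_indicator measurableSet_Ioi,
      ← integral_indicator measurableSet_Ioc]
    congr 1; funext u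
    by_cases h1 : u ∈ Ioc (0:ℝ) 1
    · rw [indicator_of_mem (mem_Ioi.2 h1.1), indicator_of_mem h1]
      rw [hψ2]
      simp only
      have e2 : ((k : ℂ) - ((k - u : ℝ) : ℂ)) = u := by push_cast; ring
      have e3 : 2 * ((k:ℝ) - u) = 2 * k - 2 * u := by ring
      rw [e2, e3]
      rcases lt_or_ge (2 * (k:ℝ) - 2 * u) 2 with h2 | h2
      · have : 2 * (k:ℝ) - 2 * u = 2 * k - 2 * u := rfl
        exfalso
        have := h1.2
        linarith
      · rw [if_neg (by linarith)]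
    · rw [indicator_of_notMem h1]
      by_cases h2 : u ∈ Ioi (0:ℝ)
      · rw [indicator_of_mem h2]
        have h3 : 1 < u := by
          by_contra h3
          push Not at h3
          exact h1 ⟨h2, h3⟩
        rw [h02 _ (by linarith), mul_zero]
      · rw [indicator_of_notMem h2]
  rw [i1, i2]
  ring

end

end Pool.Agent.W182.KO
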