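import Pool.Agent.W182.KO.Fin2

set_option autoImplicit false

/-! General shifts, both spectral edges, with a power saving. -/

namespace Pool.Agent.W182.KO

open Complex Filter Topology MeasureTheory Set
open scoped ContDiff

noncomputable section

lemma J_integrable {k : ℕ} {ξ1 : ℝ} {ψ : ℝ → ℂ} (h : TF ξ1 ψ) (z w : Fin k → ℝ) {T : ℝ}
    (hT : Real.exp 1 ≤ T) :
    Integrable (fun y : ℝ => P ψ (Real.log T * y * I) * (∫ t in (0:ℝ)..T,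
      ZP z (1 / 2 + (y + t : ℝ) * I) * ZP w (1 / 2 + (y - t : ℝ) * I))) := by
  have hT0 : 0 < T := (Real.exp_pos 1).trans_le hT
  have hL : 1 ≤ Real.log T := by rwa [Real.le_log_iff_exp_le hT0]
  obtain ⟨D, hD, h1⟩ := tau_ptw k (κ := 1) one_pos
  obtain ⟨C1, G1⟩ := ZP_DF z one_pos hD (h1 z) (le_refl (2 * k)) (le_max_left (RR z) (RR w))
  obtain ⟨C2, G2⟩ := ZP_DF w one_pos hD (h1 w) (le_refl (2 * k)) (le_max_right (RR z) (RR w))
  have h2 := (I0_prodint h G1 G2 hL T).integral_prod_right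
  refine h2.congr (Eventually.of_forall fun y => ?_)
  simp only
  rw [intervalIntegral.integral_of_le hT0.le, ← integral_const_mul]

theorem general {k : ℕ} (hk : 1 ≤ k) (z w : Fin k → ℝ) {ψ1 ψ2 : ℝ → ℂ}
    (h1 : ContDiff ℝ ∞ ψ1) (c1 : HasCompactSupport ψ1) (h2 : ContDiff ℝ ∞ ψ2)
    (c2 : HasCompactSupport ψ2) {ξ1 ξ2 θ : ℝ} (s1 : ∀ ξ, ξ1 < ξ → ψ1 ξ = 0)
    (s2 : ∀ ξ, ξ < ξ2 → ψ2 ξ = 0) (hθ : 1 / 2 ≤ θ) (hθ1 : θ ≤ 1) (ha : ξ1 / 2 < θ)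
    (hb : (2 * k - ξ2) / 2 < θ) :
    ∃ C T0 : ℝ, Real.exp 1 ≤ T0 ∧ ∀ T : ℝ, T0 ≤ T →
      ‖(∫ y : ℝ, (P ψ1 (Real.log T * y * I) + P ψ2 (Real.log T * y * I)) * (∫ t in (0:ℝ)..T,
        ZP z (1 / 2 + (y + t : ℝ) * I) * ZP w (1 / 2 + (y - t : ℝ) * I))) -
        ((2 * Real.pi / Real.log T : ℝ) : ℂ) *
        ((T : ℂ) * (∑' n : ℕ, tau (fun j => -(z j * I)) n * tau (fun j => -(w j * I)) n / n *
            ψ1 (2 * Real.log n / Real.log T)) +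
          ∑' n : ℕ, tau (fun j => w j * I) n * tau (fun j => z j * I) n / n *
          ∫ t in (1:ℝ)..T, exp ((-(∑ j, (z j + w j)) * Real.log (t / (2 * Real.pi)) : ℝ) * I) *
            ψ2 ((2 * k * Real.log (t / (2 * Real.pi)) - 2 * Real.log n) / Real.log T))‖ ≤
      C * T ^ θ := by
  have t1 : TF (max ξ1 0) ψ1 := ⟨h1, c1, fun ξ hξ => s1 ξ ((le_max_left _ _).trans_lt hξ)⟩
  obtain ⟨X, hX0, hX⟩ := exists_TF h2 c2
  have hθ0 : max ξ1 0 / 2 < θ := by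
    rcases le_total ξ1 0 with h0 | h0
    · rw [max_eq_right h0]; linarith
    · rw [max_eq_left h0]; exact ha
  obtain ⟨C1, T1, hC1, hT1, hc1⟩ := shifted t1 (le_max_right _ _) hθ0 hθ hθ1 z w
  have s2' : ∀ ξ, ξ < min ξ2 (2 * k) → ψ2 ξ = 0 := fun ξ hξ => s2 ξ (hξ.trans_le (min_le_left _ _))
  have hθ2 : (2 * k - min ξ2 (2 * k)) / 2 < θ := by
    rcases le_total ξ2 (2 * k) with h0 | h0
    · rw [min_eq_left h0]; exact hb
    · rw [min_eq_right h0]; linarith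
  obtain ⟨C2, T2, hC2, hT2, hc2⟩ := upper h2 c2 s2' hk (min_le_right _ _) hθ2 z w
  refine ⟨C1 + C2, max T1 T2, hT2.trans (le_max_right _ _), fun T hT => ?_⟩
  have a1 := hc1 T ((le_max_left _ _).trans hT)
  have a2 := hc2 T ((le_max_right _ _).trans hT)
  have hTe : Real.exp 1 ≤ T := hT2.trans ((le_max_right _ _).trans hT)
  have e1 : (∫ y : ℝ, (P ψ1 (Real.log T * y * I) + P ψ2 (Real.log T * y * I)) * (∫ t in (0:ℝ)..T,
        ZP z (1 / 2 + (y + t : ℝ) * I) * ZP w (1 / 2 + (y - t : ℝ) * I))) =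
      (∫ y : ℝ, P ψ1 (Real.log T * y * I) * (∫ t in (0:ℝ)..T,
        ZP z (1 / 2 + (y + t : ℝ) * I) * ZP w (1 / 2 + (y - t : ℝ) * I))) +
      ∫ y : ℝ, P ψ2 (Real.log T * y * I) * (∫ t in (0:ℝ)..T,
        ZP z (1 / 2 + (y + t : ℝ) * I) * ZP w (1 / 2 + (y - t : ℝ) * I)) := by
    rw [← integral_add (J_integrable t1 z w hTe) (J_integrable hX z w hTe)]
    congr 1; funext y
    rw [add_mul]
  rw [e1]
  set J1 := ∫ y : ℝ, P ψ1 (Real.log T * y * I) * (∫ t in (0:ℝ)..T,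
        ZP z (1 / 2 + (y + t : ℝ) * I) * ZP w (1 / 2 + (y - t : ℝ) * I))
  set J2 := ∫ y : ℝ, P ψ2 (Real.log T * y * I) * (∫ t in (0:ℝ)..T,
        ZP z (1 / 2 + (y + t : ℝ) * I) * ZP w (1 / 2 + (y - t : ℝ) * I))
  set S1 := ∑' n : ℕ, tau (fun j => -(z j * I)) n * tau (fun j => -(w j * I)) n / n *
            ψ1 (2 * Real.log n / Real.log T)
  set S2 := ∑' n : ℕ, tau (fun j => w j * I) n * tau (fun j => z j * I) n / n *
          ∫ t in (1:ℝ)..T, exp ((-(∑ j, (z j + w j)) * Real.log (t / (2 * Real.pi)) : ℝ) * I) *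
            ψ2 ((2 * k * Real.log (t / (2 * Real.pi)) - 2 * Real.log n) / Real.log T)
  set cc : ℂ := ((2 * Real.pi / Real.log T : ℝ) : ℂ)
  have e2 : J1 + J2 - cc * (T * S1 + S2) = (J1 - T * (cc * S1)) + (J2 - cc * S2) := by ring
  rw [e2, add_mul]
  exact (norm_add_le _ _).trans (add_le_add a1 a2)

end

end Pool.Agent.W182.KO
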