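import Pool.Agent.W182.KO.Spec

set_option autoImplicit false

/-! Band-limited shifted moments with a power saving. -/

namespace Pool.Agent.W182.KO

open Complex Filter Topology MeasureTheory Set
open scoped ContDiff

noncomputable section

theorem shifted {ξ1 : ℝ} {ψ : ℝ → ℂ} (h : TF ξ1 ψ) (hξ : 0 ≤ ξ1) {θ : ℝ} (hθ0 : ξ1 / 2 < θ)
    (hθ : 1 / 2 ≤ θ) (hθ1 : θ ≤ 1) {k l : ℕ} (z : Fin k → ℝ) (w : Fin l → ℝ) :
    ∃ C T1 : ℝ, 0 ≤ C ∧ 1 ≤ T1 ∧ ∀ T : ℝ, T1 ≤ T →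
      ‖(∫ y : ℝ, P ψ (Real.log T * y * I) * (∫ t in (0:ℝ)..T,
        ZP z (1 / 2 + (y + t : ℝ) * I) * ZP w (1 / 2 + (y - t : ℝ) * I))) -
        (T : ℂ) * (((2 * Real.pi / Real.log T : ℝ) : ℂ) *
          ∑' n : ℕ, tau (fun j => -(z j * I)) n * tau (fun j => -(w j * I)) n / n *
            ψ (2 * Real.log n / Real.log T))‖ ≤ C * T ^ θ := by
  set g : ℝ := θ - ξ1 / 2 with hg
  have hg0 : 0 < g := by rw [hg]; linarith
  set κ : ℝ := g / (8 * (ξ1 + 1)) with hκd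
  have hκ : 0 < κ := by positivity
  obtain ⟨m, hm⟩ := exists_nat_ge (1 / g)
  set M : ℕ := 2 * k + 2 * l + m with hMd
  have hM1 : 2 * k ≤ M := by omega
  have hM2 : 2 * l ≤ M := by omega
  have hMm : (m : ℝ) ≤ M := by exact_mod_cast (by omega : m ≤ M)
  obtain ⟨D1, hD1, h1⟩ := tau_ptw k hκ
  obtain ⟨D2, hD2, h2⟩ := tau_ptw l hκ
  obtain ⟨C1, G1⟩ := ZP_DF z hκ hD1 (h1 z) hM1 (le_max_left (RR z) (RR w))
  obtain ⟨C2, G2⟩ := ZP_DF w hκ hD2 (h2 w) hM2 (le_max_right (RR z) (RR w))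
  have hθ2 : ξ1 * (1 / 2 + 4 * κ) + 1 / (2 * (2 * M + 1)) ≤ θ := by
    have e1 : ξ1 * (4 * κ) ≤ g / 2 := by
      rw [hκd]
      have : ξ1 * (4 * (g / (8 * (ξ1 + 1)))) = g / 2 * (ξ1 / (ξ1 + 1)) := by
        field_simp
        ring
      rw [this]
      have h3 : ξ1 / (ξ1 + 1) ≤ 1 := by
        rw [div_le_one (by linarith)]; linarith
      nlinarith
    have e2 : 1 / (2 * (2 * (M:ℝ) + 1)) ≤ g / 2 := by
      rw [div_le_iff₀ (by positivity)]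
      have h4 : 1 ≤ g * m := by
        rw [div_le_iff₀ hg0] at hm
        linarith
      have h5 : g * m ≤ g * M := by gcongr
      nlinarith
    calc _ = ξ1 / 2 + ξ1 * (4 * κ) + 1 / (2 * (2 * (M:ℝ) + 1)) := by ring
      _ ≤ ξ1 / 2 + g / 2 + g / 2 := by gcongr
      _ = θ := by rw [hg]; ring
  obtain ⟨C, T1, hC, hT1, hc⟩ := core h hξ hκ G1 G2 (ZP_DD z hκ (h1 z)) (ZP_DD w hκ (h2 w)) hθ hθ1 hθ2
  refine ⟨C, max T1 (Real.exp 1), hC, le_max_of_le_left hT1, fun T hT => ?_⟩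
  have h3 := hc T ((le_max_left _ _).trans hT)
  have hT0 : 1 ≤ T := hT1.trans ((le_max_left _ _).trans hT)
  have hL : 1 ≤ Real.log T := by
    rw [Real.le_log_iff_exp_le (by linarith)]
    exact (le_max_right _ _).trans hT
  rw [I0_swap h G1 G2 hL (by linarith)]
  exact h3

end

end Pool.Agent.W182.KO
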