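import Mathlib

set_option autoImplicit false

/-! The Laplace transform of a compactly supported smooth function: decay, holomorphy, inversion. -/

namespace Pool.Agent.W182.KO

open Complex Filter Topology MeasureTheory Set
open scoped ContDiff FourierTransform

noncomputable section

/-- the two sided Laplace transform -/
def P (ψ : ℝ → ℂ) (z : ℂ) : ℂ := ∫ ξ : ℝ, ψ ξ * exp (ξ * z)

/-- test functions vanishing on the right of `ξ1` -/
structure TF (ξ1 : ℝ) (ψ : ℝ → ℂ) : Prop where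
  cd : ContDiff ℝ ∞ ψ
  cs : HasCompactSupport ψ
  sp : ∀ ξ, ξ1 < ξ → ψ ξ = 0

lemma TF.cont {ξ1 : ℝ} {ψ : ℝ → ℂ} (h : TF ξ1 ψ) : Continuous ψ := h.cd.continuous

lemma TF.diff {ξ1 : ℝ} {ψ : ℝ → ℂ} (h : TF ξ1 ψ) : Differentiable ℝ ψ :=
  h.cd.differentiable (by simp)

lemma TF.deriv {ξ1 : ℝ} {ψ : ℝ → ℂ} (h : TF ξ1 ψ) : TF ξ1 (deriv ψ) where
  cd := (contDiff_infty_iff_deriv.1 h.cd).2
  cs := h.cs.deriv
  sp ξ hξ := by
    have : ψ =ᶠ[𝓝 ξ] fun _ => 0 := by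
      filter_upwards [lt_mem_nhds hξ] with x hx
      exact h.sp x hx
    rw [this.deriv_eq]; simp

lemma TF.int_exp {ξ1 : ℝ} {ψ : ℝ → ℂ} (h : TF ξ1 ψ) (z : ℂ) :
    Integrable (fun ξ : ℝ => ψ ξ * exp (ξ * z)) := by
  refine Continuous.integrable_of_hasCompactSupport ?_ ?_
  · have := h.cont; fun_prop
  · exact h.cs.mul_right

lemma P_norm_le {ξ1 : ℝ} {ψ : ℝ → ℂ} (h : TF ξ1 ψ) {z : ℂ} (hz : 0 ≤ z.re) :
    ‖P ψ z‖ ≤ (∫ ξ, ‖ψ ξ‖) * Real.exp (ξ1 * z.re) := by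
  unfold P
  rw [← integral_mul_const]
  refine norm_integral_le_of_norm_le ?_ (Eventually.of_forall fun ξ => ?_)
  · exact ((h.cont.integrable_of_hasCompactSupport h.cs).norm).mul_const _
  · rw [norm_mul, Complex.norm_exp]
    by_cases hξ : ξ1 < ξ
    · rw [h.sp ξ hξ]; simp
    · push Not at hξ
      refine mul_le_mul_of_nonneg_left (Real.exp_le_exp.2 ?_) (norm_nonneg _)
      simp only [mul_re, ofReal_re, ofReal_im, zero_mul, sub_zero]
      exact mul_le_mul_of_nonneg_right hξ hz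

lemma P_ibp {ξ1 : ℝ} {ψ : ℝ → ℂ} (h : TF ξ1 ψ) (z : ℂ) : z * P ψ z = - P (deriv ψ) z := by
  have h1 : ∀ ξ : ℝ, HasDerivAt (fun ξ : ℝ => exp (ξ * z)) (exp (ξ * z) * z) ξ := by
    intro ξ
    have := ((hasDerivAt_id ξ).ofReal_comp.mul_const z).cexp
    simpa using this
  have hi := integral_mul_deriv_eq_deriv_mul_of_integrable (u := ψ) (u' := deriv ψ)
    (v := fun ξ : ℝ => exp (ξ * z)) (v' := fun ξ : ℝ => exp (ξ * z) * z)
    (fun ξ _ => (h.diff ξ).hasDerivAt) (fun ξ _ => h1 ξ) ?_ ?_ ?_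
  · unfold P
    rw [← hi, ← integral_const_mul]
    congr 1; funext ξ; ring
  · refine ((h.int_exp z).mul_const z).congr (Eventually.of_forall fun ξ => ?_)
    simp only [Pi.mul_apply]; ring
  · exact h.deriv.int_exp z
  · exact h.int_exp z

lemma P_pow {ξ1 : ℝ} (N : ℕ) : ∀ {ψ : ℝ → ℂ}, TF ξ1 ψ →
    ∃ ψ' : ℝ → ℂ, TF ξ1 ψ' ∧ ∀ z : ℂ, z ^ N * P ψ z = (-1) ^ N * P ψ' z := by
  induction N with
  | zero => intro ψ h; exact ⟨ψ, h, fun z => by simp⟩
  | succ N ih =>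
    intro ψ h
    obtain ⟨ψ', h', e⟩ := ih h.deriv
    refine ⟨ψ', h', fun z => ?_⟩
    have e1 := P_ibp h z
    calc z ^ (N + 1) * P ψ z = z ^ N * (z * P ψ z) := by ring
      _ = - (z ^ N * P (_root_.deriv ψ) z) := by rw [e1]; ring
      _ = _ := by rw [e z]; ring

theorem P_bound {ξ1 : ℝ} {ψ : ℝ → ℂ} (h : TF ξ1 ψ) (N : ℕ) :
    ∃ C : ℝ, 0 ≤ C ∧ ∀ z : ℂ, 0 ≤ z.re → ‖P ψ z‖ * (1 + ‖z‖) ^ N ≤ C * Real.exp (ξ1 * z.re) := by
  obtain ⟨ψ', h', e⟩ := P_pow N h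
  refine ⟨2 ^ N * ((∫ ξ, ‖ψ ξ‖) + ∫ ξ, ‖ψ' ξ‖), ?_, fun z hz => ?_⟩
  · have h1 : 0 ≤ ∫ ξ, ‖ψ ξ‖ := integral_nonneg fun _ => norm_nonneg _
    have h2 : 0 ≤ ∫ ξ, ‖ψ' ξ‖ := integral_nonneg fun _ => norm_nonneg _
    positivity
  · have h1 := P_norm_le h hz
    have h2 := P_norm_le h' hz
    have h3 : ‖z‖ ^ N * ‖P ψ z‖ = ‖P ψ' z‖ := by
      have := congrArg norm (e z)
      simpa using this
    have h4 : (1 + ‖z‖) ^ N ≤ 2 ^ N * (1 + ‖z‖ ^ N) := by
      rcases le_total ‖z‖ 1 with hz1 | hz1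
      · calc (1 + ‖z‖) ^ N ≤ 2 ^ N := pow_le_pow_left₀ (by positivity) (by linarith) N
          _ ≤ 2 ^ N * (1 + ‖z‖ ^ N) := le_mul_of_one_le_right (by positivity)
            (by have := pow_nonneg (norm_nonneg z) N; linarith)
      · calc (1 + ‖z‖) ^ N ≤ (2 * ‖z‖) ^ N := pow_le_pow_left₀ (by positivity) (by linarith) N
          _ = 2 ^ N * ‖z‖ ^ N := mul_pow _ _ _
          _ ≤ 2 ^ N * (1 + ‖z‖ ^ N) := by gcongr; linarith
    calc ‖P ψ z‖ * (1 + ‖z‖) ^ N ≤ ‖P ψ z‖ * (2 ^ N * (1 + ‖z‖ ^ N)) :=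
          mul_le_mul_of_nonneg_left h4 (norm_nonneg _)
      _ = 2 ^ N * (‖P ψ z‖ + ‖P ψ' z‖) := by rw [← h3]; ring
      _ ≤ 2 ^ N * ((∫ ξ, ‖ψ ξ‖) * Real.exp (ξ1 * z.re) + (∫ ξ, ‖ψ' ξ‖) * Real.exp (ξ1 * z.re)) := by
          gcongr
      _ = _ := by ring

theorem P_diff {ξ1 : ℝ} {ψ : ℝ → ℂ} (h : TF ξ1 ψ) : Differentiable ℂ (P ψ) := by
  intro z0
  have hb : Integrable (fun ξ : ℝ => ‖ψ ξ‖ * (|ξ| * Real.exp (|ξ| * (‖z0‖ + 1)))) := by
    refine Continuous.integrable_of_hasCompactSupport ?_ ?_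
    · have := h.cont; fun_prop
    · exact (h.cs.norm).mul_right
  have key := hasDerivAt_integral_of_dominated_loc_of_deriv_le (𝕜 := ℂ)
    (F := fun (z : ℂ) (ξ : ℝ) => ψ ξ * exp (ξ * z))
    (F' := fun (z : ℂ) (ξ : ℝ) => ψ ξ * (exp (ξ * z) * ξ))
    (x₀ := z0) (s := Metric.ball z0 1) (μ := volume)
    (bound := fun ξ : ℝ => ‖ψ ξ‖ * (|ξ| * Real.exp (|ξ| * (‖z0‖ + 1))))
    (Metric.ball_mem_nhds z0 one_pos)
    (Eventually.of_forall fun z => (h.int_exp z).aestronglyMeasurable)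
    (h.int_exp z0) ?_ (Eventually.of_forall fun ξ z hz => ?_) hb
    (Eventually.of_forall fun ξ z hz => ?_)
  · exact key.2.differentiableAt
  · have := h.cont
    exact (by fun_prop : Continuous fun ξ : ℝ => ψ ξ * (exp (ξ * z0) * ξ)).aestronglyMeasurable
  · rw [norm_mul, norm_mul, Complex.norm_exp, Complex.norm_real, Real.norm_eq_abs, mul_comm (Real.exp _)]
    refine mul_le_mul_of_nonneg_left (mul_le_mul_of_nonneg_left (Real.exp_le_exp.2 ?_) (abs_nonneg _))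
      (norm_nonneg _)
    have h1 : ‖z‖ ≤ ‖z0‖ + 1 := by
      have := norm_sub_norm_le z z0
      rw [Metric.mem_ball, dist_eq_norm] at hz
      linarith
    calc ((ξ:ℂ) * z).re ≤ ‖(ξ:ℂ) * z‖ := Complex.re_le_norm _
      _ = |ξ| * ‖z‖ := by rw [norm_mul, Complex.norm_real, Real.norm_eq_abs]
      _ ≤ |ξ| * (‖z0‖ + 1) := mul_le_mul_of_nonneg_left h1 (abs_nonneg _)
  · have h1 : HasDerivAt (fun z : ℂ => (ξ:ℂ) * z) ξ z := by
      simpa using (hasDerivAt_id z).const_mul (ξ : ℂ)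
    exact h1.cexp.const_mul (ψ ξ)

lemma one_add_inv_sq_int : Integrable (fun y : ℝ => ((1 + |y|) ^ 2)⁻¹) := by
  have h := integrable_one_add_norm (E := ℝ) (μ := volume) (r := 2) (by simp)
  refine h.congr (Eventually.of_forall fun y => ?_)
  simp only [Real.norm_eq_abs]
  rw [Real.rpow_neg (by positivity)]
  congr 1
  exact_mod_cast Real.rpow_natCast (1 + |y|) 2

/-- Fourier inversion for `P`. -/
theorem P_inv {ξ1 : ℝ} {ψ : ℝ → ℂ} (h : TF ξ1 ψ) {σ L : ℝ} (hσ : 0 ≤ σ) (hL : 0 < L) (lam : ℝ) :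
    ∫ y : ℝ, P ψ (σ + L * y * I) * exp (-(lam * L * y) * I) =
      (2 * Real.pi / L : ℝ) * (ψ lam * exp (lam * σ)) := by
  set f : ℝ → ℂ := fun ξ => ψ ξ * exp (ξ * σ) with hf
  have hfc : Continuous f := by have := h.cont; fun_prop
  have hfi : Integrable f := h.int_exp σ
  have hF : ∀ w : ℝ, 𝓕 f w = P ψ (σ + (-2 * Real.pi * w) * I) := by
    intro w
    rw [Real.fourier_real_eq_integral_exp_smul]
    unfold P
    congr 1; funext v
    rw [smul_eq_mul, hf]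
    simp only
    rw [mul_comm, mul_assoc, ← exp_add]
    congr 2
    push_cast; ring
  obtain ⟨C, hC0, hC⟩ := P_bound h 2
  have hPc : Continuous (P ψ) := (P_diff h).continuous
  have hFi : Integrable (𝓕 f) := by
    have hb : Integrable (fun w : ℝ => (C * Real.exp (ξ1 * σ)) * ((1 + |w|) ^ 2)⁻¹) :=
      one_add_inv_sq_int.const_mul _
    refine hb.mono' ?_ (Eventually.of_forall fun w => ?_)
    · have : Continuous (𝓕 f) := by
        have : (𝓕 f) = fun w : ℝ => P ψ (σ + (-2 * Real.pi * w) * I) := funext hF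
        rw [this]
        exact hPc.comp (by fun_prop)
      exact this.aestronglyMeasurable
    · rw [hF]
      have h1 := hC (σ + (-2 * Real.pi * w) * I) (by simpa using hσ)
      have e1 : ((σ:ℂ) + (-2 * Real.pi * w) * I).re = σ := by simp
      rw [e1] at h1
      have h2 : |w| ≤ ‖(σ:ℂ) + (-2 * Real.pi * w) * I‖ := by
        refine le_trans ?_ (Complex.abs_im_le_norm _)
        have : ((σ:ℂ) + (-2 * Real.pi * w) * I).im = -2 * Real.pi * w := by simp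
        rw [this, abs_mul, abs_mul, abs_neg, abs_two, abs_of_pos Real.pi_pos]
        have := Real.pi_gt_three
        have := abs_nonneg w
        nlinarith
      rw [← div_eq_mul_inv, le_div_iff₀ (by positivity)]
      refine le_trans ?_ h1
      gcongr
  have hinv := congrFun (Continuous.fourierInv_fourier_eq hfc hfi hFi) lam
  rw [Real.fourierInv_eq'] at hinv
  have hs := MeasureTheory.Measure.integral_comp_mul_left
    (fun w : ℝ => P ψ (σ + (-2 * Real.pi * w) * I) * exp (2 * Real.pi * w * lam * I))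
    (-(L / (2 * Real.pi)))
  have hpi := Real.pi_pos
  have e2 : (∫ v : ℝ, exp ((↑(2 * Real.pi * inner ℝ v lam) * I)) • 𝓕 f v) =
      ∫ w : ℝ, P ψ (σ + (-2 * Real.pi * w) * I) * exp (2 * Real.pi * w * lam * I) := by
    congr 1; funext v
    rw [hF, smul_eq_mul, mul_comm]
    have hin : inner ℝ v lam = v * lam := by
      rw [real_inner_comm]; simp
    rw [hin]
    congr 2
    push_cast; ring
  rw [e2] at hinv
  rw [hinv] at hs
  have e3 : (∫ y : ℝ, P ψ (σ + L * y * I) * exp (-(lam * L * y) * I)) =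
      ∫ x : ℝ, P ψ (σ + (-2 * Real.pi * ((-(L / (2 * Real.pi)) * x : ℝ) : ℂ)) * I) *
        exp (2 * Real.pi * ((-(L / (2 * Real.pi)) * x : ℝ) : ℂ) * lam * I) := by
    congr 1; funext y
    have hpc : (Real.pi : ℂ) ≠ 0 := by exact_mod_cast hpi.ne'
    congr 2
    · push_cast; field_simp
    · push_cast; field_simp
  rw [e3, hs]
  have e4 : |(-(L / (2 * Real.pi)))⁻¹| = 2 * Real.pi / L := by
    rw [abs_inv, abs_neg, abs_of_pos (by positivity)]
    field_simp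
  rw [e4, Complex.real_smul]

end

end Pool.Agent.W182.KO
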