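import Pool.Agent.W182.KO.PT

set_option autoImplicit false

/-! Shifting the line of integration in the averaged correlation, for one fixed `t`. -/

namespace Pool.Agent.W182.KO

open Complex Filter Topology MeasureTheory Set
open scoped ContDiff

noncomputable section

/-- `∫ (1+|y|)^(-2)` -/
def J2 : ℝ := ∫ y : ℝ, ((1 + |y|) ^ 2)⁻¹

lemma J2_nonneg : 0 ≤ J2 := integral_nonneg fun _ => by positivity

lemma decay_le {g : ℝ → ℂ} {B : ℝ} {n : ℕ} (hB : 0 ≤ B)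
    (hb : ∀ y, ‖g y‖ ≤ B / (1 + |y|) ^ (n + 2)) (y : ℝ) : ‖g y‖ ≤ B * ((1 + |y|) ^ 2)⁻¹ := by
  refine (hb y).trans ?_
  rw [← div_eq_mul_inv]
  refine div_le_div_of_nonneg_left hB (by positivity) ?_
  exact pow_le_pow_right₀ (by have := abs_nonneg y; linarith) (by omega)

lemma decay_integrable {g : ℝ → ℂ} {B : ℝ} {n : ℕ} (hg : Continuous g) (hB : 0 ≤ B)
    (hb : ∀ y, ‖g y‖ ≤ B / (1 + |y|) ^ (n + 2)) : Integrable g :=
  (one_add_inv_sq_int.const_mul B).mono' hg.aestronglyMeasurable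
    (Eventually.of_forall (decay_le hB hb))

lemma norm_integral_decay {g : ℝ → ℂ} {B : ℝ} {n : ℕ} (hB : 0 ≤ B)
    (hb : ∀ y, ‖g y‖ ≤ B / (1 + |y|) ^ (n + 2)) : ‖∫ y, g y‖ ≤ B * J2 := by
  unfold J2
  rw [← integral_const_mul]
  exact norm_integral_le_of_norm_le (one_add_inv_sq_int.const_mul B)
    (Eventually.of_forall (decay_le hB hb))

lemma tail_le {g : ℝ → ℂ} {B : ℝ} {n : ℕ} (hg : Continuous g) (hB : 0 ≤ B)
    (hb : ∀ y, ‖g y‖ ≤ B / (1 + |y|) ^ (n + 2)) {Y : ℝ} (hY : 0 ≤ Y) :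
    ‖(∫ y, g y) - ∫ y in (-Y)..Y, g y‖ ≤ B * J2 / (1 + Y) ^ n := by
  have hi := decay_integrable hg hB hb
  rw [intervalIntegral.integral_of_le (by linarith), ← integral_add_compl (measurableSet_Ioc
    (a := -Y) (b := Y)) hi, add_sub_cancel_left]
  have h1 : ∀ y ∈ (Ioc (-Y) Y)ᶜ, ‖g y‖ ≤ (B / (1 + Y) ^ n) * ((1 + |y|) ^ 2)⁻¹ := by
    intro y hy
    have hy1 : Y ≤ |y| := by
      by_contra hlt
      push Not at hlt
      rw [abs_lt] at hlt
      exact hy ⟨hlt.1, hlt.2.le⟩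
    refine (hb y).trans ?_
    rw [← div_eq_mul_inv, div_div]
    refine div_le_div_of_nonneg_left hB (by positivity) ?_
    rw [pow_add]
    gcongr
  calc ‖∫ y in (Ioc (-Y) Y)ᶜ, g y‖ ≤ ∫ y in (Ioc (-Y) Y)ᶜ, (B / (1 + Y) ^ n) * ((1 + |y|) ^ 2)⁻¹ := by
        refine norm_integral_le_of_norm_le ?_ ?_
        · exact (one_add_inv_sq_int.const_mul _).integrableOn
        · rw [ae_restrict_iff' measurableSet_Ioc.compl]
          exact Eventually.of_forall h1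
    _ ≤ ∫ y, (B / (1 + Y) ^ n) * ((1 + |y|) ^ 2)⁻¹ := by
        refine setIntegral_le_integral (one_add_inv_sq_int.const_mul _) ?_
        exact Eventually.of_forall fun y => by simp only [Pi.zero_apply]; positivity
    _ = B * J2 / (1 + Y) ^ n := by
        rw [integral_const_mul]; unfold J2; ring

/-- analytic data of one factor -/
structure DF (F : ℂ → ℂ) (c R : ℝ) (M : ℕ) (C : ℝ) : Prop where
  hC : 0 ≤ C
  diff : ∀ s : ℂ, 1 / 2 ≤ s.re → s.re ≤ c → R ≤ |s.im| → DifferentiableAt ℂ F s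
  line : Continuous (fun u : ℝ => F (1 / 2 + u * I))
  cline : Continuous (fun u : ℝ => F (c + u * I))
  bdl : ∀ u : ℝ, ‖F (1 / 2 + u * I)‖ ≤ C * (1 + |u|) ^ M
  bd : ∀ s : ℂ, 1 / 2 ≤ s.re → s.re ≤ c → R ≤ |s.im| → ‖F s‖ ≤ C * (1 + |s.im|) ^ M
  bdc : ∀ u : ℝ, ‖F (c + u * I)‖ ≤ C

/-- the averaged correlation on the critical line -/
def I0 (ψ : ℝ → ℂ) (F1 F2 : ℂ → ℂ) (L t : ℝ) : ℂ :=
  ∫ y : ℝ, P ψ (L * y * I) * (F1 (1 / 2 + (y + t : ℝ) * I) * F2 (1 / 2 + (y - t : ℝ) * I))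

/-- the averaged correlation on the line `c` -/
def K0 (ψ : ℝ → ℂ) (F1 F2 : ℂ → ℂ) (c L t : ℝ) : ℂ :=
  ∫ y : ℝ, P ψ ((L * (c - 1 / 2) : ℝ) + L * y * I) *
    (F1 (c + (y + t : ℝ) * I) * F2 (c + (y - t : ℝ) * I))

lemma P_bd_line {ξ1 : ℝ} {ψ : ℝ → ℂ} {N : ℕ} {CN : ℝ}
    (hP : ∀ z : ℂ, 0 ≤ z.re → ‖P ψ z‖ * (1 + ‖z‖) ^ N ≤ CN * Real.exp (ξ1 * z.re))
    {z : ℂ} (hz : 0 ≤ z.re) {y : ℝ} (hy : |y| ≤ |z.im|) :
    ‖P ψ z‖ ≤ CN * Real.exp (ξ1 * z.re) / (1 + |y|) ^ N := by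
  rw [le_div_iff₀ (by positivity)]
  refine le_trans ?_ (hP z hz)
  have := hy.trans (Complex.abs_im_le_norm z)
  gcongr

lemma one_add_abs_add (y t : ℝ) (ht : 0 ≤ t) : 1 + |y + t| ≤ (1 + |y|) * (1 + t) := by
  have h1 := abs_add_le y t
  rw [abs_of_nonneg ht] at h1
  have := abs_nonneg y
  nlinarith [mul_nonneg (abs_nonneg y) ht]

lemma one_add_abs_sub (y t : ℝ) (ht : 0 ≤ t) : 1 + |y - t| ≤ (1 + |y|) * (1 + t) := by
  have h1 := abs_sub y t
  have h1 : |y - t| ≤ |y| + |t| := abs_sub _ _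
  rw [abs_of_nonneg ht] at h1
  have := abs_nonneg y
  nlinarith [mul_nonneg (abs_nonneg y) ht]

section

variable {ξ1 : ℝ} {ψ : ℝ → ℂ} {F1 F2 : ℂ → ℂ} {c R C1 C2 : ℝ} {M : ℕ}

lemma prod_line_le (D1 : DF F1 c R M C1) (D2 : DF F2 c R M C2) {y t : ℝ} (ht : 0 ≤ t) :
    ‖F1 (1 / 2 + (y + t : ℝ) * I) * F2 (1 / 2 + (y - t : ℝ) * I)‖ ≤
      (C1 * C2 * (1 + t) ^ (2 * M)) * (1 + |y|) ^ (2 * M) := by
  have h1 := D1.bdl (y + t)
  have h2 := D2.bdl (y - t)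
  have h3 := one_add_abs_add y t ht
  have h4 := one_add_abs_sub y t ht
  have := D1.hC
  have := D2.hC
  rw [norm_mul]
  calc _ ≤ (C1 * (1 + |y + t|) ^ M) * (C2 * (1 + |y - t|) ^ M) := by gcongr
    _ ≤ (C1 * ((1 + |y|) * (1 + t)) ^ M) * (C2 * ((1 + |y|) * (1 + t)) ^ M) := by gcongr
    _ = _ := by rw [two_mul, pow_add, pow_add, mul_pow]; ring

/-- decay of the integrand on the critical line -/
lemma I0_decay (D1 : DF F1 c R M C1) (D2 : DF F2 c R M C2) {n : ℕ} {CN : ℝ} (hCN : 0 ≤ CN)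
    (hP : ∀ z : ℂ, 0 ≤ z.re → ‖P ψ z‖ * (1 + ‖z‖) ^ (n + 2 + 2 * M) ≤ CN * Real.exp (ξ1 * z.re))
    {L t : ℝ} (hL : 1 ≤ L) (ht : 0 ≤ t) (y : ℝ) :
    ‖P ψ (L * y * I) * (F1 (1 / 2 + (y + t : ℝ) * I) * F2 (1 / 2 + (y - t : ℝ) * I))‖ ≤
      (CN * (C1 * C2 * (1 + t) ^ (2 * M))) / (1 + |y|) ^ (n + 2) := by
  have e0 : ((L:ℂ) * y * I).re = 0 := by simp
  have e1 : ((L:ℂ) * y * I).im = L * y := by simp
  have h1 := P_bd_line (ψ := ψ) hP (z := (L:ℂ) * y * I) (y := y) (by rw [e0]) (by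
    rw [e1, abs_mul, abs_of_pos (by linarith : 0 < L)]
    exact le_mul_of_one_le_left (abs_nonneg _) hL)
  rw [e0, mul_zero, Real.exp_zero, mul_one] at h1
  have h2 := prod_line_le D1 D2 (y := y) ht
  rw [norm_mul]
  have hC1 := D1.hC
  have hC2 := D2.hC
  have hy : 0 < 1 + |y| := by positivity
  calc _ ≤ (CN / (1 + |y|) ^ (n + 2 + 2 * M)) * ((C1 * C2 * (1 + t) ^ (2 * M)) * (1 + |y|) ^ (2 * M)) := by
        gcongr
    _ = _ := by
        rw [pow_add (1 + |y|) (n + 2) (2 * M)]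
        field_simp

/-- decay of the integrand on the line `c` -/
lemma K0_decay (D1 : DF F1 c R M C1) (D2 : DF F2 c R M C2) (hc : 1 / 2 ≤ c) {n : ℕ} {CN : ℝ}
    (hCN : 0 ≤ CN)
    (hP : ∀ z : ℂ, 0 ≤ z.re → ‖P ψ z‖ * (1 + ‖z‖) ^ (n + 2 + 2 * M) ≤ CN * Real.exp (ξ1 * z.re))
    {L : ℝ} (hL : 1 ≤ L) (t : ℝ) (y : ℝ) :
    ‖P ψ ((L * (c - 1 / 2) : ℝ) + L * y * I) *
      (F1 (c + (y + t : ℝ) * I) * F2 (c + (y - t : ℝ) * I))‖ ≤
      (CN * (C1 * C2 * Real.exp (ξ1 * (L * (c - 1 / 2))))) / (1 + |y|) ^ (n + 2) := by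
  have e0 : ((L * (c - 1 / 2) : ℝ) + (L:ℂ) * y * I).re = L * (c - 1 / 2) := by simp
  have e1 : ((L * (c - 1 / 2) : ℝ) + (L:ℂ) * y * I).im = L * y := by simp
  have hLc : 0 ≤ L * (c - 1 / 2) := mul_nonneg (by linarith) (by linarith)
  have h1 := P_bd_line (ψ := ψ) hP (z := (L * (c - 1 / 2) : ℝ) + (L:ℂ) * y * I) (y := y)
    (by rw [e0]; exact hLc) (by
    rw [e1, abs_mul, abs_of_pos (by linarith : 0 < L)]
    exact le_mul_of_one_le_left (abs_nonneg _) hL)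
  rw [e0] at h1
  have h2 := D1.bdc (y + t)
  have h3 := D2.bdc (y - t)
  rw [norm_mul, norm_mul]
  have hC1 := D1.hC
  have hC2 := D2.hC
  have hy : 1 ≤ 1 + |y| := by have := abs_nonneg y; linarith
  have hy0 : 0 < 1 + |y| := by linarith
  calc _ ≤ (CN * Real.exp (ξ1 * (L * (c - 1 / 2))) / (1 + |y|) ^ (n + 2 + 2 * M)) * (C1 * C2) := by
        gcongr
    _ ≤ (CN * Real.exp (ξ1 * (L * (c - 1 / 2))) / (1 + |y|) ^ (n + 2)) * (C1 * C2) := by
        refine mul_le_mul_of_nonneg_right ?_ (by positivity)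
        refine div_le_div_of_nonneg_left (by positivity) (by positivity) ?_
        exact pow_le_pow_right₀ hy (by omega)
    _ = _ := by ring

lemma I0_cont (h : TF ξ1 ψ) (D1 : DF F1 c R M C1) (D2 : DF F2 c R M C2) (L t : ℝ) :
    Continuous (fun y : ℝ => P ψ (L * y * I) *
      (F1 (1 / 2 + (y + t : ℝ) * I) * F2 (1 / 2 + (y - t : ℝ) * I))) := by
  have hPc : Continuous (P ψ) := (P_diff h).continuous
  have h1 := D1.line.comp (by fun_prop : Continuous fun y : ℝ => y + t)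
  have h2 := D2.line.comp (by fun_prop : Continuous fun y : ℝ => y - t)
  exact (hPc.comp (by fun_prop : Continuous fun y : ℝ => (L:ℂ) * y * I)).mul (h1.mul h2)

lemma K0_cont (h : TF ξ1 ψ) (D1 : DF F1 c R M C1) (D2 : DF F2 c R M C2) (L t : ℝ) :
    Continuous (fun y : ℝ => P ψ ((L * (c - 1 / 2) : ℝ) + L * y * I) *
      (F1 (c + (y + t : ℝ) * I) * F2 (c + (y - t : ℝ) * I))) := by
  have hPc : Continuous (P ψ) := (P_diff h).continuous
  have h1 := D1.cline.comp (by fun_prop : Continuous fun y : ℝ => y + t)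
  have h2 := D2.cline.comp (by fun_prop : Continuous fun y : ℝ => y - t)
  exact (hPc.comp (by fun_prop : Continuous fun y : ℝ => ((L * (c - 1 / 2) : ℝ) : ℂ) + (L:ℂ) * y * I)).mul
    (h1.mul h2)

theorem shift (h : TF ξ1 ψ) (hξ : 0 ≤ ξ1) (D1 : DF F1 c R M C1) (D2 : DF F2 c R M C2)
    (hc : 1 / 2 ≤ c) (n : ℕ) :
    ∃ C' : ℝ, 0 ≤ C' ∧ ∀ L U t : ℝ, 1 ≤ L → 1 ≤ U → 2 * R ≤ U → U ≤ t →
      ‖I0 ψ F1 F2 L t - K0 ψ F1 F2 c L t‖ ≤
        C' * (Real.exp (ξ1 * (L * (c - 1 / 2))) * (1 + t) ^ (2 * M)) / U ^ n := by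
  obtain ⟨CN, hCN, hP⟩ := P_bound h (n + 2 + 2 * M)
  have hC1 := D1.hC
  have hC2 := D2.hC
  have hJ := J2_nonneg
  have hc0 : 0 ≤ c - 1 / 2 := by linarith
  refine ⟨CN * (C1 * C2) * (2 * J2 + 2 * (c - 1 / 2)) * 2 ^ n, by positivity, ?_⟩
  intro L U t hL hU hRU hUt
  have ht : 0 ≤ t := by linarith
  have hLc : 0 ≤ L * (c - 1 / 2) := mul_nonneg (by linarith) hc0
  set E : ℝ := Real.exp (ξ1 * (L * (c - 1 / 2))) with hE
  have hE1 : 1 ≤ E := Real.one_le_exp (mul_nonneg hξ hLc)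
  set Q : ℝ := (1 + t) ^ (2 * M) with hQ
  have hQ1 : 1 ≤ Q := one_le_pow₀ (by linarith)
  set B : ℝ := CN * (C1 * C2) * (E * Q) with hB
  have hB0 : 0 ≤ B := by positivity
  set Y : ℝ := U / 2 with hY
  have hY0 : 0 ≤ Y := by positivity
  -- the two tails
  have t1 := tail_le (I0_cont h D1 D2 L t) (B := B) (n := n) hB0 (fun y => by
    refine (I0_decay D1 D2 hCN hP hL ht y).trans ?_
    gcongr
    rw [hB]
    calc CN * (C1 * C2 * (1 + t) ^ (2 * M)) = CN * (C1 * C2) * (1 * Q) := by rw [hQ]; ring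
      _ ≤ _ := by gcongr) hY0
  have t2 := tail_le (K0_cont h D1 D2 L t) (B := B) (n := n) hB0 (fun y => by
    refine (K0_decay D1 D2 hc hCN hP hL t y).trans ?_
    gcongr
    rw [hB]
    calc CN * (C1 * C2 * E) = CN * (C1 * C2) * (E * 1) := by ring
      _ ≤ _ := by gcongr) hY0
  -- the rectangle
  set f : ℂ → ℂ := fun s => P ψ (L * (s - 1 / 2)) * (F1 (s + t * I) * F2 (s - t * I)) with hf
  have him1 : ∀ s : ℂ, |s.im| ≤ Y → R ≤ |(s + t * I).im| ∧ R ≤ |(s - t * I).im| := by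
    intro s hs
    rw [abs_le] at hs
    have e1 : (s + t * I).im = s.im + t := by simp
    have e2 : (s - t * I).im = s.im - t := by simp
    rw [e1, e2]
    constructor
    · refine le_trans ?_ (le_abs_self _); linarith
    · refine le_trans ?_ (neg_le_abs _); linarith
  have hdiff : ∀ s : ℂ, 1 / 2 ≤ s.re → s.re ≤ c → |s.im| ≤ Y → DifferentiableAt ℂ f s := by
    intro s h1 h2 h3
    obtain ⟨i1, i2⟩ := him1 s h3
    have d1 : DifferentiableAt ℂ (fun s : ℂ => P ψ (L * (s - 1 / 2))) s :=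
      ((P_diff h) _).comp s (by fun_prop)
    have d2 : DifferentiableAt ℂ (fun s : ℂ => F1 (s + t * I)) s :=
      (D1.diff (s + t * I) (by simpa using h1) (by simpa using h2) i1).comp s (by fun_prop)
    have d3 : DifferentiableAt ℂ (fun s : ℂ => F2 (s - t * I)) s :=
      (D2.diff (s - t * I) (by simpa using h1) (by simpa using h2) i2).comp s (by fun_prop)
    exact d1.mul (d2.mul d3)
  have hrect := Complex.integral_boundary_rect_eq_zero_of_differentiableOn f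
    ((1 / 2 : ℝ) + (-Y : ℝ) * I) ((c : ℝ) + (Y : ℝ) * I) (by
      intro s hs
      rw [mem_reProdIm] at hs
      simp only [add_re, ofReal_re, mul_re, I_re, mul_zero, ofReal_im, I_im, mul_one, sub_self,
        add_zero, add_im, mul_im, zero_add] at hs
      rw [uIcc_of_le (by linarith), uIcc_of_le (by linarith)] at hs
      exact (hdiff s hs.1.1 hs.1.2 (abs_le.2 ⟨hs.2.1, hs.2.2⟩)).differentiableWithinAt)
  simp only [add_re, ofReal_re, mul_re, I_re, mul_zero, ofReal_im, I_im, mul_one, sub_self,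
    add_zero, add_im, mul_im, zero_add] at hrect
  have hor : ∀ x ∈ uIoc (1 / 2 : ℝ) c, ∀ y : ℝ, |y| = Y → ‖f (x + y * I)‖ ≤ B / (1 + Y) ^ n := by
    intro x hx y hy
    rw [uIoc_of_le hc] at hx
    have hx0 : 1 / 2 ≤ x := hx.1.le
    have e0 : ((L:ℂ) * ((x:ℂ) + y * I - 1 / 2)).re = L * (x - 1 / 2) := by
      have : ((L:ℂ) * ((x:ℂ) + y * I - 1 / 2)) = ((L * (x - 1 / 2) : ℝ) : ℂ) + (L * y : ℝ) * I := by
        push_cast; ring
      rw [this]; simp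
    have e1 : ((L:ℂ) * ((x:ℂ) + y * I - 1 / 2)).im = L * y := by
      have : ((L:ℂ) * ((x:ℂ) + y * I - 1 / 2)) = ((L * (x - 1 / 2) : ℝ) : ℂ) + (L * y : ℝ) * I := by
        push_cast; ring
      rw [this]; simp
    have hre : 0 ≤ L * (x - 1 / 2) := mul_nonneg (by linarith) (by linarith)
    have h1 := P_bd_line (ψ := ψ) hP (z := (L:ℂ) * ((x:ℂ) + y * I - 1 / 2)) (y := y)
      (by rw [e0]; exact hre) (by
        rw [e1, abs_mul, abs_of_pos (by linarith : 0 < L)]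
        exact le_mul_of_one_le_left (abs_nonneg _) hL)
    rw [e0, hy] at h1
    have h1' : Real.exp (ξ1 * (L * (x - 1 / 2))) ≤ E := by
      rw [hE]
      refine Real.exp_le_exp.2 (mul_le_mul_of_nonneg_left (mul_le_mul_of_nonneg_left ?_ (by linarith)) hξ)
      linarith [hx.2]
    have hs3 : |((x:ℂ) + y * I).im| ≤ Y := by
      have : ((x:ℂ) + y * I).im = y := by simp
      rw [this, hy]
    obtain ⟨i1, i2⟩ := him1 _ hs3
    have g1 := D1.bd ((x:ℂ) + y * I + t * I) (by simpa using hx0) (by simpa using hx.2) i1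
    have g2 := D2.bd ((x:ℂ) + y * I - t * I) (by simpa using hx0) (by simpa using hx.2) i2
    have e2 : ((x:ℂ) + y * I + t * I).im = y + t := by simp
    have e3 : ((x:ℂ) + y * I - t * I).im = y - t := by simp
    rw [e2] at g1
    rw [e3] at g2
    have h3 := one_add_abs_add y t ht
    have h4 := one_add_abs_sub y t ht
    rw [hy] at h3 h4
    have hYp : 0 < 1 + Y := by linarith
    rw [hf]
    simp only
    rw [norm_mul, norm_mul]
    calc _ ≤ (CN * E / (1 + Y) ^ (n + 2 + 2 * M)) *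
          ((C1 * ((1 + Y) * (1 + t)) ^ M) * (C2 * ((1 + Y) * (1 + t)) ^ M)) := by
          have a1 : ‖P ψ (↑L * (↑x + ↑y * I - 1 / 2))‖ ≤ CN * E / (1 + Y) ^ (n + 2 + 2 * M) := by
            refine h1.trans ?_
            gcongr
          have a2 : ‖F1 (↑x + ↑y * I + ↑t * I)‖ ≤ C1 * ((1 + Y) * (1 + t)) ^ M := by
            refine g1.trans ?_
            gcongr
          have a3 : ‖F2 (↑x + ↑y * I - ↑t * I)‖ ≤ C2 * ((1 + Y) * (1 + t)) ^ M := by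
            refine g2.trans ?_
            gcongr
          gcongr
      _ = B / (1 + Y) ^ (n + 2) := by
          rw [hB, hQ, two_mul M, pow_add (1 + Y) (n + 2) (M + M), pow_add (1 + Y) M M,
            pow_add (1 + t) M M, mul_pow]
          field_simp
      _ ≤ B / (1 + Y) ^ n := by
          refine div_le_div_of_nonneg_left hB0 (by positivity) ?_
          exact pow_le_pow_right₀ (by linarith) (by omega)
  have hh1 : ‖∫ x in (1 / 2 : ℝ)..c, f (x + (-Y : ℝ) * I)‖ ≤ B / (1 + Y) ^ n * |c - 1 / 2| :=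
    intervalIntegral.norm_integral_le_of_norm_le_const fun x hx =>
      hor x hx (-Y) (by rw [abs_neg, abs_of_nonneg hY0])
  have hh2 : ‖∫ x in (1 / 2 : ℝ)..c, f (x + (Y : ℝ) * I)‖ ≤ B / (1 + Y) ^ n * |c - 1 / 2| :=
    intervalIntegral.norm_integral_le_of_norm_le_const fun x hx =>
      hor x hx Y (abs_of_nonneg hY0)
  rw [abs_of_nonneg hc0] at hh1 hh2
  have ei : (∫ y in (-Y)..Y, P ψ (L * y * I) *
      (F1 (1 / 2 + (y + t : ℝ) * I) * F2 (1 / 2 + (y - t : ℝ) * I))) =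
      ∫ y in (-Y)..Y, f ((1 / 2 : ℝ) + y * I) := by
    congr 1; funext y
    have q1 : (L:ℂ) * y * I = L * (((1 / 2 : ℝ) : ℂ) + y * I - 1 / 2) := by push_cast; ring
    have q2 : (1 / 2 : ℂ) + ((y + t : ℝ) : ℂ) * I = ((1 / 2 : ℝ) : ℂ) + y * I + t * I := by
      push_cast; ring
    have q3 : (1 / 2 : ℂ) + ((y - t : ℝ) : ℂ) * I = ((1 / 2 : ℝ) : ℂ) + y * I - t * I := by
      push_cast; ring
    rw [q1, q2, q3]
  have ek : (∫ y in (-Y)..Y, P ψ ((L * (c - 1 / 2) : ℝ) + L * y * I) *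
      (F1 (c + (y + t : ℝ) * I) * F2 (c + (y - t : ℝ) * I))) =
      ∫ y in (-Y)..Y, f ((c : ℝ) + y * I) := by
    congr 1; funext y
    have q1 : ((L * (c - 1 / 2) : ℝ) : ℂ) + L * y * I = L * ((c : ℂ) + y * I - 1 / 2) := by
      push_cast; ring
    have q2 : (c : ℂ) + ((y + t : ℝ) : ℂ) * I = (c : ℂ) + y * I + t * I := by
      push_cast; ring
    have q3 : (c : ℂ) + ((y - t : ℝ) : ℂ) * I = (c : ℂ) + y * I - t * I := by
      push_cast; ring
    rw [q1, q2, q3]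
  rw [ei] at t1
  rw [ek] at t2
  have hdiffs : ‖(∫ y in (-Y)..Y, f ((1 / 2 : ℝ) + y * I)) - ∫ y in (-Y)..Y, f ((c : ℝ) + y * I)‖ ≤
      2 * (B / (1 + Y) ^ n * (c - 1 / 2)) := by
    have e5 : I • ((∫ y in (-Y)..Y, f ((1 / 2 : ℝ) + y * I)) - ∫ y in (-Y)..Y, f ((c : ℝ) + y * I)) =
        (∫ x in (1 / 2 : ℝ)..c, f (x + (-Y : ℝ) * I)) - ∫ x in (1 / 2 : ℝ)..c, f (x + (Y : ℝ) * I) := by
      rw [smul_sub]
      linear_combination (-1 : ℂ) * hrect
    have e6 := congrArg norm e5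
    rw [norm_smul, norm_I, one_mul] at e6
    rw [e6]
    refine (norm_sub_le _ _).trans ?_
    linarith
  have hfin : ‖I0 ψ F1 F2 L t - K0 ψ F1 F2 c L t‖ ≤
      B * J2 / (1 + Y) ^ n + 2 * (B / (1 + Y) ^ n * (c - 1 / 2)) + B * J2 / (1 + Y) ^ n := by
    have e7 : I0 ψ F1 F2 L t - K0 ψ F1 F2 c L t =
        (I0 ψ F1 F2 L t - ∫ y in (-Y)..Y, f ((1 / 2 : ℝ) + y * I)) +
        ((∫ y in (-Y)..Y, f ((1 / 2 : ℝ) + y * I)) - ∫ y in (-Y)..Y, f ((c : ℝ) + y * I)) -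
        (K0 ψ F1 F2 c L t - ∫ y in (-Y)..Y, f ((c : ℝ) + y * I)) := by ring
    rw [e7]
    refine (norm_sub_le _ _).trans (add_le_add ((norm_add_le _ _).trans (add_le_add ?_ hdiffs)) ?_)
    · exact t1
    · exact t2
  refine hfin.trans ?_
  have hYU : U ^ n ≤ 2 ^ n * (1 + Y) ^ n := by
    rw [← mul_pow]
    exact pow_le_pow_left₀ (by linarith) (by rw [hY]; linarith) n
  have hU0 : 0 < U ^ n := by positivity
  have hYp : 0 < (1 + Y) ^ n := by positivity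
  calc _ = (B * (2 * J2 + 2 * (c - 1 / 2))) / (1 + Y) ^ n := by ring
    _ ≤ (B * (2 * J2 + 2 * (c - 1 / 2))) * 2 ^ n / U ^ n := by
        rw [div_le_div_iff₀ hYp hU0]
        have : 0 ≤ B * (2 * J2 + 2 * (c - 1 / 2)) := by positivity
        calc _ ≤ B * (2 * J2 + 2 * (c - 1 / 2)) * (2 ^ n * (1 + Y) ^ n) :=
              mul_le_mul_of_nonneg_left hYU this
          _ = _ := by ring
    _ = _ := by rw [hB]; ring

end

end

end Pool.Agent.W182.KO
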