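import Pool.Agent.W182.KO.XX2

set_option autoImplicit false

/-! Exact shift of a vertical line for functions with decay. -/

namespace Pool.Agent.W182.KO

open Complex Filter Topology MeasureTheory Set

noncomputable section

lemma strip_shift {f : ℂ → ℂ} {a b B : ℝ} (hab : a ≤ b) (hB0 : 0 ≤ B)
    (hd : ∀ s : ℂ, a ≤ s.re → s.re ≤ b → DifferentiableAt ℂ f s)
    (hB : ∀ s : ℂ, a ≤ s.re → s.re ≤ b → ‖f s‖ ≤ B / (1 + |s.im|) ^ 2) :
    ∫ y : ℝ, f ((a : ℂ) + y * I) = ∫ y : ℝ, f ((b : ℂ) + y * I) := by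
  have hcont : ∀ x : ℝ, a ≤ x → x ≤ b → Continuous (fun y : ℝ => f ((x : ℂ) + y * I)) := by
    intro x h1 h2
    rw [continuous_iff_continuousAt]
    intro y
    have h3 := (hd ((x : ℂ) + y * I) (by simpa using h1) (by simpa using h2)).continuousAt
    exact ContinuousAt.comp (f := fun y : ℝ => ((x : ℂ) + y * I)) h3 (by fun_prop)
  have hint : ∀ x : ℝ, a ≤ x → x ≤ b → Integrable (fun y : ℝ => f ((x : ℂ) + y * I)) := by
    intro x h1 h2
    refine (one_add_inv_sq_int.const_mul B).mono' (hcont x h1 h2).aestronglyMeasurable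
      (Eventually.of_forall fun y => ?_)
    have := hB ((x : ℂ) + y * I) (by simpa using h1) (by simpa using h2)
    have e : ((x : ℂ) + y * I).im = y := by simp
    rw [e] at this
    rwa [← div_eq_mul_inv]
  have ta := intervalIntegral_tendsto_integral (hint a le_rfl hab) tendsto_neg_atTop_atBot tendsto_id
  have tb := intervalIntegral_tendsto_integral (hint b hab le_rfl) tendsto_neg_atTop_atBot tendsto_id
  have hdiff : Tendsto (fun Y : ℝ => (∫ y in (-Y)..Y, f ((a : ℂ) + y * I)) -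
      ∫ y in (-Y)..Y, f ((b : ℂ) + y * I)) atTop (𝓝 0) := by
    rw [tendsto_zero_iff_norm_tendsto_zero]
    have h6 : Tendsto (fun Y : ℝ => 2 * (B * (b - a)) * Y⁻¹) atTop (𝓝 0) := by
      simpa using tendsto_inv_atTop_zero.const_mul (2 * (B * (b - a)))
    refine squeeze_zero' (Eventually.of_forall fun _ => norm_nonneg _) ?_ h6
    filter_upwards [eventually_gt_atTop 0] with Y hY
    have hrect := Complex.integral_boundary_rect_eq_zero_of_differentiableOn f
      ((a : ℝ) + (-Y : ℝ) * I) ((b : ℝ) + (Y : ℝ) * I) (by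
        intro s hs
        rw [mem_reProdIm] at hs
        simp only [add_re, ofReal_re, mul_re, I_re, mul_zero, ofReal_im, I_im, mul_one, sub_self,
          add_zero, add_im, mul_im, zero_add] at hs
        rw [uIcc_of_le hab, uIcc_of_le (by linarith)] at hs
        exact (hd s hs.1.1 hs.1.2).differentiableWithinAt)
    simp only [add_re, ofReal_re, mul_re, I_re, mul_zero, ofReal_im, I_im, mul_one, sub_self,
      add_zero, add_im, mul_im, zero_add] at hrect
    have hor : ∀ y : ℝ, |y| = Y → ∀ x ∈ uIoc a b, ‖f (x + y * I)‖ ≤ B * Y⁻¹ := by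
      intro y hy x hx
      rw [uIoc_of_le hab] at hx
      have := hB ((x : ℂ) + y * I) (by simpa using hx.1.le) (by simpa using hx.2)
      have e : ((x : ℂ) + y * I).im = y := by simp
      rw [e, hy] at this
      refine this.trans ?_
      rw [← div_eq_mul_inv]
      refine div_le_div_of_nonneg_left hB0 hY ?_
      nlinarith
    have hh1 : ‖∫ x in a..b, f (x + (-Y : ℝ) * I)‖ ≤ B * Y⁻¹ * |b - a| :=
      intervalIntegral.norm_integral_le_of_norm_le_const
        (hor (-Y) (by rw [abs_neg, abs_of_pos hY]))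
    have hh2 : ‖∫ x in a..b, f (x + (Y : ℝ) * I)‖ ≤ B * Y⁻¹ * |b - a| :=
      intervalIntegral.norm_integral_le_of_norm_le_const (hor Y (abs_of_pos hY))
    rw [abs_of_nonneg (by linarith)] at hh1 hh2
    have e5 : I • ((∫ y in (-Y)..Y, f ((a : ℝ) + y * I)) - ∫ y in (-Y)..Y, f ((b : ℝ) + y * I)) =
        (∫ x in a..b, f (x + (-Y : ℝ) * I)) - ∫ x in a..b, f (x + (Y : ℝ) * I) := by
      rw [smul_sub]
      linear_combination (-1 : ℂ) * hrect
    have e6 := congrArg norm e5
    rw [norm_smul, norm_I, one_mul] at e6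
    rw [e6]
    refine (norm_sub_le _ _).trans ?_
    linarith
  have h7 := ta.sub tb
  have h8 := tendsto_nhds_unique h7 hdiff
  exact sub_eq_zero.1 h8

/-- analytic data: no poles, polynomial growth -/
structure DG (F : ℂ → ℂ) (c : ℝ) (M : ℕ) (C : ℝ) : Prop where
  hC : 0 ≤ C
  diff : ∀ s : ℂ, 1 / 2 ≤ s.re → s.re ≤ c → DifferentiableAt ℂ F s
  bd : ∀ s : ℂ, 1 / 2 ≤ s.re → s.re ≤ c → ‖F s‖ ≤ C * (1 + |s.im|) ^ M

theorem shift0 {ξ1 : ℝ} {ψ : ℝ → ℂ} {F1 F2 : ℂ → ℂ} {c C1 C2 : ℝ} {M : ℕ} (h : TF ξ1 ψ)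
    (hc : 1 / 2 ≤ c) (D1 : DG F1 c M C1) (D2 : DG F2 c M C2) {L : ℝ} (hL : 1 ≤ L) {t : ℝ} (ht : 0 ≤ t) :
    I0 ψ F1 F2 L t = K0 ψ F1 F2 c L t := by
  obtain ⟨CN, hCN, hP⟩ := P_bound h (2 + 2 * M)
  have hC1 := D1.hC
  have hC2 := D2.hC
  set f : ℂ → ℂ := fun s => P ψ (L * (s - 1 / 2)) * (F1 (s + t * I) * F2 (s - t * I)) with hf
  have hL0 : 0 < L := by linarith
  set E : ℝ := Real.exp (|ξ1| * (L * (c - 1 / 2))) with hE
  have key := strip_shift (f := f) (a := 1 / 2) (b := c)
    (B := CN * E * (C1 * C2 * (1 + t) ^ (2 * M))) hc (by positivity) ?_ ?_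
  · unfold I0 K0
    have ei : ∀ y : ℝ, P ψ (L * y * I) *
        (F1 (1 / 2 + (y + t : ℝ) * I) * F2 (1 / 2 + (y - t : ℝ) * I)) = f ((1 / 2 : ℝ) + y * I) := by
      intro y
      have q1 : (L:ℂ) * y * I = L * (((1 / 2 : ℝ) : ℂ) + y * I - 1 / 2) := by push_cast; ring
      have q2 : (1 / 2 : ℂ) + ((y + t : ℝ) : ℂ) * I = ((1 / 2 : ℝ) : ℂ) + y * I + t * I := by
        push_cast; ring
      have q3 : (1 / 2 : ℂ) + ((y - t : ℝ) : ℂ) * I = ((1 / 2 : ℝ) : ℂ) + y * I - t * I := by
        push_cast; ring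
      rw [q1, q2, q3]
    have ek : ∀ y : ℝ, P ψ ((L * (c - 1 / 2) : ℝ) + L * y * I) *
        (F1 (c + (y + t : ℝ) * I) * F2 (c + (y - t : ℝ) * I)) = f ((c : ℝ) + y * I) := by
      intro y
      have q1 : ((L * (c - 1 / 2) : ℝ) : ℂ) + L * y * I = L * ((c : ℂ) + y * I - 1 / 2) := by
        push_cast; ring
      have q2 : (c : ℂ) + ((y + t : ℝ) : ℂ) * I = (c : ℂ) + y * I + t * I := by
        push_cast; ring
      have q3 : (c : ℂ) + ((y - t : ℝ) : ℂ) * I = (c : ℂ) + y * I - t * I := by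
        push_cast; ring
      rw [q1, q2, q3]
    simp only [ei, ek]
    exact key
  · intro s h1 h2
    have d1 : DifferentiableAt ℂ (fun s : ℂ => P ψ (L * (s - 1 / 2))) s :=
      ((P_diff h) _).comp s (by fun_prop)
    have d2 : DifferentiableAt ℂ (fun s : ℂ => F1 (s + t * I)) s :=
      (D1.diff (s + t * I) (by simpa using h1) (by simpa using h2)).comp s (by fun_prop)
    have d3 : DifferentiableAt ℂ (fun s : ℂ => F2 (s - t * I)) s :=
      (D2.diff (s - t * I) (by simpa using h1) (by simpa using h2)).comp s (by fun_prop)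
    exact d1.mul (d2.mul d3)
  · intro s h1 h2
    set x := s.re with hx
    set y := s.im with hy
    have hs : s = (x : ℂ) + y * I := (Complex.re_add_im s).symm
    have e0 : ((L:ℂ) * (s - 1 / 2)).re = L * (x - 1 / 2) := by
      have : ((L:ℂ) * (s - 1 / 2)) = ((L * (x - 1 / 2) : ℝ) : ℂ) + (L * y : ℝ) * I := by
        rw [hs]; push_cast; ring
      rw [this]; simp
    have e1 : ((L:ℂ) * (s - 1 / 2)).im = L * y := by
      have : ((L:ℂ) * (s - 1 / 2)) = ((L * (x - 1 / 2) : ℝ) : ℂ) + (L * y : ℝ) * I := by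
        rw [hs]; push_cast; ring
      rw [this]; simp
    have hre : 0 ≤ L * (x - 1 / 2) := mul_nonneg (by linarith) (by linarith)
    have g0 := P_bd_line (ψ := ψ) hP (z := (L:ℂ) * (s - 1 / 2)) (y := y)
      (by rw [e0]; exact hre) (by
        rw [e1, abs_mul, abs_of_pos hL0]
        exact le_mul_of_one_le_left (abs_nonneg _) hL)
    rw [e0] at g0
    have h1' : Real.exp (ξ1 * (L * (x - 1 / 2))) ≤ E := by
      rw [hE]
      refine Real.exp_le_exp.2 ?_
      calc ξ1 * (L * (x - 1 / 2)) ≤ |ξ1| * (L * (x - 1 / 2)) :=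
            mul_le_mul_of_nonneg_right (le_abs_self _) hre
        _ ≤ _ := by gcongr
    have g1 := D1.bd (s + t * I) (by simpa using h1) (by simpa using h2)
    have g2 := D2.bd (s - t * I) (by simpa using h1) (by simpa using h2)
    have e2 : (s + t * I).im = y + t := by simp [hy]
    have e3 : (s - t * I).im = y - t := by simp [hy]
    rw [e2] at g1
    rw [e3] at g2
    have h3 := one_add_abs_add y t ht
    have h4 := one_add_abs_sub y t ht
    have hYp : 0 < 1 + |y| := by positivity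
    rw [hf]
    simp only
    rw [norm_mul, norm_mul]
    calc _ ≤ (CN * E / (1 + |y|) ^ (2 + 2 * M)) *
          ((C1 * ((1 + |y|) * (1 + t)) ^ M) * (C2 * ((1 + |y|) * (1 + t)) ^ M)) := by
          have a1 : ‖P ψ (↑L * (s - 1 / 2))‖ ≤ CN * E / (1 + |y|) ^ (2 + 2 * M) := by
            refine g0.trans ?_
            gcongr
          have a2 : ‖F1 (s + ↑t * I)‖ ≤ C1 * ((1 + |y|) * (1 + t)) ^ M := by
            refine g1.trans ?_
            gcongr
          have a3 : ‖F2 (s - ↑t * I)‖ ≤ C2 * ((1 + |y|) * (1 + t)) ^ M := by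
            refine g2.trans ?_
            gcongr
          gcongr
      _ = _ := by
          rw [two_mul M, pow_add (1 + |y|) 2 (M + M), pow_add (1 + |y|) M M,
            pow_add (1 + t) M M, mul_pow]
          field_simp

/-- product of reflected shifted zeta functions -/
def ZR {k : ℕ} (z : Fin k → ℝ) (s : ℂ) : ℂ := ∏ j, riemannZeta (1 - s - z j * I)

/-- product of the functional equation factors -/
def XZ {k : ℕ} (z : Fin k → ℝ) (s : ℂ) : ℂ := ∏ j, XX (s + z j * I)

lemma ZR_eq {k : ℕ} (z : Fin k → ℝ) {s : ℂ} (hs : 0 < s.re) (h1 : ∀ j, s + z j * I ≠ 1) :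
    ZR z s = XZ z s * ZP z s := by
  unfold ZR XZ ZP
  rw [← Finset.prod_mul_distrib]
  refine Finset.prod_congr rfl fun j _ => ?_
  rw [← zeta_XX (by simpa using hs) (h1 j)]
  congr 1; ring

lemma zeta_refl_bound {c : ℝ} (hc : 1 ≤ c) : ∃ (K : ℝ) (B : ℕ), 1 ≤ K ∧ ∀ s : ℂ, 1 / 2 ≤ s.re →
    s.re ≤ c → ‖riemannZeta (1 - s)‖ ≤ K * (1 + |s.im|) ^ B := by
  obtain ⟨K1, hK1, hX⟩ := XX_bound hc
  obtain ⟨B, hB⟩ := exists_nat_ge (c - 1 / 2)
  -- near the real axis by compactness
  have hcomp : IsCompact (Icc (1 / 2 : ℝ) c ×ℂ Icc (-1 : ℝ) 1) := isCompact_Icc.reProdIm isCompact_Icc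
  have hcont : ContinuousOn (fun s : ℂ => riemannZeta (1 - s)) (Icc (1 / 2 : ℝ) c ×ℂ Icc (-1 : ℝ) 1) := by
    intro s hs
    have h1 : (1 - s) ≠ 1 := by
      intro h
      have : s = 0 := by linear_combination -h
      rw [this] at hs
      have := hs.1.1
      simp at this
      linarith
    exact ((differentiableAt_riemannZeta h1).comp s (by fun_prop)).continuousAt.continuousWithinAt
  obtain ⟨K2, hK2⟩ := hcomp.exists_bound_of_continuousOn hcont
  refine ⟨max K2 (K1 * (6 * (c + 2) ^ 2)), B + 2, ?_, fun s h1 h2 => ?_⟩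
  · refine le_max_of_le_right ?_
    nlinarith
  have him : 1 ≤ 1 + |s.im| := by have := abs_nonneg s.im; linarith
  rcases le_total |s.im| 1 with hs | hs
  · have := hK2 s ⟨⟨h1, h2⟩, abs_le.1 hs⟩
    calc _ ≤ K2 := this
      _ ≤ max K2 (K1 * (6 * (c + 2) ^ 2)) * 1 := by rw [mul_one]; exact le_max_left _ _
      _ ≤ _ := by
          have : (1:ℝ) ≤ (1 + |s.im|) ^ (B + 2) := one_le_pow₀ him
          have h0 : 0 ≤ max K2 (K1 * (6 * (c + 2) ^ 2)) := le_max_of_le_right (by positivity)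
          gcongr
  · have hne : s ≠ 1 := by
      rintro rfl
      simp at hs
      linarith
    rw [zeta_XX (by linarith) hne, norm_mul]
    have h3 := hX s.re s.im h1 h2
    rw [Complex.re_add_im] at h3
    have h4 := H306R2.zeta_norm_le (s := s) h1 (by
      have := Complex.abs_im_le_norm (s - 1)
      simp at this
      linarith)
    have h5 : ‖s‖ + 1 ≤ (c + 2) * (1 + |s.im|) := by
      have := Complex.norm_le_abs_re_add_abs_im s
      rw [abs_of_nonneg (by linarith : 0 ≤ s.re)] at this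
      have := abs_nonneg s.im
      nlinarith
    have h6 : (1 + |s.im|) ^ (c - 1 / 2) ≤ (1 + |s.im|) ^ B := by
      rw [← Real.rpow_natCast]
      exact Real.rpow_le_rpow_of_exponent_le him hB
    have hK10 : 0 ≤ K1 := by linarith
    calc _ ≤ (K1 * (1 + |s.im|) ^ (c - 1 / 2)) * (6 * (‖s‖ + 1) ^ 2) := by gcongr
      _ ≤ (K1 * (1 + |s.im|) ^ B) * (6 * ((c + 2) * (1 + |s.im|)) ^ 2) := by gcongr
      _ = (K1 * (6 * (c + 2) ^ 2)) * (1 + |s.im|) ^ (B + 2) := by ring
      _ ≤ _ := by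
          gcongr
          exact le_max_right _ _

lemma ZR_DG {k : ℕ} (z : Fin k → ℝ) {c : ℝ} (hc : 1 ≤ c) : ∃ M0 : ℕ, ∀ M : ℕ, M0 ≤ M →
    ∃ C, DG (ZR z) c M C := by
  obtain ⟨K, B, hK, hb⟩ := zeta_refl_bound hc
  refine ⟨B * k, fun M hM => ⟨∏ j : Fin k, (K * (1 + |z j|) ^ B), ⟨?_, ?_, ?_⟩⟩⟩
  · exact Finset.prod_nonneg fun j _ => by positivity
  · intro s h1 h2
    unfold ZR
    refine DifferentiableAt.fun_finsetProd (fun j _ => ?_)
    refine DifferentiableAt.comp s (differentiableAt_riemannZeta ?_) (by fun_prop)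
    intro h
    have := congrArg Complex.re h
    simp at this
    linarith
  · intro s h1 h2
    unfold ZR
    rw [norm_prod]
    have h3 : ∀ j ∈ (Finset.univ : Finset (Fin k)), ‖riemannZeta (1 - s - z j * I)‖ ≤
        (K * (1 + |z j|) ^ B) * (1 + |s.im|) ^ B := by
      intro j _
      have h4 := hb (s + z j * I) (by simpa using h1) (by simpa using h2)
      have e1 : 1 - (s + z j * I) = 1 - s - z j * I := by ring
      have e2 : (s + z j * I).im = s.im + z j := by simp
      rw [e1, e2] at h4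
      refine h4.trans ?_
      have h5 : 1 + |s.im + z j| ≤ (1 + |z j|) * (1 + |s.im|) := by
        have := abs_add_le s.im (z j)
        have := mul_nonneg (abs_nonneg s.im) (abs_nonneg (z j))
        nlinarith
      calc _ ≤ K * ((1 + |z j|) * (1 + |s.im|)) ^ B := by gcongr
        _ = _ := by rw [mul_pow]; ring
    refine (Finset.prod_le_prod (fun _ _ => norm_nonneg _) h3).trans ?_
    rw [Finset.prod_mul_distrib, Finset.prod_const, Finset.card_univ, Fintype.card_fin, ← pow_mul]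
    have h0 : 0 ≤ ∏ j : Fin k, (K * (1 + |z j|) ^ B) := Finset.prod_nonneg fun j _ => by positivity
    have : (1:ℝ) ≤ 1 + |s.im| := by have := abs_nonneg s.im; linarith
    gcongr

lemma DG.mono {F : ℂ → ℂ} {c C C' : ℝ} {M : ℕ} (h : DG F c M C) (hC : C ≤ C') : DG F c M C' where
  hC := h.hC.trans hC
  diff := h.diff
  bd s h1 h2 := (h.bd s h1 h2).trans (by gcongr)

end

end Pool.Agent.W182.KO
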