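import Pool.Agent.W182.KO.Strip
import Pool.Agent.W182.KO.Main

set_option autoImplicit false

/-! The upper edge: replacing the functional equation factors by their main terms. -/

namespace Pool.Agent.W182.KO

open Complex Filter Topology MeasureTheory Set
open scoped ContDiff

noncomputable section

/-- the main term of the product of the functional equation factors -/
def MM (c : ℝ) (k : ℕ) (S y t : ℝ) : ℂ :=
  exp ((((k * (2 * c - 1) : ℝ) : ℂ) + ((2 * k * y + S : ℝ) : ℂ) * I) *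
    Real.log (t / (2 * Real.pi)))

lemma prod_mm {k : ℕ} (c : ℝ) (z w : Fin k → ℝ) (y t : ℝ) :
    ∏ j, mm c ((y + z j) + (y + w j)) t = MM c k (∑ j, (z j + w j)) y t := by
  unfold mm MM
  rw [← Complex.exp_sum, ← Finset.sum_mul]
  congr 2
  rw [Finset.sum_add_distrib, ← Finset.sum_mul, ← Complex.ofReal_sum, ← Complex.ofReal_sum,
    Finset.sum_const, Finset.card_univ, Fintype.card_fin, nsmul_eq_mul]
  have e : ∑ j : Fin k, (y + z j + (y + w j)) = 2 * k * y + ∑ j, (z j + w j) := by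
    have : ∀ j : Fin k, y + z j + (y + w j) = 2 * y + (z j + w j) := fun j => by ring
    simp only [this]
    rw [Finset.sum_add_distrib, Finset.sum_const, Finset.card_univ, Fintype.card_fin, nsmul_eq_mul]
    ring
  rw [e]

lemma MM_norm {k : ℕ} (c S y : ℝ) {t : ℝ} (ht : 0 < t) :
    ‖MM c k S y t‖ = (t / (2 * Real.pi)) ^ (k * (2 * c - 1)) := by
  unfold MM
  rw [Complex.norm_exp, Real.rpow_def_of_pos (by positivity)]
  congr 1
  simp only [mul_re, add_re, ofReal_re, I_re, mul_zero, ofReal_im, I_im, mul_one, sub_self, add_zero,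
    sub_zero]
  ring

lemma prod_sub_le {ι : Type*} (s : Finset ι) (a b : ι → ℂ) {A δ : ℝ} (hA : 0 ≤ A) (hδ : 0 ≤ δ)
    (ha : ∀ j ∈ s, ‖a j‖ ≤ A) (hb : ∀ j ∈ s, ‖b j‖ ≤ A) (hd : ∀ j ∈ s, ‖a j - b j‖ ≤ δ) :
    ‖∏ j ∈ s, a j - ∏ j ∈ s, b j‖ * A ≤ s.card * δ * A ^ s.card := by
  classical
  induction s using Finset.induction_on with
  | empty => simp
  | insert i s hi ih =>
    rw [Finset.prod_insert hi, Finset.prod_insert hi, Finset.card_insert_of_notMem hi]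
    have h1 := ih (fun j hj => ha j (Finset.mem_insert_of_mem hj))
      (fun j hj => hb j (Finset.mem_insert_of_mem hj)) (fun j hj => hd j (Finset.mem_insert_of_mem hj))
    have h2 : ‖∏ j ∈ s, a j‖ ≤ A ^ s.card := by
      rw [norm_prod]
      refine (Finset.prod_le_prod (fun _ _ => norm_nonneg _)
        (fun j hj => ha j (Finset.mem_insert_of_mem hj))).trans ?_
      rw [Finset.prod_const]
    have h3 := hd i (Finset.mem_insert_self i s)
    have h4 := hb i (Finset.mem_insert_self i s)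
    have e : a i * ∏ j ∈ s, a j - b i * ∏ j ∈ s, b j =
        (a i - b i) * ∏ j ∈ s, a j + b i * (∏ j ∈ s, a j - ∏ j ∈ s, b j) := by ring
    rw [e]
    have h5 : ‖(a i - b i) * ∏ j ∈ s, a j + b i * (∏ j ∈ s, a j - ∏ j ∈ s, b j)‖ ≤
        δ * A ^ s.card + A * ‖∏ j ∈ s, a j - ∏ j ∈ s, b j‖ := by
      refine (norm_add_le _ _).trans (add_le_add ?_ ?_)
      · rw [norm_mul]; gcongr
      · rw [norm_mul]; gcongr
    calc _ ≤ (δ * A ^ s.card + A * ‖∏ j ∈ s, a j - ∏ j ∈ s, b j‖) * A := by gcongr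
      _ = δ * A ^ (s.card + 1) + A * (‖∏ j ∈ s, a j - ∏ j ∈ s, b j‖ * A) := by ring
      _ ≤ δ * A ^ (s.card + 1) + A * (s.card * δ * A ^ s.card) := by gcongr
      _ = _ := by push_cast; ring

theorem H_asymp {c : ℝ} (hc : 1 ≤ c) {k : ℕ} (hk : 1 ≤ k) (z w : Fin k → ℝ) :
    ∃ (K : ℝ) (B : ℕ), 0 ≤ K ∧ ∀ t y : ℝ, 1 ≤ t →
      ‖XZ z ((c : ℂ) + (y + t : ℝ) * I) * XZ w ((c : ℂ) + (y - t : ℝ) * I) -
        MM c k (∑ j, (z j + w j)) y t‖ ≤ K * (1 + |y|) ^ B * t ^ (k * (2 * c - 1) - 1) := by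
  obtain ⟨K1, B1, hK1, h1⟩ := pair_bound hc
  obtain ⟨K2, B2, hK2, h2⟩ := pair_asymp hc
  obtain ⟨m, rfl⟩ : ∃ m, k = m + 1 := ⟨k - 1, by omega⟩
  set W : ℝ := 1 + ∑ j, (|z j| + |w j|) with hW
  have hs0 : 0 ≤ ∑ j, (|z j| + |w j|) :=
    Finset.sum_nonneg fun j _ => add_nonneg (abs_nonneg _) (abs_nonneg _)
  have hW1 : 1 ≤ W := by rw [hW]; linarith
  have hWj : ∀ j, |z j| + |w j| ≤ W - 1 := by
    intro j
    rw [hW]
    have := Finset.single_le_sum (f := fun j => |z j| + |w j|)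
      (fun j _ => add_nonneg (abs_nonneg (z j)) (abs_nonneg (w j))) (Finset.mem_univ j)
    linarith
  refine ⟨(m + 1) * K2 * K1 ^ m * (2 * W) ^ (B2 + m * B1), B2 + m * B1, by positivity,
    fun t y ht => ?_⟩
  have ht0 : 0 < t := by linarith
  have hy0 := abs_nonneg y
  set V : ℝ := 2 * W * (1 + |y|) with hV
  have hV1 : 1 ≤ V := by rw [hV]; nlinarith
  have hYj : ∀ j, 1 + |y + z j| + |y + w j| ≤ V := by
    intro j
    have a1 := abs_add_le y (z j)
    have a2 := abs_add_le y (w j)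
    have a3 := hWj j
    rw [hV]
    nlinarith
  have hrw : XZ z ((c : ℂ) + (y + t : ℝ) * I) * XZ w ((c : ℂ) + (y - t : ℝ) * I) =
      ∏ j, (XX ((c : ℂ) + ((y + z j) + t : ℝ) * I) * XX ((c : ℂ) + ((y + w j) - t : ℝ) * I)) := by
    unfold XZ
    rw [← Finset.prod_mul_distrib]
    refine Finset.prod_congr rfl fun j _ => ?_
    congr 2
    · push_cast; ring
    · push_cast; ring
  rw [hrw, ← prod_mm]
  set A : ℝ := K1 * V ^ B1 * t ^ (2 * c - 1) with hA
  have htp : 1 ≤ t ^ (2 * c - 1) := Real.one_le_rpow ht (by linarith)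
  have hVB : 1 ≤ V ^ B1 := one_le_pow₀ hV1
  have hA0 : 0 < A := by positivity
  have hAt : t ^ (2 * c - 1) ≤ A := by
    rw [hA]
    have : 1 ≤ K1 * V ^ B1 := by nlinarith
    exact le_mul_of_one_le_left (by positivity) this
  set δ : ℝ := K2 * V ^ B2 * t ^ (2 * c - 2) with hδ
  have hmain := prod_sub_le (Finset.univ : Finset (Fin (m + 1)))
    (fun j => XX ((c : ℂ) + ((y + z j) + t : ℝ) * I) * XX ((c : ℂ) + ((y + w j) - t : ℝ) * I))
    (fun j => mm c ((y + z j) + (y + w j)) t) (A := A) (δ := δ) hA0.le (by positivity)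
    (fun j _ => ?_) (fun j _ => ?_) (fun j _ => ?_)
  · rw [Finset.card_univ, Fintype.card_fin] at hmain
    have h3 : ‖∏ j, (XX ((c : ℂ) + ((y + z j) + t : ℝ) * I) * XX ((c : ℂ) + ((y + w j) - t : ℝ) * I)) -
        ∏ j, mm c ((y + z j) + (y + w j)) t‖ ≤ (m + 1) * δ * A ^ m := by
      refine le_of_mul_le_mul_right ?_ hA0
      refine hmain.trans (le_of_eq ?_)
      push_cast
      ring
    refine h3.trans (le_of_eq ?_)
    rw [hδ, hA]
    have e1 : t ^ (2 * c - 2) * (t ^ (2 * c - 1)) ^ m = t ^ (((m + 1 : ℕ) : ℝ) * (2 * c - 1) - 1) := by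
      rw [← Real.rpow_natCast, ← Real.rpow_mul ht0.le, ← Real.rpow_add ht0]
      congr 1
      push_cast
      ring
    rw [← e1]
    have e2 : V ^ B2 * V ^ (B1 * m) = (2 * W) ^ (B2 + m * B1) * (1 + |y|) ^ (B2 + m * B1) := by
      rw [← pow_add, mul_comm B1 m, hV, mul_pow]
    calc _ = (m + 1) * K2 * K1 ^ m * (V ^ B2 * V ^ (B1 * m)) * (t ^ (2 * c - 2) * (t ^ (2 * c - 1)) ^ m) := by
          ring
      _ = _ := by rw [e2]; ring
  · refine (h1 t (y + z j) (y + w j) ht).trans ?_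
    have := hYj j
    rw [hA]
    gcongr
  · rw [mm_norm _ _ ht0]
    refine le_trans ?_ hAt
    refine Real.rpow_le_rpow (by positivity) ?_ (by linarith)
    rw [div_le_iff₀ (by positivity)]
    have := Real.pi_gt_three
    nlinarith
  · refine (h2 t (y + z j) (y + w j) ht).trans ?_
    have := hYj j
    rw [hδ]
    gcongr

/-- the model correlation -/
def Km {k : ℕ} (ψ : ℝ → ℂ) (z w : Fin k → ℝ) (κ L t : ℝ) : ℂ :=
  ∫ y : ℝ, Pc ψ κ L y * (MM (1 + 4 * κ) k (∑ j, (z j + w j)) y t *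
    (ZP z ((1 + 4 * κ : ℝ) + (y + t : ℝ) * I) * ZP w ((1 + 4 * κ : ℝ) + (y - t : ℝ) * I)))

theorem K0_model {ξ1 : ℝ} {ψ : ℝ → ℂ} (h : TF ξ1 ψ) {κ : ℝ} (hκ : 0 < κ) {k : ℕ} (hk : 1 ≤ k)
    (z w : Fin k → ℝ) :
    ∃ C : ℝ, 0 ≤ C ∧ ∀ L t : ℝ, 1 ≤ L → 1 ≤ t →
      ‖K0 ψ (ZR z) (ZR w) (1 + 4 * κ) L t - Km ψ z w κ L t‖ ≤
        C * Real.exp (ξ1 * (L * (1 + 4 * κ - 1 / 2))) * t ^ (k * (1 + 8 * κ) - 1) := by
  obtain ⟨K, B, hK, hH⟩ := H_asymp (c := 1 + 4 * κ) (by linarith) hk z w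
  obtain ⟨CN, hCN, hP⟩ := P_bound h (0 + 2 + B)
  obtain ⟨D, hD, hd⟩ := tau_ptw k hκ
  set Z : ℝ := D * ∑' n : ℕ, (n : ℝ) ^ (-(1 + 3 * κ)) with hZ
  have hZz := ZP_norm_line z hκ hD (hd z)
  have hZw := ZP_norm_line w hκ hD (hd w)
  have hZ0 : 0 ≤ Z := (norm_nonneg _).trans (hZz 0)
  refine ⟨CN * K * Z * Z * J2, by have := J2_nonneg; positivity, fun L t hL ht => ?_⟩
  have ht0 : 0 < t := by linarith
  set f1 : ℝ → ℂ := fun y => Pc ψ κ L y *
    (ZR z ((1 + 4 * κ : ℝ) + (y + t : ℝ) * I) * ZR w ((1 + 4 * κ : ℝ) + (y - t : ℝ) * I)) with hf1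
  set f2 : ℝ → ℂ := fun y => Pc ψ κ L y * (MM (1 + 4 * κ) k (∑ j, (z j + w j)) y t *
    (ZP z ((1 + 4 * κ : ℝ) + (y + t : ℝ) * I) * ZP w ((1 + 4 * κ : ℝ) + (y - t : ℝ) * I))) with hf2
  have hZPc : ∀ v : Fin k → ℝ, Continuous (fun u : ℝ => ZP v ((1 + 4 * κ : ℝ) + u * I)) := by
    intro v
    obtain ⟨C, G⟩ := ZP_DF v hκ hD (hd v) (le_refl (2 * k)) (le_refl _)
    exact G.cline
  have hZRc : ∀ v : Fin k → ℝ, Continuous (fun u : ℝ => ZR v ((1 + 4 * κ : ℝ) + u * I)) := by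
    intro v
    obtain ⟨M0, hM0⟩ := ZR_DG v (c := 1 + 4 * κ) (by linarith)
    obtain ⟨C, G⟩ := hM0 M0 le_rfl
    rw [continuous_iff_continuousAt]
    intro u
    have h3 := (G.diff (((1 + 4 * κ : ℝ) : ℂ) + u * I) (by simp; linarith) (by simp)).continuousAt
    exact ContinuousAt.comp (f := fun u : ℝ => (((1 + 4 * κ : ℝ) : ℂ) + u * I)) h3 (by fun_prop)
  have hPcc := Pc_cont (κ := κ) h L
  have hMMc : Continuous (fun y : ℝ => MM (1 + 4 * κ) k (∑ j, (z j + w j)) y t) := by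
    unfold MM; fun_prop
  have c1 : Continuous f1 := hPcc.mul (((hZRc z).comp (by fun_prop : Continuous fun y : ℝ => y + t)).mul
    ((hZRc w).comp (by fun_prop : Continuous fun y : ℝ => y - t)))
  have c2 : Continuous f2 := hPcc.mul (hMMc.mul (((hZPc z).comp
    (by fun_prop : Continuous fun y : ℝ => y + t)).mul
    ((hZPc w).comp (by fun_prop : Continuous fun y : ℝ => y - t))))
  -- pointwise estimate
  have hne : ∀ (u x : ℝ), (((1 + 4 * κ : ℝ) : ℂ) + u * I) + x * I ≠ 1 := by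
    intro u x hh
    have := congrArg Complex.re hh
    simp at this
    linarith
  have hdiff : ∀ y, f1 y - f2 y = Pc ψ κ L y * ((XZ z ((1 + 4 * κ : ℝ) + (y + t : ℝ) * I) *
      XZ w ((1 + 4 * κ : ℝ) + (y - t : ℝ) * I) - MM (1 + 4 * κ) k (∑ j, (z j + w j)) y t) *
      (ZP z ((1 + 4 * κ : ℝ) + (y + t : ℝ) * I) * ZP w ((1 + 4 * κ : ℝ) + (y - t : ℝ) * I))) := by
    intro y
    rw [hf1, hf2]
    simp only
    rw [ZR_eq z (by simp; linarith) (fun j => hne _ _), ZR_eq w (by simp; linarith) (fun j => hne _ _)]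
    ring
  have hbound : ∀ y, ‖f1 y - f2 y‖ ≤ (CN * Real.exp (ξ1 * (L * (1 + 4 * κ - 1 / 2))) *
      (K * t ^ (k * (1 + 8 * κ) - 1)) * (Z * Z)) / (1 + |y|) ^ (0 + 2) := by
    intro y
    have e0 : ((L * (1 + 4 * κ - 1 / 2) : ℝ) + (L:ℂ) * y * I).re = L * (1 + 4 * κ - 1 / 2) := by simp
    have e1 : ((L * (1 + 4 * κ - 1 / 2) : ℝ) + (L:ℂ) * y * I).im = L * y := by simp
    have hLc : 0 ≤ L * (1 + 4 * κ - 1 / 2) := mul_nonneg (by linarith) (by linarith)
    have g1 := P_bd_line (ψ := ψ) hP (z := (L * (1 + 4 * κ - 1 / 2) : ℝ) + (L:ℂ) * y * I) (y := y)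
      (by rw [e0]; exact hLc) (by
      rw [e1, abs_mul, abs_of_pos (by linarith : 0 < L)]
      exact le_mul_of_one_le_left (abs_nonneg _) hL)
    rw [e0] at g1
    have g2 := hH t y ht
    have e3 : (k : ℝ) * (2 * (1 + 4 * κ) - 1) - 1 = k * (1 + 8 * κ) - 1 := by ring
    rw [e3] at g2
    have g3 := hZz (y + t)
    have g4 := hZw (y - t)
    rw [hdiff, norm_mul, norm_mul, norm_mul]
    have hy : 0 < 1 + |y| := by positivity
    calc _ ≤ (CN * Real.exp (ξ1 * (L * (1 + 4 * κ - 1 / 2))) / (1 + |y|) ^ (0 + 2 + B)) *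
          ((K * (1 + |y|) ^ B * t ^ (k * (1 + 8 * κ) - 1)) * (Z * Z)) := by
          have q1 : ‖Pc ψ κ L y‖ ≤ CN * Real.exp (ξ1 * (L * (1 + 4 * κ - 1 / 2))) /
            (1 + |y|) ^ (0 + 2 + B) := g1
          gcongr
      _ = _ := by
          rw [pow_add (1 + |y|) (0 + 2) B]
          field_simp
  have i12 : Integrable (fun y => f1 y - f2 y) :=
    decay_integrable (n := 0) (c1.sub c2) (by positivity) hbound
  have i2 : Integrable f2 := by
    refine (Pc_int h hκ hL).mul_bdd (c := (t / (2 * Real.pi)) ^ (k * (2 * (1 + 4 * κ) - 1)) * (Z * Z)) ?_ ?_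
    · exact (hMMc.mul (((hZPc z).comp (by fun_prop : Continuous fun y : ℝ => y + t)).mul
        ((hZPc w).comp (by fun_prop : Continuous fun y : ℝ => y - t)))).aestronglyMeasurable
    · refine Eventually.of_forall fun y => ?_
      rw [norm_mul, norm_mul, MM_norm _ _ _ ht0]
      have g3 := hZz (y + t)
      have g4 := hZw (y - t)
      gcongr
  have i1 : Integrable f1 := by
    have := i12.add i2
    refine this.congr (Eventually.of_forall fun y => ?_)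
    simp only [Pi.add_apply]
    ring
  have e5 : K0 ψ (ZR z) (ZR w) (1 + 4 * κ) L t = ∫ y, f1 y := rfl
  have e6 : Km ψ z w κ L t = ∫ y, f2 y := rfl
  rw [e5, e6, ← integral_sub i1 i2]
  refine (norm_integral_decay (n := 0) (by positivity) hbound).trans (le_of_eq ?_)
  ring

end

end Pool.Agent.W182.KO
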