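import Pool.Agent.W182.KO.Up

set_option autoImplicit false

/-! The model correlation: explicit finite sum and its integral over `t`. -/

namespace Pool.Agent.W182.KO

open Complex Filter Topology MeasureTheory Set
open scoped ContDiff

noncomputable section

lemma P_shift (ψ : ℝ → ℂ) (h : ℝ) (z : ℂ) : P (fun ξ => ψ (ξ - h)) z = exp (h * z) * P ψ z := by
  unfold P
  rw [← integral_const_mul]
  rw [← integral_sub_right_eq_self (fun ξ : ℝ => exp (h * z) * (ψ ξ * exp (ξ * z))) h]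
  congr 1; funext ξ
  have : exp ((ξ : ℂ) * z) = exp (h * z) * exp (((ξ - h : ℝ) : ℂ) * z) := by
    rw [← exp_add]; congr 1; push_cast; ring
  rw [this]
  ring

lemma TF.shift {ξ1 : ℝ} {ψ : ℝ → ℂ} (h : TF ξ1 ψ) (a : ℝ) : TF (ξ1 + a) (fun ξ => ψ (ξ - a)) where
  cd := h.cd.comp (contDiff_id.sub contDiff_const)
  cs := h.cs.comp_homeomorph (Homeomorph.subRight a)
  sp ξ hξ := h.sp (ξ - a) (by linarith)

lemma Km_eq {k : ℕ} (ψ : ℝ → ℂ) (z w : Fin k → ℝ) (κ : ℝ) {L : ℝ} (hL : 0 < L) (t : ℝ) :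
    Km ψ z w κ L t = exp (((∑ j, (z j + w j)) * Real.log (t / (2 * Real.pi)) : ℝ) * I) *
      K0 (fun ξ => ψ (ξ - 2 * k * Real.log (t / (2 * Real.pi)) / L)) (ZP z) (ZP w) (1 + 4 * κ) L t := by
  unfold Km K0
  rw [← integral_const_mul]
  congr 1; funext y
  rw [P_shift]
  have hLc : (L : ℂ) ≠ 0 := by exact_mod_cast hL.ne'
  have e : MM (1 + 4 * κ) k (∑ j, (z j + w j)) y t =
      exp (((∑ j, (z j + w j)) * Real.log (t / (2 * Real.pi)) : ℝ) * I) *
      exp (((2 * k * Real.log (t / (2 * Real.pi)) / L : ℝ) : ℂ) *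
        ((L * (1 + 4 * κ - 1 / 2) : ℝ) + L * y * I)) := by
    unfold MM
    rw [← exp_add]
    congr 1
    push_cast
    field_simp
    ring
  unfold Pc
  rw [e]
  ring

/-- explicit coefficient of a pair -/
def tt (ψ : ℝ → ℂ) (A B : ℕ → ℂ) (L : ℝ) (x : ℕ × ℕ) : ℂ :=
  ((2 * Real.pi / L : ℝ) : ℂ) * (A x.1 * B x.2 *
    (((x.1 : ℝ) ^ (-(1 / 2) : ℝ) * (x.2 : ℝ) ^ (-(1 / 2) : ℝ) : ℝ) : ℂ) *
    ψ ((Real.log x.1 + Real.log x.2) / L))

variable {ψ : ℝ → ℂ} {ξ1 κ D1 D2 : ℝ} {F1 F2 : ℂ → ℂ} {A B : ℕ → ℂ}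

lemma aa_eq (h : TF ξ1 ψ) (hκ : 0 < κ) (E1 : DD F1 A κ D1) (E2 : DD F2 B κ D2) {L : ℝ} (hL : 1 ≤ L)
    (x : ℕ × ℕ) : aa ψ A B κ L x = tt ψ A B L x := by
  rcases Nat.eq_zero_or_pos x.1 with h1 | h1
  · unfold aa tt; rw [h1, E1.A0]; simp
  rcases Nat.eq_zero_or_pos x.2 with h2 | h2
  · unfold aa tt; rw [h2, E2.A0]; simp
  have hm0 : (0:ℝ) < x.1 := by exact_mod_cast h1
  have hn0 : (0:ℝ) < x.2 := by exact_mod_cast h2
  have hL0 : 0 < L := by linarith
  have hLc : (L : ℂ) ≠ 0 := by exact_mod_cast hL0.ne'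
  have hi := P_inv h (σ := L * (1 + 4 * κ - 1 / 2)) (L := L)
      (mul_nonneg hL0.le (by linarith)) hL0 ((Real.log x.1 + Real.log x.2) / L)
  have hq : qq ψ κ L x = ((2 * Real.pi / L : ℝ) : ℂ) * (ψ ((Real.log x.1 + Real.log x.2) / L) *
      (((x.1 : ℝ) ^ (1 + 4 * κ - 1 / 2) * (x.2 : ℝ) ^ (1 + 4 * κ - 1 / 2) : ℝ) : ℂ)) := by
    unfold qq Pc
    have e1 : (((x.1 : ℝ) ^ (1 + 4 * κ - 1 / 2) * (x.2 : ℝ) ^ (1 + 4 * κ - 1 / 2) : ℝ) : ℂ) =
        exp ((((Real.log x.1 + Real.log x.2) / L : ℝ) : ℂ) * ((L * (1 + 4 * κ - 1 / 2) : ℝ) : ℂ)) := by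
      rw [Real.rpow_def_of_pos hm0, Real.rpow_def_of_pos hn0, ← Real.exp_add, Complex.ofReal_exp]
      congr 1
      rw [← Complex.ofReal_mul]
      congr 1
      field_simp
    rw [e1, ← hi]
    congr 1; funext y
    congr 2
    push_cast
    field_simp
  unfold aa tt
  rw [hq]
  have e2 : ∀ r : ℝ, 0 < r → r ^ (-(1 + 4 * κ)) * r ^ (1 + 4 * κ - 1 / 2) = r ^ (-(1 / 2) : ℝ) := by
    intro r hr
    rw [← Real.rpow_add hr]
    congr 1; ring
  have e3 := congrArg (fun r : ℝ => (r : ℂ)) (e2 _ hm0)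
  have e4 := congrArg (fun r : ℝ => (r : ℂ)) (e2 _ hn0)
  push_cast at e3 e4 ⊢
  rw [← e3, ← e4]
  ring

/-- the `t`-dependent factor -/
def gg (ψ : ℝ → ℂ) (k : ℕ) (S L m t : ℝ) : ℂ :=
  exp ((S * Real.log (t / (2 * Real.pi)) : ℝ) * I) * ψ (m - 2 * k * Real.log (t / (2 * Real.pi)) / L)

/-- derivative of `gg` -/
def gg' (ψ : ℝ → ℂ) (k : ℕ) (S L m t : ℝ) : ℂ :=
  exp ((S * Real.log (t / (2 * Real.pi)) : ℝ) * I) * ((S / t : ℝ) * I) *
    ψ (m - 2 * k * Real.log (t / (2 * Real.pi)) / L) +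
  exp ((S * Real.log (t / (2 * Real.pi)) : ℝ) * I) *
    (((-(2 * k / (L * t)) : ℝ) : ℂ) * deriv ψ (m - 2 * k * Real.log (t / (2 * Real.pi)) / L))

lemma gg_deriv (h : TF ξ1 ψ) (k : ℕ) (S L m : ℝ) {t : ℝ} (ht : 0 < t) :
    HasDerivAt (gg ψ k S L m) (gg' ψ k S L m t) t := by
  have h0 : HasDerivAt (fun t : ℝ => Real.log (t / (2 * Real.pi))) (1 / t) t := by
    have h1 := ((hasDerivAt_id t).div_const (2 * Real.pi)).log (by
      simp only [id]
      positivity)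
    refine h1.congr_deriv ?_
    simp only [id]
    field_simp
  have h1 : HasDerivAt (fun t : ℝ => exp ((S * Real.log (t / (2 * Real.pi)) : ℝ) * I))
      (exp ((S * Real.log (t / (2 * Real.pi)) : ℝ) * I) * ((S / t : ℝ) * I)) t := by
    have h2 := (((h0.const_mul S).ofReal_comp).mul_const I).cexp
    refine h2.congr_deriv ?_
    congr 2
    push_cast
    ring
  have h3 : HasDerivAt (fun t : ℝ => m - 2 * k * Real.log (t / (2 * Real.pi)) / L)
      (-(2 * k / (L * t))) t := by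
    have h4 := ((h0.const_mul (2 * (k:ℝ))).div_const L).const_sub m
    refine h4.congr_deriv ?_
    field_simp
  have h5 := (h.diff (m - 2 * k * Real.log (t / (2 * Real.pi)) / L)).hasDerivAt.scomp t h3
  refine (h1.mul h5).congr_deriv ?_
  unfold gg'
  simp only [Function.comp, Complex.real_smul]

lemma gg_cont (h : TF ξ1 ψ) (k : ℕ) (S L m a b : ℝ) (ha : 0 < a) :
    ContinuousOn (gg ψ k S L m) (Icc a b) := fun t ht =>
  (gg_deriv h k S L m (ha.trans_le ht.1)).continuousAt.continuousWithinAt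

lemma gg'_cont (h : TF ξ1 ψ) (k : ℕ) (S L m a b : ℝ) (ha : 0 < a) :
    ContinuousOn (gg' ψ k S L m) (Icc a b) := by
  have hlog : ContinuousOn (fun t : ℝ => Real.log (t / (2 * Real.pi))) (Icc a b) := by
    refine ContinuousOn.log (by fun_prop) fun t ht => ?_
    have := ha.trans_le ht.1
    positivity
  have hdiv : ∀ r : ℝ, ContinuousOn (fun t : ℝ => r / t) (Icc a b) := fun r =>
    continuousOn_const.div continuousOn_id fun t ht => (ha.trans_le ht.1).ne'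
  have hψ := h.cont
  have hψ' := h.deriv.cont
  have harg : ContinuousOn (fun t : ℝ => m - 2 * k * Real.log (t / (2 * Real.pi)) / L) (Icc a b) := by
    fun_prop
  have he : ContinuousOn (fun t : ℝ => exp ((S * Real.log (t / (2 * Real.pi)) : ℝ) * I)) (Icc a b) := by
    have : ContinuousOn (fun t : ℝ => ((S * Real.log (t / (2 * Real.pi)) : ℝ) : ℂ)) (Icc a b) :=
      Complex.continuous_ofReal.comp_continuousOn (continuousOn_const.mul hlog)
    exact (this.mul continuousOn_const).cexp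
  have h1 : ContinuousOn (fun t : ℝ => (((S / t : ℝ) : ℂ) * I)) (Icc a b) :=
    (Complex.continuous_ofReal.comp_continuousOn (hdiv S)).mul continuousOn_const
  have h2 : ContinuousOn (fun t : ℝ => ((-(2 * k / (L * t)) : ℝ) : ℂ)) (Icc a b) := by
    refine Complex.continuous_ofReal.comp_continuousOn ?_
    have := (hdiv (2 * k / L)).neg
    refine this.congr fun t _ => ?_
    simp only [Pi.neg_apply, div_div]
  exact ((he.mul h1).mul (hψ.comp_continuousOn harg)).add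
    (he.mul (h2.mul (hψ'.comp_continuousOn harg)))

lemma TF.bdd (h : TF ξ1 ψ) : ∃ C : ℝ, 0 ≤ C ∧ ∀ x, ‖ψ x‖ ≤ C := by
  obtain ⟨C, hC⟩ := h.cont.bounded_above_of_compact_support h.cs
  exact ⟨C, (norm_nonneg _).trans (hC 0), hC⟩

/-- oscillatory integral bound -/
lemma osc (h : TF ξ1 ψ) (k : ℕ) (S : ℝ) : ∃ G : ℝ, 0 ≤ G ∧ ∀ L m b μ : ℝ, 1 ≤ L → 1 ≤ b →
    Real.log b ≤ L → μ ≠ 0 →
    ‖∫ t in (1:ℝ)..b, gg ψ k S L m t * exp ((μ * t : ℝ) * I)‖ ≤ G * L / |μ| := by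
  obtain ⟨C0, hC0, h0⟩ := h.bdd
  obtain ⟨C1, hC1, h1⟩ := h.deriv.bdd
  refine ⟨2 * C0 + (|S| * C0 + 2 * k * C1), by positivity, fun L m b μ hL hb hbL hμ => ?_⟩
  have hc : (μ : ℂ) * I ≠ 0 := mul_ne_zero (by exact_mod_cast hμ) I_ne_zero
  have hv : ∀ t : ℝ, HasDerivAt (fun t : ℝ => exp ((μ * t : ℝ) * I) / (μ * I))
      (exp ((μ * t : ℝ) * I)) t := by
    intro t
    have a1 := ((((hasDerivAt_id t).const_mul μ).ofReal_comp).mul_const I).cexp
    have a2 := a1.div_const ((μ : ℂ) * I)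
    refine a2.congr_deriv ?_
    have hμc : (μ : ℂ) ≠ 0 := by exact_mod_cast hμ
    simp only [id, mul_one]
    field_simp
  have hgn : ∀ t, ‖gg ψ k S L m t‖ ≤ C0 := by
    intro t
    unfold gg
    rw [norm_mul, norm_expI, one_mul]
    exact h0 _
  have hgn' : ∀ t, 0 < t → ‖gg' ψ k S L m t‖ ≤ (|S| * C0 + 2 * k * C1) * (1 / t) := by
    intro t ht
    unfold gg'
    refine (norm_add_le _ _).trans ?_
    rw [norm_mul, norm_mul, norm_mul, norm_mul, norm_mul, norm_expI, norm_I, Complex.norm_real,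
      Complex.norm_real, Real.norm_eq_abs, Real.norm_eq_abs, abs_neg, abs_div, abs_of_pos ht,
      abs_of_nonneg (by positivity : (0:ℝ) ≤ 2 * k / (L * t))]
    have b1 := h0 (m - 2 * k * Real.log (t / (2 * Real.pi)) / L)
    have b2 := h1 (m - 2 * k * Real.log (t / (2 * Real.pi)) / L)
    have b3 : 2 * k / (L * t) ≤ 2 * k / (1 * t) := by gcongr
    calc _ ≤ 1 * (|S| / t * 1) * C0 + 1 * (2 * k / (1 * t) * C1) := by gcongr
      _ = _ := by field_simp
  have hbp := intervalIntegral.integral_mul_deriv_eq_deriv_mul (a := 1) (b := b)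
    (u := gg ψ k S L m) (v := fun t : ℝ => exp ((μ * t : ℝ) * I) / (μ * I))
    (u' := gg' ψ k S L m) (v' := fun t : ℝ => exp ((μ * t : ℝ) * I))
    (fun t ht => gg_deriv h k S L m (by
      rw [uIcc_of_le hb] at ht; linarith [ht.1])) (fun t _ => hv t)
    (ContinuousOn.intervalIntegrable (by
      rw [uIcc_of_le hb]; exact gg'_cont h k S L m 1 b one_pos))
    (Continuous.intervalIntegrable (by fun_prop) _ _)
  rw [hbp]
  have hμ0 : 0 < |μ| := abs_pos.2 hμ
  have hvn : ∀ t : ℝ, ‖exp ((μ * t : ℝ) * I) / (μ * I)‖ = 1 / |μ| := by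
    intro t
    rw [norm_div, norm_expI, norm_mul, norm_I, mul_one, Complex.norm_real, Real.norm_eq_abs]
  have t1 : ‖gg ψ k S L m b * (exp ((μ * b : ℝ) * I) / (μ * I))‖ ≤ C0 * (1 / |μ|) := by
    rw [norm_mul, hvn]
    gcongr
    exact hgn b
  have t2 : ‖gg ψ k S L m 1 * (exp ((μ * 1 : ℝ) * I) / (μ * I))‖ ≤ C0 * (1 / |μ|) := by
    rw [norm_mul, hvn]
    gcongr
    exact hgn 1
  have t3 : ‖∫ t in (1:ℝ)..b, gg' ψ k S L m t * (exp ((μ * t : ℝ) * I) / (μ * I))‖ ≤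
      (|S| * C0 + 2 * k * C1) * (1 / |μ|) * Real.log b := by
    have hii : IntervalIntegrable (fun t : ℝ => (|S| * C0 + 2 * k * C1) * (1 / |μ|) * (1 / t))
        volume 1 b := by
      refine ContinuousOn.intervalIntegrable ?_
      rw [uIcc_of_le hb]
      refine continuousOn_const.mul (continuousOn_const.div continuousOn_id fun t ht => ?_)
      exact (by linarith [ht.1] : (0:ℝ) < t).ne'
    refine (intervalIntegral.norm_integral_le_of_norm_le hb (Eventually.of_forall fun t ht => ?_)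
      hii).trans (le_of_eq ?_)
    · rw [norm_mul, hvn]
      have := hgn' t (by linarith [ht.1])
      calc _ ≤ (|S| * C0 + 2 * k * C1) * (1 / t) * (1 / |μ|) := by gcongr
        _ = _ := by ring
    · rw [intervalIntegral.integral_const_mul, integral_one_div_of_pos one_pos (by linarith), div_one]
  refine (norm_sub_le _ _).trans ((add_le_add ((norm_sub_le _ _).trans (add_le_add t1 t2)) t3).trans ?_)
  have hQ : 0 ≤ |S| * C0 + 2 * k * C1 := by positivity
  have hC0L : C0 * (1 / |μ|) ≤ C0 * (1 / |μ|) * L := le_mul_of_one_le_right (by positivity) hL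
  calc _ ≤ C0 * (1 / |μ|) * L + C0 * (1 / |μ|) * L + (|S| * C0 + 2 * k * C1) * (1 / |μ|) * L := by
        gcongr
    _ = _ := by field_simp; ring

end

end Pool.Agent.W182.KO
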