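import Pool.Agent.W182.KO.Spec
import Pool.Agent.H401R2.Stir

set_option autoImplicit false

/-! Asymptotics of the factor `X(s) = ζ(1-s)/ζ(s)`. -/

namespace Pool.Agent.W182.KO

open Complex Filter Topology MeasureTheory Set

noncomputable section

/-- the factor of the functional equation, `ζ(1-s) = X(s) ζ(s)` -/
def XX (s : ℂ) : ℂ := 2 * (2 * Real.pi) ^ (-s) * Gamma s * cos (Real.pi * s / 2)

lemma zeta_XX {s : ℂ} (hs : 0 < s.re) (h1 : s ≠ 1) : riemannZeta (1 - s) = XX s * riemannZeta s := by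
  unfold XX
  refine riemannZeta_one_sub (fun n h => ?_) h1
  rw [h] at hs
  simp at hs
  have : (0:ℝ) ≤ n := Nat.cast_nonneg n
  linarith

/-- the exponent of the main term -/
def Mx (σ v : ℝ) : ℂ := (((σ - 1 / 2) * Real.log (v / (2 * Real.pi)) : ℝ) : ℂ) +
  ((v * Real.log (v / (2 * Real.pi)) - v - Real.pi / 4 : ℝ) : ℂ) * I

lemma log_big {c σ v : ℝ} (hc : 1 ≤ c) (hσ : 1 / 2 ≤ σ) (hσc : σ ≤ c) (hv : 4 * c ^ 2 ≤ v) :
    ∃ e : ℂ, ‖e‖ ≤ c ^ 2 / v ^ 2 ∧ log ((σ : ℂ) + v * I) =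
      Real.log v + Real.pi / 2 * I - σ / v * I + e := by
  have hv0 : 0 < v := by nlinarith
  have hvc : (v : ℂ) ≠ 0 := by exact_mod_cast hv0.ne'
  set x : ℂ := -(σ / v) * I with hx
  have hxn : ‖x‖ = σ / v := by
    rw [hx, norm_mul, norm_I, mul_one, norm_neg]
    rw [show ((σ : ℂ) / v) = ((σ / v : ℝ) : ℂ) by push_cast; rfl, Complex.norm_real,
      Real.norm_of_nonneg (by positivity)]
  have hxle : σ / v ≤ 1 / 2 := by
    rw [div_le_div_iff₀ hv0 (by norm_num)]; nlinarith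
  have hy : (1 + x) ≠ 0 := by
    intro h
    have h2 : x = -1 := by linear_combination h
    have : ‖x‖ = 1 := by rw [h2]; simp
    rw [hxn] at this
    linarith
  have hw : (σ : ℂ) + v * I = (v : ℂ) * (I * (1 + x)) := by
    rw [hx]
    field_simp
    ring_nf
    rw [I_sq]
    ring
  have hre : 0 < (1 + x).re := by
    have : (1 + x).re = 1 := by simp [hx]
    rw [this]; norm_num
  have harg : |(1 + x).arg| < Real.pi / 2 := Complex.abs_arg_lt_pi_div_two_iff.2 (Or.inl hre)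
  rw [abs_lt] at harg
  have hlog : log (I * (1 + x)) = Real.pi / 2 * I + log (1 + x) := by
    rw [Complex.log_mul I_ne_zero hy, log_I]
    rw [arg_I]
    have := Real.pi_pos
    constructor <;> linarith [harg.1, harg.2]
  refine ⟨log (1 + x) - x, ?_, ?_⟩
  · have h := norm_log_one_add_sub_self_le (z := x) (by rw [hxn]; linarith)
    refine h.trans ?_
    rw [hxn]
    have h3 : (1 - σ / v)⁻¹ ≤ 2 := by
      rw [inv_le_comm₀ (by linarith) (by norm_num)]
      linarith
    have h4 : (σ / v) ^ 2 ≤ c ^ 2 / v ^ 2 := by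
      rw [div_pow]
      gcongr
    have h5 : 0 ≤ (1 - σ / v)⁻¹ := by
      apply inv_nonneg.2; linarith
    calc (σ / v) ^ 2 * (1 - σ / v)⁻¹ / 2 ≤ c ^ 2 / v ^ 2 * 2 / 2 := by gcongr
      _ = _ := by ring
  · rw [hw, log_ofReal_mul (by positivity) (mul_ne_zero I_ne_zero hy), hlog, hx]
    ring

theorem XX_asymp {c σ v : ℝ} (hc : 1 ≤ c) (hσ : 1 / 2 ≤ σ) (hσc : σ ≤ c) (hv : 4 * c ^ 2 ≤ v) :
    ∃ e : ℂ, ‖e‖ ≤ 12 * c ^ 2 / v ∧ XX ((σ : ℂ) + v * I) = exp (Mx σ v) * (1 + e) := by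
  have hv0 : 0 < v := by nlinarith
  have hv4 : 4 ≤ v := by nlinarith
  have hvc : (v : ℂ) ≠ 0 := by exact_mod_cast hv0.ne'
  obtain ⟨e, he, hlog⟩ := log_big hc hσ hσc hv
  set s : ℂ := (σ : ℂ) + v * I with hs
  have hsre : s.re = σ := by simp [hs]
  have hsim : s.im = v := by simp [hs]
  have hst := H401R2.stirling (z := s) (by rw [hsre]; linarith) (by rw [hsim]; linarith)
  rw [hsim] at hst
  set e1 : ℂ := H401R2.sA s / ((√(2 * Real.pi) : ℝ) : ℂ) - 1 with he1
  have he1' : ‖e1‖ ≤ 1 / v := by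
    refine hst.trans ?_
    rw [div_le_div_iff₀ (by positivity) hv0]
    have := Real.pi_le_four
    nlinarith
  set e3 : ℂ := exp (Real.pi * s * I) with he3
  have he3' : ‖e3‖ ≤ 1 / v := by
    rw [he3, Complex.norm_exp]
    have : (Real.pi * s * I).re = -(Real.pi * v) := by simp [hs]
    rw [this, Real.exp_neg, one_div]
    refine inv_anti₀ hv0 ?_
    have := Real.add_one_le_exp (Real.pi * v)
    have := Real.pi_gt_three
    nlinarith
  set e2 : ℂ := (s - 1/2) * e - (((σ - 1 / 2) * σ / v : ℝ) : ℂ) * I with he2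
  have he2' : ‖e2‖ ≤ 3 * c ^ 2 / v := by
    have b1 : ‖s - 1/2‖ ≤ c + v := by
      have : s - 1/2 = ((σ - 1 / 2 : ℝ) : ℂ) + (v : ℂ) * I := by
        rw [hs]; push_cast; ring
      rw [this]
      refine (norm_add_le _ _).trans ?_
      rw [norm_mul, norm_I, mul_one, Complex.norm_real, Complex.norm_real, Real.norm_eq_abs,
        Real.norm_eq_abs, abs_of_pos hv0, abs_of_nonneg (by linarith)]
      linarith
    rw [he2]
    refine (norm_sub_le _ _).trans ?_
    rw [norm_mul, norm_mul, norm_I, mul_one, Complex.norm_real, Real.norm_eq_abs, abs_of_nonneg (by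
      refine div_nonneg (mul_nonneg ?_ ?_) hv0.le <;> linarith)]
    have hcv : c ≤ v := by nlinarith
    calc ‖s - 1/2‖ * ‖e‖ + (σ - 1 / 2) * σ / v ≤ (c + v) * (c ^ 2 / v ^ 2) + c * c / v := by
          gcongr
          linarith
      _ ≤ (v + v) * (c ^ 2 / v ^ 2) + c * c / v := by gcongr
      _ = _ := by field_simp; ring
  -- identity
  have hid : XX s = exp (Mx σ v) * ((1 + e3) * (1 + e1) * exp e2) := by
    have hpi0 : (Real.pi : ℂ) ≠ 0 := by exact_mod_cast Real.pi_ne_zero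
    have h2pi : (2 * Real.pi : ℂ) ≠ 0 := mul_ne_zero two_ne_zero hpi0
    have hsq : ((√(2 * Real.pi) : ℝ) : ℂ) ≠ 0 := by
      have : √(2 * Real.pi) ≠ 0 := by positivity
      exact_mod_cast this
    have hG : Gamma s = H401R2.sA s * exp ((s - 1/2) * log s - s) := by
      unfold H401R2.sA
      rw [mul_assoc, ← exp_add, neg_add_cancel, exp_zero, mul_one]
    have hsA : H401R2.sA s = ((√(2 * Real.pi) : ℝ) : ℂ) * (1 + e1) := by
      rw [he1]; field_simp; ring
    have hp : (2 * Real.pi : ℂ) ^ (-s) = exp (-s * Real.log (2 * Real.pi)) := by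
      rw [cpow_def_of_ne_zero h2pi, ofReal_log (by positivity)]
      push_cast
      congr 1; ring
    have hsq2 : ((√(2 * Real.pi) : ℝ) : ℂ) = exp (1/2 * Real.log (2 * Real.pi)) := by
      have : √(2 * Real.pi) = Real.exp (1/2 * Real.log (2 * Real.pi)) := by
        rw [mul_comm (1/2 : ℝ), Real.exp_mul, Real.exp_log (by positivity), ← Real.sqrt_eq_rpow]
      rw [this]
      push_cast
      rfl
    have hcos : cos (Real.pi * s / 2) = 1 / 2 * exp (-(Real.pi * s / 2 * I)) * (1 + e3) := by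
      rw [he3, Complex.cos]
      have : exp (Real.pi * s / 2 * I) = exp (-(Real.pi * s / 2 * I)) * exp (Real.pi * s * I) := by
        rw [← exp_add]; congr 1; ring
      rw [neg_mul, this]
      ring
    have hell : Real.log (v / (2 * Real.pi)) = Real.log v - Real.log (2 * Real.pi) :=
      Real.log_div hv0.ne' (by positivity)
    have hexp : exp (-s * Real.log (2 * Real.pi)) * exp (1/2 * Real.log (2 * Real.pi)) *
        exp ((s - 1/2) * log s - s) * exp (-(Real.pi * s / 2 * I)) = exp (Mx σ v) * exp e2 := by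
      rw [← exp_add, ← exp_add, ← exp_add, ← exp_add]
      congr 1
      rw [hlog, he2]
      unfold Mx
      rw [hell, hs]
      push_cast
      field_simp
      ring_nf
      rw [I_sq]
      ring
    unfold XX
    rw [hG, hsA, hp, hsq2, hcos]
    calc _ = (1 + e3) * (1 + e1) * (exp (-s * Real.log (2 * Real.pi)) *
          exp (1/2 * Real.log (2 * Real.pi)) *
          exp ((s - 1/2) * log s - s) * exp (-(Real.pi * s / 2 * I))) := by ring
      _ = _ := by rw [hexp]; ring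
  refine ⟨(1 + e3) * (1 + e1) * exp e2 - 1, ?_, by rw [hid]; ring⟩
  set τ := 1 / v with hτ
  have hτ0 : 0 < τ := by positivity
  have hτ4 : c ^ 2 * τ ≤ 1 / 4 := by
    rw [hτ, mul_one_div, div_le_div_iff₀ hv0 (by norm_num)]; linarith
  have hc2 : 1 ≤ c ^ 2 := one_le_pow₀ hc
  have hτ1 : τ ≤ 1 / 4 := by nlinarith
  have f2 : ‖e2‖ ≤ 3 * (c ^ 2 * τ) := by rw [hτ]; refine he2'.trans (le_of_eq (by ring))
  have f2' : ‖exp e2 - 1‖ ≤ 6 * (c ^ 2 * τ) := by
    refine (norm_exp_sub_one_le (by linarith)).trans ?_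
    linarith
  have e4 : (1 + e3) * (1 + e1) * exp e2 - 1 =
      e3 + e1 + (exp e2 - 1) + e3 * e1 + (e3 + e1 + e3 * e1) * (exp e2 - 1) := by ring
  have g1 : ‖e3 * e1‖ ≤ (1 / 4) * τ := by
    rw [norm_mul]
    calc ‖e3‖ * ‖e1‖ ≤ τ * τ := by gcongr
      _ ≤ _ := by nlinarith
  have g2 : ‖e3 + e1 + e3 * e1‖ ≤ 9 / 4 * τ := by
    refine (norm_add_le _ _).trans ?_
    have := norm_add_le e3 e1
    linarith
  have g3 : ‖(e3 + e1 + e3 * e1) * (exp e2 - 1)‖ ≤ (9 / 4) * τ * (3 / 2) := by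
    rw [norm_mul]
    gcongr
    linarith
  have k1 := norm_add_le e3 e1
  have k2 := norm_add_le (e3 + e1) (exp e2 - 1)
  have k3 := norm_add_le (e3 + e1 + (exp e2 - 1)) (e3 * e1)
  have k4 := norm_add_le (e3 + e1 + (exp e2 - 1) + e3 * e1) ((e3 + e1 + e3 * e1) * (exp e2 - 1))
  have k5 : τ ≤ c ^ 2 * τ := le_mul_of_one_le_left hτ0.le hc2
  rw [e4, show 12 * c ^ 2 / v = 12 * (c ^ 2 * τ) by rw [hτ]; ring]
  linarith

end

end Pool.Agent.W182.KO
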