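import Pool.Agent.W182.KO.XX

set_option autoImplicit false

/-! Bounds for `X` and the approximation of products of two values. -/

namespace Pool.Agent.W182.KO

open Complex Filter Topology MeasureTheory Set ComplexConjugate

noncomputable section

lemma XX_conj (s : ℂ) : XX (conj s) = conj (XX s) := by
  unfold XX
  have h2pi : (2 * Real.pi : ℂ) ≠ 0 := mul_ne_zero two_ne_zero (by exact_mod_cast Real.pi_ne_zero)
  have e1 : (2 * Real.pi : ℂ) = ((2 * Real.pi : ℝ) : ℂ) := by push_cast; rfl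
  have e2 : ∀ z : ℂ, (2 * Real.pi : ℂ) ^ (-z) = exp (-z * Real.log (2 * Real.pi)) := by
    intro z
    rw [cpow_def_of_ne_zero h2pi, ofReal_log (by positivity)]
    push_cast
    congr 1; ring
  rw [e2, e2, Gamma_conj]
  rw [map_mul, map_mul, map_mul, ← exp_conj, ← cos_conj]
  simp only [map_mul, map_div₀, map_neg, conj_ofReal, map_ofNat]

lemma XX_diff {s : ℂ} (hs : 0 < s.re) : DifferentiableAt ℂ XX s := by
  unfold XX
  have h2pi : (2 * Real.pi : ℂ) ≠ 0 := mul_ne_zero two_ne_zero (by exact_mod_cast Real.pi_ne_zero)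
  have h1 : DifferentiableAt ℂ (fun s : ℂ => (2 * Real.pi : ℂ) ^ (-s)) s := by
    refine DifferentiableAt.const_cpow (by fun_prop) (Or.inl h2pi)
  have h2 : DifferentiableAt ℂ Gamma s := by
    refine differentiableAt_Gamma s fun n h => ?_
    rw [h] at hs
    simp at hs
    have : (0:ℝ) ≤ n := Nat.cast_nonneg n
    linarith
  have h3 : DifferentiableAt ℂ (fun s : ℂ => cos (Real.pi * s / 2)) s := by fun_prop
  exact ((h1.const_mul 2).mul h2).mul h3

lemma exp_Mx_norm {σ v : ℝ} (hv : 0 < v) : ‖exp (Mx σ v)‖ = (v / (2 * Real.pi)) ^ (σ - 1 / 2) := by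
  rw [Complex.norm_exp, Real.rpow_def_of_pos (by positivity)]
  congr 1
  unfold Mx
  simp only [add_re, ofReal_re, mul_re, I_re, mul_zero, ofReal_im, I_im, mul_one, sub_self, add_zero]
  ring

/-- polynomial bound for `X` in the strip `[1/2, c]` -/
theorem XX_bound {c : ℝ} (hc : 1 ≤ c) : ∃ K : ℝ, 1 ≤ K ∧ ∀ σ v : ℝ, 1 / 2 ≤ σ → σ ≤ c →
    ‖XX ((σ : ℂ) + v * I)‖ ≤ K * (1 + |v|) ^ (c - 1 / 2) := by
  have hcomp : IsCompact ((fun p : ℝ × ℝ => ((p.1 : ℂ) + p.2 * I)) ''
      (Icc (1 / 2) c ×ˢ Icc (-(4 * c ^ 2)) (4 * c ^ 2))) :=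
    (isCompact_Icc.prod isCompact_Icc).image (by fun_prop)
  have hcont : ContinuousOn XX ((fun p : ℝ × ℝ => ((p.1 : ℂ) + p.2 * I)) ''
      (Icc (1 / 2) c ×ˢ Icc (-(4 * c ^ 2)) (4 * c ^ 2))) := by
    rintro _ ⟨p, hp, rfl⟩
    refine (XX_diff ?_).continuousAt.continuousWithinAt
    have := hp.1.1
    simp
    linarith
  obtain ⟨K, hK⟩ := hcomp.exists_bound_of_continuousOn hcont
  refine ⟨max K 4, le_max_of_le_right (by norm_num), fun σ v hσ hσc => ?_⟩
  have hpos : ∀ v : ℝ, 4 * c ^ 2 ≤ v → ‖XX ((σ : ℂ) + v * I)‖ ≤ 4 * (1 + |v|) ^ (c - 1 / 2) := by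
    intro v hv
    have hv0 : 0 < v := by nlinarith
    obtain ⟨e, he, h1⟩ := XX_asymp hc hσ hσc hv
    rw [h1, norm_mul, exp_Mx_norm hv0, mul_comm]
    have h2 : ‖1 + e‖ ≤ 4 := by
      refine (norm_add_le _ _).trans ?_
      rw [norm_one]
      have : 12 * c ^ 2 / v ≤ 3 := by
        rw [div_le_iff₀ hv0]; linarith
      linarith
    have h3 : (v / (2 * Real.pi)) ^ (σ - 1 / 2) ≤ (1 + |v|) ^ (c - 1 / 2) := by
      have h4 : v / (2 * Real.pi) ≤ 1 + |v| := by
        rw [div_le_iff₀ (by positivity), abs_of_pos hv0]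
        have := Real.pi_gt_three
        nlinarith
      calc _ ≤ (1 + |v|) ^ (σ - 1 / 2) :=
            Real.rpow_le_rpow (by positivity) h4 (by linarith)
        _ ≤ _ := Real.rpow_le_rpow_of_exponent_le (by have := abs_nonneg v; linarith) (by linarith)
    gcongr
  have h1v : (1:ℝ) ≤ (1 + |v|) ^ (c - 1 / 2) :=
    Real.one_le_rpow (by have := abs_nonneg v; linarith) (by linarith)
  rcases le_total (4 * c ^ 2) |v| with hv | hv
  · refine le_trans ?_ (mul_le_mul_of_nonneg_right (le_max_right K 4) (by positivity))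
    rcases le_total 0 v with h0 | h0
    · rw [abs_of_nonneg h0] at hv
      exact hpos v hv
    · rw [abs_of_nonpos h0] at hv
      have h2 := hpos (-v) hv
      rw [abs_neg] at h2
      have h3 : ((σ : ℂ) + v * I) = conj ((σ : ℂ) + (-v : ℝ) * I) := by
        simp
      rw [h3, XX_conj, Complex.norm_conj]
      exact h2
  · have h2 := hK ((σ : ℂ) + v * I) ⟨(σ, v), ⟨⟨hσ, hσc⟩, abs_le.1 hv⟩, rfl⟩
    calc _ ≤ K := h2
      _ ≤ max K 4 * 1 := by rw [mul_one]; exact le_max_left _ _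
      _ ≤ _ := by gcongr

/-- the main factor -/
def mm (c Y t : ℝ) : ℂ := exp ((((2 * c - 1 : ℝ) : ℂ) + Y * I) * Real.log (t / (2 * Real.pi)))

lemma mm_norm (c Y : ℝ) {t : ℝ} (ht : 0 < t) : ‖mm c Y t‖ = (t / (2 * Real.pi)) ^ (2 * c - 1) := by
  unfold mm
  rw [Complex.norm_exp, Real.rpow_def_of_pos (by positivity)]
  congr 1
  simp only [mul_re, add_re, ofReal_re, I_re, mul_zero, ofReal_im, I_im, mul_one, sub_self, add_zero,
    sub_zero]
  ring

lemma log_quad {y t : ℝ} (ht : 0 < t) (hy : 2 * |y| ≤ t) :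
    |(t + y) * Real.log (1 + y / t) - y| ≤ 3 * (y ^ 2 / t) := by
  have h1 : |y / t| ≤ 1 / 2 := by
    rw [abs_div, abs_of_pos ht, div_le_div_iff₀ ht (by norm_num)]; linarith
  have h1' := abs_le.1 h1
  have hp : 0 < 1 + y / t := by linarith [h1'.1]
  have h2 : Real.log (1 + y / t) ≤ y / t := by
    have := Real.log_le_sub_one_of_pos hp
    linarith
  have h3 : 1 - (1 + y / t)⁻¹ ≤ Real.log (1 + y / t) := Real.one_sub_inv_le_log_of_pos hp
  have hty : 0 < t + y := by
    have := (abs_le.1 (show |y| ≤ t / 2 by linarith)).1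
    linarith
  have e1 : 1 + y / t = (t + y) / t := by field_simp
  have e2 : (t + y) * (1 - (1 + y / t)⁻¹) = y := by
    rw [e1, inv_div]
    field_simp
    ring
  have h4 : y ≤ (t + y) * Real.log (1 + y / t) := by
    calc y = (t + y) * (1 - (1 + y / t)⁻¹) := e2.symm
      _ ≤ _ := mul_le_mul_of_nonneg_left h3 hty.le
  have h5 : (t + y) * Real.log (1 + y / t) ≤ y + y ^ 2 / t := by
    calc _ ≤ (t + y) * (y / t) := mul_le_mul_of_nonneg_left h2 hty.le
      _ = _ := by field_simp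
  have h6 : 0 ≤ y ^ 2 / t := by positivity
  rw [abs_le]
  constructor <;> linarith

lemma log_lin {y t : ℝ} (ht : 0 < t) (hy : 2 * |y| ≤ t) : |Real.log (1 + y / t)| ≤ 2 * (|y| / t) := by
  have h1 : |y / t| ≤ 1 / 2 := by
    rw [abs_div, abs_of_pos ht, div_le_div_iff₀ ht (by norm_num)]; linarith
  have h1' := abs_le.1 h1
  have hp : 0 < 1 + y / t := by linarith [h1'.1]
  have h2 : Real.log (1 + y / t) ≤ y / t := by
    have := Real.log_le_sub_one_of_pos hp
    linarith
  have h3 : 1 - (1 + y / t)⁻¹ ≤ Real.log (1 + y / t) := Real.one_sub_inv_le_log_of_pos hp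
  have h4 : 1 - (1 + y / t)⁻¹ = (y / t) * (1 + y / t)⁻¹ := by
    have : (y / t) * (1 + y / t)⁻¹ = (1 + y / t) * (1 + y / t)⁻¹ - (1 + y / t)⁻¹ := by ring
    rw [this, mul_inv_cancel₀ hp.ne']
  have h5 : (1 + y / t)⁻¹ ≤ 2 := by
    rw [inv_le_comm₀ hp (by norm_num)]; linarith [h1'.1]
  have h6 : |(y / t) * (1 + y / t)⁻¹| ≤ |y / t| * 2 := by
    rw [abs_mul, abs_of_pos (inv_pos.2 hp)]
    gcongr
  have h7 : |y / t| = |y| / t := by rw [abs_div, abs_of_pos ht]
  have h8 := abs_nonneg (y / t)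
  rw [← h7]
  rw [abs_le]
  constructor
  · have := (abs_le.1 h6).1
    rw [← h4] at this
    linarith
  · have := le_abs_self (y / t)
    linarith

/-- two factors on the line `c`, trivial bound -/
lemma pair_bound {c : ℝ} (hc : 1 ≤ c) : ∃ (K : ℝ) (B : ℕ), 1 ≤ K ∧ ∀ t y1 y2 : ℝ, 1 ≤ t →
    ‖XX ((c : ℂ) + (y1 + t : ℝ) * I) * XX ((c : ℂ) + (y2 - t : ℝ) * I)‖ ≤
      K * (1 + |y1| + |y2|) ^ B * t ^ (2 * c - 1) := by
  obtain ⟨K, hK1, hK⟩ := XX_bound hc
  obtain ⟨B, hB⟩ := exists_nat_ge (2 * c - 1)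
  refine ⟨K ^ 2 * 2 ^ B, B, ?_, fun t y1 y2 ht => ?_⟩
  · have : (1:ℝ) ≤ K ^ 2 := one_le_pow₀ hK1
    have : (1:ℝ) ≤ 2 ^ B := one_le_pow₀ (by norm_num)
    nlinarith
  have h0 : 0 ≤ |y1| := abs_nonneg _
  have h0' : 0 ≤ |y2| := abs_nonneg _
  set Y : ℝ := 1 + |y1| + |y2| with hY
  have hY1 : 1 ≤ Y := by rw [hY]; linarith
  have h1 := hK c (y1 + t) (by linarith) le_rfl
  have h2 := hK c (y2 - t) (by linarith) le_rfl
  have h3 : 1 + |y1 + t| ≤ 2 * Y * t := by
    have := abs_add_le y1 t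
    rw [abs_of_pos (by linarith : 0 < t)] at this
    nlinarith
  have h4 : 1 + |y2 - t| ≤ 2 * Y * t := by
    have : |y2 - t| ≤ |y2| + |t| := abs_sub _ _
    rw [abs_of_pos (by linarith : 0 < t)] at this
    nlinarith
  rw [norm_mul]
  have hK0 : 0 ≤ K := by linarith
  calc _ ≤ (K * (1 + |y1 + t|) ^ (c - 1 / 2)) * (K * (1 + |y2 - t|) ^ (c - 1 / 2)) := by gcongr
    _ ≤ (K * (2 * Y * t) ^ (c - 1 / 2)) * (K * (2 * Y * t) ^ (c - 1 / 2)) := by
        have : 0 ≤ c - 1 / 2 := by linarith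
        gcongr
    _ = K ^ 2 * (2 * Y * t) ^ (2 * c - 1) := by
        have : (2 * c - 1) = (c - 1 / 2) + (c - 1 / 2) := by ring
        rw [this, Real.rpow_add (by positivity)]
        ring
    _ = K ^ 2 * ((2 * Y) ^ (2 * c - 1) * t ^ (2 * c - 1)) := by
        rw [Real.mul_rpow (by positivity) (by positivity)]
    _ ≤ K ^ 2 * ((2 * Y) ^ (B : ℝ) * t ^ (2 * c - 1)) := by
        gcongr
        linarith
    _ = _ := by
        rw [Real.rpow_natCast, mul_pow]
        ring

theorem pair_asymp {c : ℝ} (hc : 1 ≤ c) : ∃ (K : ℝ) (B : ℕ), 1 ≤ K ∧ ∀ t y1 y2 : ℝ, 1 ≤ t →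
    ‖XX ((c : ℂ) + (y1 + t : ℝ) * I) * XX ((c : ℂ) + (y2 - t : ℝ) * I) - mm c (y1 + y2) t‖ ≤
      K * (1 + |y1| + |y2|) ^ B * t ^ (2 * c - 2) := by
  obtain ⟨K, B, hK1, hK⟩ := pair_bound hc
  set D : ℝ := 24 * c ^ 2 + 4 * c + 4 with hD
  have hD1 : 1 ≤ D := by rw [hD]; nlinarith
  set G : ℝ := 16 * c + 16 + 72 * c ^ 2 with hG
  have hG0 : 0 ≤ G := by rw [hG]; nlinarith
  refine ⟨2 * K * D + G, B + 2, by nlinarith, fun t y1 y2 ht => ?_⟩
  have h0 : 0 ≤ |y1| := abs_nonneg _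
  have h0' : 0 ≤ |y2| := abs_nonneg _
  have ht0 : 0 < t := by linarith
  set Y : ℝ := 1 + |y1| + |y2| with hY
  have hY1 : 1 ≤ Y := by rw [hY]; linarith
  have hY2 : 1 ≤ Y ^ 2 := one_le_pow₀ hY1
  have hYB : 1 ≤ Y ^ B := one_le_pow₀ hY1
  have hYY : Y ≤ Y ^ 2 := by rw [pow_two]; exact le_mul_of_one_le_left (by linarith) hY1
  have hysum : |y1| + |y2| ≤ Y ^ 2 := by linarith
  have hysq : y1 ^ 2 + y2 ^ 2 ≤ Y ^ 2 := by
    rw [← sq_abs y1, ← sq_abs y2, hY]
    have := mul_nonneg h0 h0'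
    ring_nf
    linarith
  have htt : t ^ (2 * c - 1) = t ^ (2 * c - 2) * t := by
    nth_rewrite 3 [← Real.rpow_one t]
    rw [← Real.rpow_add ht0]; congr 1; ring
  have hmm : ‖mm c (y1 + y2) t‖ ≤ t ^ (2 * c - 1) := by
    rw [mm_norm _ _ ht0]
    refine Real.rpow_le_rpow (by positivity) ?_ (by linarith)
    rw [div_le_iff₀ (by positivity)]
    have := Real.pi_gt_three
    nlinarith
  rcases lt_or_ge t (D * Y ^ 2) with hlt | hge
  · have h1 := hK t y1 y2 ht
    have htp : 0 ≤ t ^ (2 * c - 2) := by positivity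
    calc _ ≤ ‖XX ((c : ℂ) + (y1 + t : ℝ) * I) * XX ((c : ℂ) + (y2 - t : ℝ) * I)‖ +
          ‖mm c (y1 + y2) t‖ := norm_sub_le _ _
      _ ≤ K * Y ^ B * t ^ (2 * c - 1) + 1 * 1 * t ^ (2 * c - 1) := by
          rw [one_mul, one_mul]; exact add_le_add h1 hmm
      _ ≤ K * Y ^ B * t ^ (2 * c - 1) + K * Y ^ B * t ^ (2 * c - 1) := by gcongr
      _ = 2 * K * Y ^ B * (t ^ (2 * c - 2) * t) := by rw [htt]; ring
      _ ≤ 2 * K * Y ^ B * (t ^ (2 * c - 2) * (D * Y ^ 2)) := by gcongr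
      _ = 2 * K * D * (Y ^ (B + 2) * t ^ (2 * c - 2)) := by ring
      _ ≤ (2 * K * D + G) * (Y ^ (B + 2) * t ^ (2 * c - 2)) := by
          gcongr
          linarith
      _ = _ := by ring
  · -- the main case
    set X : ℝ := Y ^ 2 / t with hX
    have hX0 : 0 ≤ X := by positivity
    have hXD : D * X ≤ 1 := by
      rw [hX, mul_div_assoc', div_le_one ht0]; exact hge
    have hYt : 1 / t ≤ X := by rw [hX]; gcongr
    have hD8 : 8 * c ^ 2 + 2 ≤ D := by
      rw [hD]
      have := sq_nonneg c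
      linarith
    have hcc : 0 ≤ 8 * c ^ 2 + 2 := by positivity
    have hDt : (8 * c ^ 2 + 2) * Y ^ 2 ≤ t := (mul_le_mul_of_nonneg_right hD8 (by positivity)).trans hge
    have hcY : 8 * c ^ 2 ≤ 8 * c ^ 2 * Y ^ 2 := le_mul_of_one_le_right (by positivity) hY2
    have hcY0 : 0 ≤ 8 * c ^ 2 * Y ^ 2 := by positivity
    have ha1 : 2 * |y1| ≤ t := by linarith
    have ha2 : 2 * |-y2| ≤ t := by rw [abs_neg]; linarith
    have hb1 : 4 * c ^ 2 ≤ t + y1 := by
      have := (abs_le.1 (show |y1| ≤ t / 2 by linarith)).1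
      linarith
    have hb2 : 4 * c ^ 2 ≤ t + -y2 := by
      have := (abs_le.1 (show |-y2| ≤ t / 2 by linarith)).1
      linarith
    have hc1 : t / 2 ≤ t + y1 := by
      have := (abs_le.1 (show |y1| ≤ t / 2 by linarith)).1
      linarith
    have hc2 : t / 2 ≤ t + -y2 := by
      have := (abs_le.1 (show |-y2| ≤ t / 2 by linarith)).1
      linarith
    obtain ⟨e1, he1, hx1⟩ := XX_asymp hc (by linarith) le_rfl hb1
    obtain ⟨e2, he2, hx2⟩ := XX_asymp hc (by linarith) le_rfl hb2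
    have he1' : ‖e1‖ ≤ 24 * c ^ 2 * X := by
      refine he1.trans ?_
      calc 12 * c ^ 2 / (t + y1) ≤ 12 * c ^ 2 / (t / 2) := by gcongr
        _ = 24 * c ^ 2 * (1 / t) := by field_simp; ring
        _ ≤ _ := by gcongr
    have he2' : ‖e2‖ ≤ 24 * c ^ 2 * X := by
      refine he2.trans ?_
      calc 12 * c ^ 2 / (t + -y2) ≤ 12 * c ^ 2 / (t / 2) := by gcongr
        _ = 24 * c ^ 2 * (1 / t) := by field_simp; ring
        _ ≤ _ := by gcongr
    set l1 := Real.log (1 + y1 / t) with hl1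
    set l2 := Real.log (1 + -y2 / t) with hl2
    have q1 := log_quad ht0 ha1
    have q2 := log_quad ht0 ha2
    have p1 := log_lin ht0 ha1
    have p2 := log_lin ht0 ha2
    rw [← hl1] at q1 p1
    rw [← hl2] at q2 p2
    set ε : ℂ := (((c - 1 / 2) * (l1 + l2) : ℝ) : ℂ) +
      ((((t + y1) * l1 - y1) - ((t + -y2) * l2 - -y2) : ℝ) : ℂ) * I with hε
    have hεn : ‖ε‖ ≤ (2 * c + 2) * X := by
      have a1 : |(c - 1 / 2) * (l1 + l2)| ≤ (2 * c - 1) * X := by
        rw [abs_mul, abs_of_nonneg (by linarith : 0 ≤ c - 1 / 2)]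
        have b1 : |l1 + l2| ≤ 2 * X := by
          refine (abs_add_le _ _).trans ((add_le_add p1 p2).trans ?_)
          rw [abs_neg]
          have : 2 * (|y1| / t) + 2 * (|y2| / t) = 2 * ((|y1| + |y2|) / t) := by ring
          rw [this]
          have : (|y1| + |y2|) / t ≤ X := by
            rw [hX]
            gcongr
          linarith
        calc _ ≤ (c - 1 / 2) * (2 * X) := by
              have : 0 ≤ c - 1 / 2 := by linarith
              gcongr
          _ = _ := by ring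
      have a2 : |((t + y1) * l1 - y1) - ((t + -y2) * l2 - -y2)| ≤ 3 * X := by
        have : |((t + y1) * l1 - y1) - ((t + -y2) * l2 - -y2)| ≤
          |((t + y1) * l1 - y1)| + |((t + -y2) * l2 - -y2)| := abs_sub _ _
        refine this.trans ((add_le_add q1 q2).trans ?_)
        have h7 : 3 * (y1 ^ 2 / t) + 3 * ((-y2) ^ 2 / t) = 3 * ((y1 ^ 2 + y2 ^ 2) / t) := by ring
        rw [h7]
        have h8 : (y1 ^ 2 + y2 ^ 2) / t ≤ X := by
          rw [hX]
          gcongr
        linarith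
      rw [hε]
      refine (norm_add_le _ _).trans ?_
      rw [norm_mul, norm_I, mul_one, Complex.norm_real, Complex.norm_real, Real.norm_eq_abs,
        Real.norm_eq_abs]
      linarith
    have hc0 : 0 ≤ c ^ 2 := sq_nonneg c
    have hε1 : ‖ε‖ ≤ 1 := by
      refine hεn.trans (le_trans ?_ hXD)
      gcongr
      rw [hD]; linarith
    have hd : ‖exp ε - 1‖ ≤ (4 * c + 4) * X := by
      refine (norm_exp_sub_one_le hε1).trans ?_
      linarith
    have hd1 : ‖exp ε - 1‖ ≤ 1 := by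
      refine hd.trans (le_trans ?_ hXD)
      gcongr
      rw [hD]; linarith
    have he11 : ‖e1‖ ≤ 1 := by
      refine he1'.trans (le_trans ?_ hXD)
      gcongr
      rw [hD]; linarith
    have he21 : ‖conj e2‖ ≤ 1 := by
      rw [Complex.norm_conj]
      refine he2'.trans (le_trans ?_ hXD)
      gcongr
      rw [hD]; linarith
    have he22 : ‖conj e2‖ ≤ 24 * c ^ 2 * X := by rw [Complex.norm_conj]; exact he2'
    -- algebra
    have hx2' : XX ((c : ℂ) + (y2 - t : ℝ) * I) = exp (conj (Mx c (t + -y2))) * (1 + conj e2) := by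
      have : ((c : ℂ) + (y2 - t : ℝ) * I) = conj ((c : ℂ) + ((t + -y2 : ℝ) : ℂ) * I) := by
        simp only [map_add, map_mul, conj_ofReal, conj_I]
        push_cast; ring
      rw [this, XX_conj, hx2, map_mul, ← exp_conj]
      simp
    have hMM : exp (Mx c (t + y1)) * exp (conj (Mx c (t + -y2))) = mm c (y1 + y2) t * exp ε := by
      unfold mm
      rw [← exp_add, ← exp_add]
      congr 1
      have g1 : Real.log ((t + y1) / (2 * Real.pi)) = Real.log (t / (2 * Real.pi)) + l1 := by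
        rw [hl1, ← Real.log_mul (by positivity) (by
          have : 0 < 1 + y1 / t := by
            have : 1 + y1 / t = (t + y1) / t := by field_simp
            rw [this]
            exact div_pos (by linarith) ht0
          exact this.ne')]
        congr 1
        field_simp
      have g2 : Real.log ((t + -y2) / (2 * Real.pi)) = Real.log (t / (2 * Real.pi)) + l2 := by
        rw [hl2, ← Real.log_mul (by positivity) (by
          have : 0 < 1 + -y2 / t := by
            have : 1 + -y2 / t = (t + -y2) / t := by field_simp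
            rw [this]
            exact div_pos (by linarith) ht0
          exact this.ne')]
        congr 1
        field_simp
      unfold Mx
      rw [g1, g2, hε]
      simp only [map_add, map_mul, conj_ofReal, conj_I]
      push_cast
      ring
    have hXX : XX ((c : ℂ) + (y1 + t : ℝ) * I) * XX ((c : ℂ) + (y2 - t : ℝ) * I) =
        mm c (y1 + y2) t * (exp ε * (1 + e1) * (1 + conj e2)) := by
      rw [hx2', show (y1 + t : ℝ) = t + y1 by ring, hx1]
      linear_combination (1 + e1) * (1 + conj e2) * hMM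
    have hfin : ‖exp ε * (1 + e1) * (1 + conj e2) - 1‖ ≤ G * X := by
      have e5 : exp ε * (1 + e1) * (1 + conj e2) - 1 =
          (exp ε - 1) * ((1 + e1) * (1 + conj e2)) + e1 * (1 + conj e2) + conj e2 := by ring
      rw [e5]
      have k1 : ‖1 + e1‖ ≤ 2 := by
        refine (norm_add_le _ _).trans ?_
        rw [norm_one]; linarith
      have k2 : ‖1 + conj e2‖ ≤ 2 := by
        refine (norm_add_le _ _).trans ?_
        rw [norm_one]; linarith
      have k3 : ‖(exp ε - 1) * ((1 + e1) * (1 + conj e2))‖ ≤ ((4 * c + 4) * X) * (2 * 2) := by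
        rw [norm_mul, norm_mul]
        have : 0 ≤ (4 * c + 4) * X := by positivity
        gcongr
      have k4 : ‖e1 * (1 + conj e2)‖ ≤ (24 * c ^ 2 * X) * 2 := by
        rw [norm_mul]
        have : 0 ≤ 24 * c ^ 2 * X := by positivity
        gcongr
      refine (norm_add_le _ _).trans (le_trans (add_le_add ((norm_add_le _ _).trans
        (add_le_add k3 k4)) he22) ?_)
      rw [hG]
      linarith
    have e6 : XX ((c : ℂ) + (y1 + t : ℝ) * I) * XX ((c : ℂ) + (y2 - t : ℝ) * I) - mm c (y1 + y2) t =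
        mm c (y1 + y2) t * (exp ε * (1 + e1) * (1 + conj e2) - 1) := by
      rw [hXX]; ring
    rw [e6, norm_mul]
    have htp : 0 ≤ t ^ (2 * c - 2) := by positivity
    calc _ ≤ t ^ (2 * c - 1) * (G * X) := by gcongr
      _ = G * (Y ^ 2 * t ^ (2 * c - 2)) := by rw [htt, hX]; field_simp
      _ ≤ G * (Y ^ (B + 2) * t ^ (2 * c - 2)) := by
          have : Y ^ 2 ≤ Y ^ (B + 2) := pow_le_pow_right₀ hY1 (by omega)
          gcongr
      _ ≤ (2 * K * D + G) * (Y ^ (B + 2) * t ^ (2 * c - 2)) := by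
          have : 0 ≤ 2 * K * D := by positivity
          gcongr
          linarith
      _ = _ := by ring

end

end Pool.Agent.W182.KO
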